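import Mathlib

/-!
# Tame polynomials
-/

set_option autoImplicit false

namespace Pool.Agent.H531R2

open MvPolynomial

/-- The sum of the absolute values of the coefficients. -/
noncomputable def nrm {σ : Type} (P : MvPolynomial σ ℤ) : ℕ :=
  ∑ m ∈ P.support, (coeff m P).natAbs

/-- `F` is a rational combination `∑ c_i ∏_j g_j(ℓ) ^ e_ij` of `n` power products. Here
`ℓ = (ℓ_1, ..., ℓ_v)` are linearly independent linear forms in at most `v + n` of the variables
with integer coefficients of absolute value at most `2 ^ n`, the `g_j` are `n` polynomials in `v`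
variables of degree at most `n` with integer coefficients whose absolute values add up to at
most `2 ^ n`, the exponents `e_ij` are at most `2 ^ n`, and the `c_i` are arbitrary rational
numbers. -/
def FewPow (v n : ℕ) (F : MvPolynomial ℕ ℚ) : Prop :=
  ∃ (S : Finset ℕ) (L : Fin v → ℕ → ℤ) (g : Fin n → MvPolynomial (Fin v) ℤ)
    (e : Fin n → Fin n → ℕ) (c : Fin n → ℚ),
    S.card ≤ v + n ∧ (∀ b j, (L b j).natAbs ≤ 2 ^ n) ∧
    LinearIndependent ℤ (fun b => (∑ j ∈ S, C (L b j) * X j : MvPolynomial ℕ ℤ)) ∧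
    (∀ j, (g j).totalDegree ≤ n ∧ nrm (g j) ≤ 2 ^ n) ∧ (∀ i j, e i j ≤ 2 ^ n) ∧
    F = ∑ i, C (c i) * ∏ j, (aeval
      (fun b => (∑ k ∈ S, C (L b k : ℚ) * X k : MvPolynomial ℕ ℚ)) (g j)) ^ e i j

/-- `f` divides, over the rational numbers, a product of `n` nonzero polynomials with
`FewPow v n`, and no power `p ^ (n + 1)` of a prime number `p > n` divides all coefficients of
`f`. -/
def Tame (v n : ℕ) (f : MvPolynomial ℕ ℤ) : Prop :=
  (∀ p : ℕ, p.Prime → n < p → ¬ (C ((p : ℤ) ^ (n + 1)) ∣ f)) ∧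
    ∃ F : Fin n → MvPolynomial ℕ ℚ, (∀ a, F a ≠ 0 ∧ FewPow v n (F a)) ∧
      map (Int.castRingHom ℚ) f ∣ ∏ a, F a

end Pool.Agent.H531R2
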