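import Mathlib
import Pool.Agent.H531R2.TameDefs

/-!
# Primitive integer polynomials in several variables, and the sum of absolute values
-/

set_option autoImplicit false

namespace Pool.Agent.H531R2

open MvPolynomial

/-- A polynomial with integer coefficients is primitive if no prime divides all its
coefficients. -/
def Prim {σ : Type} (P : MvPolynomial σ ℤ) : Prop :=
  ∀ p : ℕ, p.Prime → ¬ (C (p : ℤ) ∣ P)

section Prim

variable {σ : Type}

theorem prime_C {p : ℕ} (hp : p.Prime) : Prime (C (p : ℤ) : MvPolynomial σ ℤ) :=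
  (prime_C_iff σ).2 (Nat.prime_iff_prime_int.1 hp)

theorem Prim.ne_zero {P : MvPolynomial σ ℤ} (h : Prim P) : P ≠ 0 := by
  rintro rfl
  exact h 2 Nat.prime_two (dvd_zero _)

theorem Prim.one : Prim (1 : MvPolynomial σ ℤ) := fun _ hp h =>
  (prime_C hp).not_isUnit (isUnit_of_dvd_one h)

theorem Prim.mul {P Q : MvPolynomial σ ℤ} (hP : Prim P) (hQ : Prim Q) : Prim (P * Q) :=
  fun p hp h => ((prime_C hp).dvd_or_dvd h).elim (hP p hp) (hQ p hp)

theorem Prim.pow {P : MvPolynomial σ ℤ} (hP : Prim P) (n : ℕ) : Prim (P ^ n) := by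
  induction n with
  | zero => simpa using Prim.one
  | succ n ih => rw [pow_succ]; exact ih.mul hP

theorem Prim.prod {ι : Type} (s : Finset ι) (f : ι → MvPolynomial σ ℤ)
    (h : ∀ i ∈ s, Prim (f i)) : Prim (∏ i ∈ s, f i) := by
  classical
  induction s using Finset.induction_on with
  | empty => simpa using Prim.one
  | insert a s ha ih =>
    rw [Finset.prod_insert ha]
    exact (h a (Finset.mem_insert_self _ _)).mul
      (ih fun i hi => h i (Finset.mem_insert_of_mem hi))

/-- Gauss' lemma for integer constants. -/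
theorem Prim.dvd_of_dvd_mul {M : MvPolynomial σ ℤ} (hM : Prim M) :
    ∀ (n : ℕ) (t : ℤ) (D : MvPolynomial σ ℤ), t.natAbs = n → t ≠ 0 → C t ∣ M * D → C t ∣ D := by
  intro n
  induction n using Nat.strong_induction_on with
  | _ n ih =>
    intro t D htn ht h
    by_cases h1 : t.natAbs = 1
    · rcases Int.natAbs_eq_iff.1 h1 with h2 | h2
      · rw [h2]; simp
      · rw [h2]; exact ⟨-D, by simp⟩
    · obtain ⟨p, hp, hpt⟩ := Nat.exists_prime_and_dvd h1
      obtain ⟨t', rfl⟩ : (p : ℤ) ∣ t := Int.natCast_dvd.2 hpt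
      have ht' : t' ≠ 0 := by rintro rfl; simp at ht
      have hp0 : (p : ℤ) ≠ 0 := by exact_mod_cast hp.ne_zero
      have h2 : C (p : ℤ) ∣ M * D := (Dvd.intro _ (C_mul (R := ℤ)).symm).trans h
      rcases (prime_C hp).dvd_or_dvd h2 with h3 | h3
      · exact absurd h3 (hM p hp)
      · obtain ⟨D', rfl⟩ := h3
        have h4 : C t' ∣ M * D' := by
          obtain ⟨E, hE⟩ := h
          refine ⟨E, ?_⟩
          have hc : (C (p : ℤ) : MvPolynomial σ ℤ) ≠ 0 := by
            simpa using hp0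
          apply mul_left_cancel₀ hc
          rw [C_mul] at hE
          linear_combination hE
        have hlt : t'.natAbs < n := by
          rw [← htn, Int.natAbs_mul, Int.natAbs_natCast]
          have := hp.two_le
          have h5 : 0 < t'.natAbs := Int.natAbs_pos.2 ht'
          nlinarith
        obtain ⟨E, hE⟩ := ih _ hlt t' D' rfl ht' h4
        exact ⟨E, by rw [hE, C_mul]; ring⟩

theorem Prim.C_dvd {M : MvPolynomial σ ℤ} (hM : Prim M) {t : ℤ} (ht : t ≠ 0)
    {D : MvPolynomial σ ℤ} (h : C t ∣ M * D) : C t ∣ D :=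
  hM.dvd_of_dvd_mul _ t D rfl ht h

theorem natAbs_le_nrm {D : MvPolynomial σ ℤ} (hD : D ≠ 0) {t : ℤ} (h : C t ∣ D) :
    t.natAbs ≤ nrm D := by
  obtain ⟨m, hm⟩ := MvPolynomial.support_nonempty.2 hD
  have h1 : t ∣ coeff m D := by
    obtain ⟨E, rfl⟩ := h
    rw [coeff_C_mul]
    exact dvd_mul_right _ _
  have h2 : coeff m D ≠ 0 := mem_support_iff.1 hm
  calc t.natAbs ≤ (coeff m D).natAbs := Nat.le_of_dvd (Int.natAbs_pos.2 h2) (Int.natAbs_dvd_natAbs.2 h1)
    _ ≤ nrm D := Finset.single_le_sum (f := fun m => (coeff m D).natAbs) (fun _ _ => Nat.zero_le _) hm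

/-- Splitting off the content. -/
theorem exists_prim_part {D : MvPolynomial σ ℤ} (hD : D ≠ 0) :
    ∃ (c : ℤ) (D' : MvPolynomial σ ℤ), c ≠ 0 ∧ D = C c * D' ∧ Prim D' := by
  classical
  have hex : ∃ n : ℕ, ∀ c : ℕ, C (c : ℤ) ∣ D → c ≤ n :=
    ⟨nrm D, fun c hc => by simpa using natAbs_le_nrm hD hc⟩
  obtain ⟨n, hn⟩ := hex
  let S : Finset ℕ := (Finset.range (n + 1)).filter (fun c => C (c : ℤ) ∣ D)
  have hS : S.Nonempty := ⟨1, by
    rw [Finset.mem_filter, Finset.mem_range]
    have h1 : (C ((1 : ℕ) : ℤ) : MvPolynomial σ ℤ) ∣ D := by simp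
    exact ⟨by have := hn 1 h1; omega, h1⟩⟩
  obtain ⟨c, hc, hmax⟩ := S.exists_max_image id hS
  rw [Finset.mem_filter] at hc
  obtain ⟨D', hD'⟩ := hc.2
  have hc0 : (c : ℤ) ≠ 0 := by
    intro h0
    rw [h0] at hD'
    simp at hD'
    exact hD hD'
  refine ⟨c, D', hc0, hD', fun p hp hdvd => ?_⟩
  obtain ⟨E, rfl⟩ := hdvd
  have h1 : C ((c * p : ℕ) : ℤ) ∣ D := ⟨E, by rw [hD']; push_cast; rw [C_mul]; ring⟩
  have h2 : c * p ∈ S := by
    rw [Finset.mem_filter, Finset.mem_range]
    exact ⟨by have := hn _ h1; omega, h1⟩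
  have h3 := hmax _ h2
  simp only [id_eq] at h3
  have h4 : 0 < c := by
    rcases Nat.eq_zero_or_pos c with h | h
    · exact absurd (by rw [h]; rfl) hc0
    · exact h
  have := hp.two_le
  nlinarith

end Prim

section Norm

variable {σ : Type}

theorem nrm_eq_sum {P : MvPolynomial σ ℤ} {S : Finset (σ →₀ ℕ)} (h : P.support ⊆ S) :
    nrm P = ∑ m ∈ S, (coeff m P).natAbs := by
  apply Finset.sum_subset h
  intro m _ hm
  rw [notMem_support_iff.1 hm]
  rfl

@[simp] theorem nrm_zero : nrm (0 : MvPolynomial σ ℤ) = 0 := by simp [nrm]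

theorem nrm_add (P Q : MvPolynomial σ ℤ) : nrm (P + Q) ≤ nrm P + nrm Q := by
  classical
  rw [nrm_eq_sum (P := P + Q) (S := P.support ∪ Q.support) support_add,
    nrm_eq_sum (P := P) (S := P.support ∪ Q.support) Finset.subset_union_left,
    nrm_eq_sum (P := Q) (S := P.support ∪ Q.support) Finset.subset_union_right,
    ← Finset.sum_add_distrib]
  refine Finset.sum_le_sum fun m _ => ?_
  rw [coeff_add]
  exact Int.natAbs_add_le _ _

theorem nrm_sum {ι : Type} (s : Finset ι) (f : ι → MvPolynomial σ ℤ) :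
    nrm (∑ i ∈ s, f i) ≤ ∑ i ∈ s, nrm (f i) := by
  classical
  induction s using Finset.induction_on with
  | empty => simp
  | insert a s ha ih =>
    rw [Finset.sum_insert ha, Finset.sum_insert ha]
    exact (nrm_add _ _).trans (Nat.add_le_add_left ih _)

theorem nrm_monomial_mul (m : σ →₀ ℕ) (a : ℤ) (Q : MvPolynomial σ ℤ) :
    nrm (monomial m a * Q) ≤ a.natAbs * nrm Q := by
  classical
  have h : (monomial m a * Q).support ⊆ Q.support.image (fun n => m + n) := by
    intro n hn
    rw [mem_support_iff, coeff_monomial_mul'] at hn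
    split_ifs at hn with h1
    · rw [Finset.mem_image]
      refine ⟨n - m, ?_, ?_⟩
      · rw [mem_support_iff]
        intro h0
        exact hn (by rw [h0, mul_zero])
      · exact add_tsub_cancel_of_le h1
    · exact absurd rfl hn
  rw [nrm_eq_sum h, Finset.sum_image (by intro x _ y _ hxy; exact add_left_cancel hxy), nrm,
    Finset.mul_sum]
  refine Finset.sum_le_sum fun n _ => ?_
  rw [coeff_monomial_mul, Int.natAbs_mul]

theorem nrm_mul (P Q : MvPolynomial σ ℤ) : nrm (P * Q) ≤ nrm P * nrm Q := by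
  conv_lhs => rw [P.as_sum, Finset.sum_mul]
  refine (nrm_sum _ _).trans ?_
  rw [nrm, Finset.sum_mul]
  exact Finset.sum_le_sum fun m _ => nrm_monomial_mul m _ Q

theorem nrm_C (a : ℤ) : nrm (C a : MvPolynomial σ ℤ) ≤ a.natAbs := by
  have := nrm_monomial_mul (0 : σ →₀ ℕ) a 1
  have h1 : nrm (1 : MvPolynomial σ ℤ) = 1 := by
    classical
    rw [nrm_eq_sum (P := 1) (S := {0}) (by
      intro m hm
      rw [mem_support_iff, coeff_one] at hm
      split_ifs at hm with h
      · simp [h.symm]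
      · exact absurd rfl hm)]
    simp
  rw [h1, mul_one, mul_one] at this
  exact this

theorem nrm_one : nrm (1 : MvPolynomial σ ℤ) ≤ 1 := by
  have := nrm_C (σ := σ) 1
  simpa using this

theorem nrm_prod_le {ι : Type} (s : Finset ι) (f : ι → MvPolynomial σ ℤ) (B : ℕ)
    (h : ∀ i ∈ s, nrm (f i) ≤ B) : nrm (∏ i ∈ s, f i) ≤ B ^ s.card := by
  classical
  induction s using Finset.induction_on with
  | empty => simpa using nrm_one
  | insert a s ha ih =>
    rw [Finset.prod_insert ha, Finset.card_insert_of_notMem ha, pow_succ']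
    exact (nrm_mul _ _).trans (Nat.mul_le_mul (h a (Finset.mem_insert_self _ _))
      (ih fun i hi => h i (Finset.mem_insert_of_mem hi)))

theorem nrm_neg (P : MvPolynomial σ ℤ) : nrm (-P) = nrm P := by
  simp [nrm, support_neg]

theorem nrm_det_le {r : ℕ} (A : Matrix (Fin r) (Fin r) (MvPolynomial σ ℤ)) (B : ℕ)
    (h : ∀ i j, nrm (A i j) ≤ B) : nrm A.det ≤ r.factorial * B ^ r := by
  classical
  rw [Matrix.det_apply]
  refine (nrm_sum _ _).trans ?_
  have h1 : ∀ τ ∈ (Finset.univ : Finset (Equiv.Perm (Fin r))),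
      nrm (Equiv.Perm.sign τ • ∏ i, A (τ i) i) ≤ B ^ r := by
    intro τ _
    have h2 : nrm (Equiv.Perm.sign τ • ∏ i, A (τ i) i) = nrm (∏ i, A (τ i) i) := by
      rcases Int.units_eq_one_or (Equiv.Perm.sign τ) with h | h <;> rw [h]
      · simp
      · simp [nrm_neg]
    rw [h2]
    have := nrm_prod_le Finset.univ (fun i => A (τ i) i) B (fun i _ => h _ _)
    simpa using this
  refine (Finset.sum_le_card_nsmul _ _ _ h1).trans ?_
  simp [Fintype.card_perm]

end Norm

end Pool.Agent.H531R2
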