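import Mathlib

/-!
# Wronskians of several elements and linear dependence over the integers
-/

set_option autoImplicit false

namespace Pool.Agent.H531R2

open Polynomial

/-- If the Wronskian matrix of `f` w.r.t. the derivation `δ` is singular then the family is
linearly dependent over the integers, provided elements with proportional logarithmic derivatives
are proportional over the integers. -/
theorem wronskian_dep {A : Type*} [CommRing A] [IsDomain A] (δ : Derivation ℤ A A)
    (hprop : ∀ b : A, b ≠ 0 → ∃ y : ℤ, y ≠ 0 ∧ ∀ a : A, a * δ b = b * δ a →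
      ∃ x : ℤ, (y : A) * a = (x : A) * b) :
    ∀ (r : ℕ) (f : Fin r → A),
      (Matrix.of fun b l : Fin r => (δ^[(l : ℕ)]) (f b)).det = 0 →
      ∃ c : Fin r → ℤ, c ≠ 0 ∧ ∑ b, (c b : A) * f b = 0 := by
  intro r
  induction r with
  | zero => intro f h; simp at h
  | succ r ih =>
    intro f h
    by_cases hW : (Matrix.of fun b l : Fin r => (δ^[(l : ℕ)]) (f b.succ)).det = 0
    · obtain ⟨c, hc, hs⟩ := ih (fun b => f b.succ) hW
      refine ⟨Fin.cons 0 c, ?_, ?_⟩
      · intro h0
        apply hc
        funext b
        have := congrFun h0 b.succ
        simpa using this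
      · rw [Fin.sum_univ_succ]
        simp [hs]
    · obtain ⟨a, ha, hM⟩ := Matrix.exists_vecMul_eq_zero_iff.2 h
      have hrel : ∀ l : ℕ, l < r + 1 → ∑ b, a b * (δ^[l]) (f b) = 0 := by
        intro l hl
        have := congrFun hM ⟨l, hl⟩
        simpa [Matrix.vecMul, dotProduct] using this
      have hker : ∀ u : Fin r → A, (∀ l : ℕ, l < r → ∑ b, u b * (δ^[l]) (f b.succ) = 0) → u = 0 := by
        intro u hu
        by_contra hne
        apply hW
        refine Matrix.exists_vecMul_eq_zero_iff.1 ⟨u, hne, ?_⟩
        funext l
        simpa [Matrix.vecMul, dotProduct] using hu l l.2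
      have ha0 : a 0 ≠ 0 := by
        intro h0
        have h1 : (fun b : Fin r => a b.succ) = 0 := by
          apply hker
          intro l hl
          have := hrel l (by omega)
          rw [Fin.sum_univ_succ, h0] at this
          simpa using this
        apply ha
        funext b
        refine Fin.cases h0 (fun b => ?_) b
        exact congrFun h1 b
      -- differentiate the relations
      have hrel' : ∀ l : ℕ, l < r → ∑ b, δ (a b) * (δ^[l]) (f b) = 0 := by
        intro l hl
        have h1 := hrel l (by omega)
        have h2 := hrel (l + 1) (by omega)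
        have h3 := congrArg δ h1
        rw [map_sum, map_zero] at h3
        simp only [Derivation.leibniz, smul_eq_mul] at h3
        rw [Finset.sum_add_distrib] at h3
        simp only [Function.iterate_succ_apply'] at h2
        rw [h2, zero_add] at h3
        rw [← h3]
        exact Finset.sum_congr rfl fun b _ => mul_comm _ _
      have hu : (fun b : Fin r => a 0 * δ (a b.succ) - a b.succ * δ (a 0)) = 0 := by
        apply hker
        intro l hl
        have h1 := hrel l (by omega)
        have h2 := hrel' l hl
        rw [Fin.sum_univ_succ] at h1 h2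
        have e : ∑ b : Fin r, (a 0 * δ (a b.succ) - a b.succ * δ (a 0)) * (δ^[l]) (f b.succ)
            = a 0 * ∑ b : Fin r, δ (a b.succ) * (δ^[l]) (f b.succ)
              - δ (a 0) * ∑ b : Fin r, a b.succ * (δ^[l]) (f b.succ) := by
          rw [Finset.mul_sum, Finset.mul_sum, ← Finset.sum_sub_distrib]
          exact Finset.sum_congr rfl fun b _ => by ring
        rw [e]
        have e1 : ∑ b : Fin r, δ (a b.succ) * (δ^[l]) (f b.succ) = - (δ (a 0) * (δ^[l]) (f 0)) := by
          linear_combination h2
        have e2 : ∑ b : Fin r, a b.succ * (δ^[l]) (f b.succ) = - (a 0 * (δ^[l]) (f 0)) := by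
          linear_combination h1
        rw [e1, e2]
        ring
      obtain ⟨y, hy, hx⟩ := hprop (a 0) ha0
      have hx' : ∀ b : Fin r, ∃ x : ℤ, (y : A) * a b.succ = (x : A) * a 0 := by
        intro b
        apply hx
        have := congrFun hu b
        simp only [Pi.zero_apply] at this
        linear_combination -this
      choose x hx' using hx'
      refine ⟨Fin.cons y x, ?_, ?_⟩
      · intro h0
        apply hy
        have := congrFun h0 0
        simpa using this
      · apply mul_left_cancel₀ ha0
        rw [mul_zero, Fin.sum_univ_succ]
        simp only [Fin.cons_zero, Fin.cons_succ]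
        have h1 := hrel 0 (by omega)
        simp only [Function.iterate_zero, id_eq] at h1
        rw [Fin.sum_univ_succ] at h1
        have e : a 0 * ∑ b : Fin r, (x b : A) * f b.succ = (y : A) * ∑ b : Fin r, a b.succ * f b.succ := by
          rw [Finset.mul_sum, Finset.mul_sum]
          refine Finset.sum_congr rfl fun b _ => ?_
          have := hx' b
          linear_combination (-f b.succ) * this
        rw [mul_add, e]
        linear_combination (y : A) * h1

/-- In `ℤ[X]`, proportional derivatives imply proportionality. -/
theorem prop_of_theta {b : ℤ[X]} (hb : b ≠ 0) {a : ℤ[X]}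
    (h : a * (X * derivative b) = b * (X * derivative a)) :
    C b.leadingCoeff * a = C a.leadingCoeff * b := by
  have hcoef : ∀ (f : ℤ[X]) (k : ℕ), (X * derivative f).coeff k = k * f.coeff k := by
    intro f k
    cases k with
    | zero => simp
    | succ k => rw [coeff_X_mul, coeff_derivative]; push_cast; ring
  have hdeg : ∀ f : ℤ[X], (X * derivative f).natDegree ≤ f.natDegree := by
    intro f
    rw [natDegree_le_iff_coeff_eq_zero]
    intro k hk
    rw [hcoef, coeff_eq_zero_of_natDegree_lt hk, mul_zero]
  have key : ∀ c : ℤ[X], c ≠ 0 → c * (X * derivative b) = b * (X * derivative c) →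
      c.natDegree = b.natDegree := by
    intro c hc h
    have h1 := congrArg (fun p => coeff p (c.natDegree + b.natDegree)) h
    rw [coeff_mul_add_eq_of_natDegree_le le_rfl (hdeg b), add_comm c.natDegree,
      coeff_mul_add_eq_of_natDegree_le le_rfl (hdeg c), hcoef, hcoef] at h1
    have hc' : c.coeff c.natDegree ≠ 0 := by
      rw [coeff_natDegree]; exact leadingCoeff_ne_zero.2 hc
    have hb' : b.coeff b.natDegree ≠ 0 := by
      rw [coeff_natDegree]; exact leadingCoeff_ne_zero.2 hb
    have h2 : (c.coeff c.natDegree * b.coeff b.natDegree) * ((b.natDegree : ℤ) - c.natDegree) = 0 := by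
      linear_combination h1
    rcases mul_eq_zero.1 h2 with h3 | h3
    · exact absurd h3 (mul_ne_zero hc' hb')
    · have : (b.natDegree : ℤ) = c.natDegree := by linarith
      exact_mod_cast this.symm
  by_cases ha : a = 0
  · simp [ha]
  have hab := key a ha h
  by_contra hne
  set c := C b.leadingCoeff * a - C a.leadingCoeff * b with hc
  have hc0 : c ≠ 0 := sub_ne_zero.2 hne
  have h2 : c * (X * derivative b) = b * (X * derivative c) := by
    rw [hc, derivative_sub, derivative_C_mul, derivative_C_mul]
    linear_combination (C b.leadingCoeff) * h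
  have h3 := key c hc0 h2
  have h4 : c.coeff b.natDegree = 0 := by
    rw [hc, coeff_sub, coeff_C_mul, coeff_C_mul]
    rw [coeff_natDegree]
    have : a.coeff b.natDegree = a.leadingCoeff := by rw [← hab]; rfl
    rw [this]
    ring
  rw [← h3, coeff_natDegree] at h4
  exact hc0 (leadingCoeff_eq_zero.1 h4)

end Pool.Agent.H531R2
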