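import Mathlib
import Pool.Agent.H531R2.Wron
import Pool.Agent.H531R2.Prim

/-!
# Weighted Euler derivations, Kronecker substitution, hyperexponential elements
-/

set_option autoImplicit false

namespace Pool.Agent.H531R2

open MvPolynomial

variable {v : ℕ}

/-- The weight of an exponent vector. -/
def wt (w : Fin v → ℕ) (m : Fin v →₀ ℕ) : ℕ := ∑ a, w a * m a

/-- The weighted Euler derivation `∑ w_a x_a ∂_a`. -/
noncomputable def Eul (w : Fin v → ℕ) :
    Derivation ℤ (MvPolynomial (Fin v) ℤ) (MvPolynomial (Fin v) ℤ) :=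
  mkDerivation ℤ (fun a => C (w a : ℤ) * X a)

theorem Eul_X (w : Fin v → ℕ) (a : Fin v) : Eul w (X a) = C (w a : ℤ) * X a := by
  rw [Eul, mkDerivation_X]

theorem Eul_monomial (w : Fin v → ℕ) (m : Fin v →₀ ℕ) (c : ℤ) :
    Eul w (monomial m c) = monomial m ((wt w m : ℤ) * c) := by
  rw [Eul, mkDerivation_monomial, Finsupp.sum_fintype _ _ (by intro i; simp)]
  have h : ∀ a : Fin v, (monomial (m - Finsupp.single a 1) ((m a : ℕ) : ℤ)) •
      ((C (w a : ℤ) * X a : MvPolynomial (Fin v) ℤ)) = monomial m ((w a * m a : ℕ) : ℤ) := by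
    intro a
    rw [smul_eq_mul]
    by_cases h0 : m a = 0
    · simp [h0]
    · have e : (C (w a : ℤ) * X a : MvPolynomial (Fin v) ℤ)
          = monomial (Finsupp.single a 1) (w a : ℤ) := by
        rw [X, C_mul_monomial, mul_one]
      rw [e, monomial_mul]
      have e2 : m - Finsupp.single a 1 + Finsupp.single a 1 = m := by
        apply tsub_add_cancel_of_le
        rw [Finsupp.single_le_iff]
        omega
      rw [e2]
      push_cast
      rw [mul_comm]
  rw [Finset.sum_congr rfl fun a _ => h a, ← map_sum, wt, smul_monomial]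
  congr 1
  rw [smul_eq_mul]
  push_cast
  ring

theorem coeff_Eul (w : Fin v → ℕ) (P : MvPolynomial (Fin v) ℤ) (m : Fin v →₀ ℕ) :
    coeff m (Eul w P) = wt w m * coeff m P := by
  induction P using MvPolynomial.induction_on' with
  | monomial n c =>
    rw [Eul_monomial, coeff_monomial, coeff_monomial]
    split_ifs with h
    · rw [h]
    · simp
  | add p q hp hq => rw [map_add, coeff_add, coeff_add, hp, hq]; ring

theorem totalDegree_Eul (w : Fin v → ℕ) (P : MvPolynomial (Fin v) ℤ) :
    (Eul w P).totalDegree ≤ P.totalDegree := by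
  apply totalDegree_le_of_support_subset
  intro m hm
  rw [mem_support_iff, coeff_Eul] at hm
  rw [mem_support_iff]
  exact right_ne_zero_of_mul hm

theorem wt_le (w : Fin v → ℕ) (B : ℕ) (hB : ∀ a, w a ≤ B) (m : Fin v →₀ ℕ) :
    wt w m ≤ B * m.degree := by
  rw [wt, Finsupp.degree_eq_sum, Finset.mul_sum]
  exact Finset.sum_le_sum fun a _ => Nat.mul_le_mul_right _ (hB a)

theorem degree_le_totalDegree {P : MvPolynomial (Fin v) ℤ} {m : Fin v →₀ ℕ}
    (hm : coeff m P ≠ 0) : m.degree ≤ P.totalDegree := by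
  have := le_totalDegree (mem_support_iff.2 hm)
  rw [Finsupp.sum_fintype _ _ (by intro i; rfl)] at this
  rwa [Finsupp.degree_eq_sum]

theorem nrm_Eul (w : Fin v → ℕ) (B : ℕ) (hB : ∀ a, w a ≤ B) (P : MvPolynomial (Fin v) ℤ) (d : ℕ)
    (hd : P.totalDegree ≤ d) : nrm (Eul w P) ≤ B * d * nrm P := by
  have hs : (Eul w P).support ⊆ P.support := by
    intro m hm
    rw [mem_support_iff, coeff_Eul] at hm
    rw [mem_support_iff]
    exact right_ne_zero_of_mul hm
  rw [nrm_eq_sum hs, nrm, Finset.mul_sum]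
  refine Finset.sum_le_sum fun m hm => ?_
  rw [coeff_Eul, Int.natAbs_mul, Int.natAbs_natCast]
  refine Nat.mul_le_mul_right _ ((wt_le w B hB m).trans (Nat.mul_le_mul_left _ ?_))
  exact (degree_le_totalDegree (mem_support_iff.1 hm)).trans hd

/-! ### Kronecker substitution -/

/-- The substitution `x_a ↦ t^(w a)`. -/
noncomputable def Kro (w : Fin v → ℕ) : MvPolynomial (Fin v) ℤ →ₐ[ℤ] Polynomial ℤ :=
  aeval (fun a => (Polynomial.X : Polynomial ℤ) ^ (w a))

theorem Kro_monomial (w : Fin v → ℕ) (m : Fin v →₀ ℕ) (c : ℤ) :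
    Kro w (monomial m c) = Polynomial.C c * Polynomial.X ^ (wt w m) := by
  rw [Kro, aeval_monomial, Finsupp.prod_fintype _ _ (by intro i; simp), wt]
  congr 1
  rw [← Finset.prod_pow_eq_pow_sum]
  exact Finset.prod_congr rfl fun a _ => by rw [← pow_mul]

theorem Kro_Eul (w : Fin v → ℕ) (P : MvPolynomial (Fin v) ℤ) :
    Kro w (Eul w P) = Polynomial.X * Polynomial.derivative (Kro w P) := by
  induction P using MvPolynomial.induction_on' with
  | monomial n c =>
    rw [Eul_monomial, Kro_monomial, Kro_monomial, Polynomial.derivative_C_mul_X_pow]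
    cases h : wt w n with
    | zero => simp
    | succ k =>
      simp only [Nat.add_sub_cancel, map_mul, pow_succ]
      push_cast
      simp only [map_add, map_natCast, map_one]
      ring
  | add p q hp hq => rw [map_add, map_add, map_add, hp, hq, map_add]; ring

theorem Kro_eq_sum (w : Fin v → ℕ) (P : MvPolynomial (Fin v) ℤ) :
    Kro w P = ∑ m ∈ P.support, Polynomial.C (coeff m P) * Polynomial.X ^ (wt w m) := by
  conv_lhs => rw [P.as_sum, map_sum]
  exact Finset.sum_congr rfl fun m _ => Kro_monomial w m _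

/-- The geometric weights. -/
def gw (v N : ℕ) : Fin v → ℕ := fun a => N ^ (a : ℕ)

theorem digits_inj (N : ℕ) : ∀ (v : ℕ) (x y : Fin v → ℕ), (∀ a, x a < N) → (∀ a, y a < N) →
    ∑ a : Fin v, N ^ (a : ℕ) * x a = ∑ a : Fin v, N ^ (a : ℕ) * y a → x = y := by
  intro v
  induction v with
  | zero => intro x y _ _ _; funext a; exact a.elim0
  | succ v ih =>
    intro x y hx hy h
    rw [Fin.sum_univ_succ, Fin.sum_univ_succ] at h
    have e : ∀ z : Fin (v + 1) → ℕ, ∑ a : Fin v, N ^ ((a.succ : Fin (v + 1)) : ℕ) * z a.succ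
        = N * ∑ a : Fin v, N ^ (a : ℕ) * z a.succ := by
      intro z
      rw [Finset.mul_sum]
      exact Finset.sum_congr rfl fun a _ => by rw [Fin.val_succ, pow_succ]; ring
    rw [e x, e y] at h
    simp only [Fin.val_zero, pow_zero, one_mul] at h
    have h0 : x 0 = y 0 := by
      have := congrArg (· % N) h
      simp only [Nat.add_mul_mod_self_left] at this
      rwa [Nat.mod_eq_of_lt (hx 0), Nat.mod_eq_of_lt (hy 0)] at this
    have hN : 0 < N := lt_of_le_of_lt (Nat.zero_le _) (hx 0)
    have h1 : ∑ a : Fin v, N ^ (a : ℕ) * x a.succ = ∑ a : Fin v, N ^ (a : ℕ) * y a.succ := by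
      rw [h0] at h
      exact Nat.eq_of_mul_eq_mul_left hN (by omega)
    have h2 := ih (fun a => x a.succ) (fun a => y a.succ) (fun a => hx _) (fun a => hy _) h1
    funext a
    refine Fin.cases h0 (fun b => ?_) a
    exact congrFun h2 b

theorem Kro_ne_zero {N : ℕ} {P : MvPolynomial (Fin v) ℤ} (hP : P ≠ 0)
    (hd : P.totalDegree < N) : Kro (gw v N) P ≠ 0 := by
  obtain ⟨m, hm⟩ := MvPolynomial.support_nonempty.2 hP
  intro h
  have h1 := congrArg (fun q => Polynomial.coeff q (wt (gw v N) m)) h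
  simp only [Kro_eq_sum, Polynomial.finsetSum_coeff, Polynomial.coeff_C_mul_X_pow,
    Polynomial.coeff_zero] at h1
  rw [Finset.sum_eq_single m] at h1
  · rw [if_pos rfl] at h1
    exact mem_support_iff.1 hm h1
  · intro n hn hne
    rw [if_neg]
    intro he
    apply hne
    have hlt : ∀ k ∈ P.support, ∀ a, k a < N := by
      intro k hk a
      refine lt_of_le_of_lt ?_ (lt_of_le_of_lt (degree_le_totalDegree (mem_support_iff.1 hk)) hd)
      exact Finsupp.le_degree a k
    have := digits_inj N v m n (hlt m hm) (hlt n hn) he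
    exact (DFunLike.coe_injective this).symm
  · intro h2
    exact absurd hm h2

end Pool.Agent.H531R2
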