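import Mathlib
import Pool.Agent.H531R2.Deriv

/-!
# Hyperexponential elements, their derivatives, and bounds
-/

set_option autoImplicit false

namespace Pool.Agent.H531R2

open MvPolynomial

variable {v : ℕ}

/-- The derivation `G * ∑ w_a x_a ∂_a`. -/
noncomputable def Dl (w : Fin v → ℕ) (G : MvPolynomial (Fin v) ℤ) :
    Derivation ℤ (MvPolynomial (Fin v) ℤ) (MvPolynomial (Fin v) ℤ) := G • Eul w

theorem Dl_apply (w : Fin v → ℕ) (G P : MvPolynomial (Fin v) ℤ) : Dl w G P = G * Eul w P := rfl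

/-- The polynomials `R_l` with `δ^l M = R_l M` when `δ M = L M`. -/
noncomputable def Rs (w : Fin v → ℕ) (G L : MvPolynomial (Fin v) ℤ) :
    ℕ → MvPolynomial (Fin v) ℤ
  | 0 => 1
  | l + 1 => Dl w G (Rs w G L l) + L * Rs w G L l

theorem iterate_Dl {w : Fin v → ℕ} {G L M : MvPolynomial (Fin v) ℤ} (h : Dl w G M = L * M) :
    ∀ l : ℕ, ((Dl w G)^[l]) M = M * Rs w G L l := by
  intro l
  induction l with
  | zero => simp [Rs]
  | succ l ih =>
    rw [Function.iterate_succ_apply', ih, Derivation.leibniz, h, Rs, smul_eq_mul, smul_eq_mul]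
    ring

theorem Dl_pow {w : Fin v → ℕ} {G L M : MvPolynomial (Fin v) ℤ} (h : Dl w G M = L * M) (e : ℕ) :
    Dl w G (M ^ e) = (C (e : ℤ) * L) * M ^ e := by
  induction e with
  | zero => simp
  | succ e ih =>
    rw [pow_succ, Derivation.leibniz, ih, h, smul_eq_mul, smul_eq_mul]
    push_cast
    rw [map_add, map_one]
    ring

theorem Dl_prod {w : Fin v → ℕ} {G : MvPolynomial (Fin v) ℤ} {ι : Type} [DecidableEq ι]
    (s : Finset ι) (L M : ι → MvPolynomial (Fin v) ℤ) (h : ∀ i ∈ s, Dl w G (M i) = L i * M i) :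
    Dl w G (∏ i ∈ s, M i) = (∑ i ∈ s, L i) * ∏ i ∈ s, M i := by
  induction s using Finset.induction_on with
  | empty => simp
  | insert a s ha ih =>
    rw [Finset.prod_insert ha, Finset.sum_insert ha, Derivation.leibniz,
      ih fun i hi => h i (Finset.mem_insert_of_mem hi), h a (Finset.mem_insert_self _ _),
      smul_eq_mul, smul_eq_mul]
    ring

/-- The logarithmic derivative (times `∏ g`) of `∏ g_j ^ e_j`. -/
noncomputable def Ld {m : ℕ} (w : Fin v → ℕ) (g : Fin m → MvPolynomial (Fin v) ℤ)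
    (e : Fin m → ℕ) : MvPolynomial (Fin v) ℤ :=
  ∑ j, C (e j : ℤ) * ((∏ l ∈ Finset.univ.erase j, g l) * Eul w (g j))

theorem Dl_powerProd {m : ℕ} (w : Fin v → ℕ) (g : Fin m → MvPolynomial (Fin v) ℤ)
    (e : Fin m → ℕ) :
    Dl w (∏ j, g j) (∏ j, g j ^ e j) = Ld w g e * ∏ j, g j ^ e j := by
  rw [Ld]
  apply Dl_prod
  intro j _
  apply Dl_pow
  rw [Dl_apply, ← Finset.mul_prod_erase Finset.univ g (Finset.mem_univ j)]
  ring

/-! ### Degrees -/

theorem totalDegree_prod_le {ι : Type} (s : Finset ι) (f : ι → MvPolynomial (Fin v) ℤ) (d : ℕ)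
    (h : ∀ i ∈ s, (f i).totalDegree ≤ d) : (∏ i ∈ s, f i).totalDegree ≤ s.card * d := by
  refine (totalDegree_finsetProd _ _).trans ?_
  simpa using Finset.sum_le_card_nsmul _ _ _ h

theorem totalDegree_sum_le {ι : Type} (s : Finset ι) (f : ι → MvPolynomial (Fin v) ℤ) (d : ℕ)
    (h : ∀ i ∈ s, (f i).totalDegree ≤ d) : (∑ i ∈ s, f i).totalDegree ≤ d :=
  (totalDegree_finsetSum _ _).trans (Finset.sup_le h)

theorem totalDegree_C_mul_le (c : ℤ) (P : MvPolynomial (Fin v) ℤ) :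
    (C c * P).totalDegree ≤ P.totalDegree := by
  refine (totalDegree_mul _ _).trans ?_
  rw [totalDegree_C, zero_add]

theorem totalDegree_Ld {m : ℕ} (w : Fin v → ℕ) (g : Fin m → MvPolynomial (Fin v) ℤ)
    (e : Fin m → ℕ) (d : ℕ) (hd : ∀ j, (g j).totalDegree ≤ d) :
    (Ld w g e).totalDegree ≤ m * d := by
  apply totalDegree_sum_le
  intro j _
  refine (totalDegree_C_mul_le _ _).trans ((totalDegree_mul _ _).trans ?_)
  have h1 := totalDegree_prod_le (Finset.univ.erase j) g d (fun i _ => hd i)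
  have h2 := (totalDegree_Eul w (g j)).trans (hd j)
  rw [Finset.card_erase_of_mem (Finset.mem_univ j), Finset.card_univ, Fintype.card_fin] at h1
  have hm : 0 < m := Fin.pos j
  obtain ⟨k, rfl⟩ : ∃ k, m = k + 1 := ⟨m - 1, by omega⟩
  simp only [Nat.add_sub_cancel] at h1
  rw [Nat.succ_mul]
  omega

theorem totalDegree_Rs (w : Fin v → ℕ) {G L : MvPolynomial (Fin v) ℤ} {d : ℕ}
    (hG : G.totalDegree ≤ d) (hL : L.totalDegree ≤ d) (l : ℕ) :
    (Rs w G L l).totalDegree ≤ l * d := by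
  induction l with
  | zero => simp [Rs]
  | succ l ih =>
    rw [Rs, Dl_apply]
    refine (totalDegree_add _ _).trans (max_le ?_ ?_)
    · refine (totalDegree_mul _ _).trans ?_
      have := (totalDegree_Eul w (Rs w G L l)).trans ih
      rw [Nat.succ_mul]
      omega
    · refine (totalDegree_mul _ _).trans ?_
      rw [Nat.succ_mul]
      omega

theorem totalDegree_det_le {r : ℕ} (A : Matrix (Fin r) (Fin r) (MvPolynomial (Fin v) ℤ)) (d : ℕ)
    (h : ∀ i j, (A i j).totalDegree ≤ d) : A.det.totalDegree ≤ r * d := by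
  rw [Matrix.det_apply]
  apply totalDegree_sum_le
  intro τ _
  have h2 : (Equiv.Perm.sign τ • ∏ i, A (τ i) i).totalDegree ≤ (∏ i, A (τ i) i).totalDegree := by
    rcases Int.units_eq_one_or (Equiv.Perm.sign τ) with h | h <;> rw [h]
    · simp
    · simp
  refine h2.trans ?_
  have := totalDegree_prod_le Finset.univ (fun i => A (τ i) i) d (fun i _ => h _ _)
  simpa using this

/-! ### Norms -/

theorem nrm_Ld {m : ℕ} (w : Fin v → ℕ) (W : ℕ) (hW : ∀ a, w a ≤ W)
    (g : Fin m → MvPolynomial (Fin v) ℤ) (e : Fin m → ℕ) (d B E : ℕ)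
    (hd : ∀ j, (g j).totalDegree ≤ d) (hB : ∀ j, nrm (g j) ≤ B) (hB1 : 1 ≤ B)
    (hE : ∀ j, e j ≤ E) :
    nrm (Ld w g e) ≤ m * (E * (B ^ m * (W * d * B))) := by
  refine (nrm_sum _ _).trans ?_
  refine (Finset.sum_le_card_nsmul Finset.univ _ (E * (B ^ m * (W * d * B))) ?_).trans ?_
  · intro j _
    refine (nrm_mul _ _).trans (Nat.mul_le_mul ?_ ?_)
    · exact (nrm_C _).trans (by simpa using hE j)
    · refine (nrm_mul _ _).trans (Nat.mul_le_mul ?_ ?_)
      · refine (nrm_prod_le _ g B (fun i _ => hB i)).trans ?_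
        apply Nat.pow_le_pow_right hB1
        refine (Finset.card_le_univ _).trans ?_
        simp
      · exact (nrm_Eul w W hW (g j) d (hd j)).trans (Nat.mul_le_mul_left _ (hB j))
  · simp

theorem nrm_Rs (w : Fin v → ℕ) (W : ℕ) (hW : ∀ a, w a ≤ W) {G L : MvPolynomial (Fin v) ℤ}
    {d BG BL T k : ℕ} (hG : G.totalDegree ≤ d) (hL : L.totalDegree ≤ d) (hBG : nrm G ≤ BG)
    (hBL : nrm L ≤ BL) (hT : BG * (W * (k * d)) + BL ≤ T) (l : ℕ) (hl : l ≤ k) :
    nrm (Rs w G L l) ≤ T ^ l := by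
  induction l with
  | zero => simpa [Rs] using nrm_one
  | succ l ih =>
    have ih := ih (by omega)
    rw [Rs, Dl_apply, pow_succ']
    refine (nrm_add _ _).trans ?_
    have h1 : nrm (Eul w (Rs w G L l)) ≤ W * (k * d) * T ^ l := by
      refine (nrm_Eul w W hW _ (k * d) ((totalDegree_Rs w hG hL l).trans
        (Nat.mul_le_mul_right _ (by omega)))).trans ?_
      exact Nat.mul_le_mul_left _ ih
    calc nrm (G * Eul w (Rs w G L l)) + nrm (L * Rs w G L l)
        ≤ BG * (W * (k * d) * T ^ l) + BL * T ^ l :=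
          Nat.add_le_add ((nrm_mul _ _).trans (Nat.mul_le_mul hBG h1))
            ((nrm_mul _ _).trans (Nat.mul_le_mul hBL ih))
      _ = (BG * (W * (k * d)) + BL) * T ^ l := by ring
      _ ≤ T * T ^ l := Nat.mul_le_mul_right _ hT

end Pool.Agent.H531R2
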