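import Mathlib
import Pool.Agent.H531R2.Hyp

/-!
# The substitution `x ↦ s + p x` and divisibility by powers of `p`
-/

set_option autoImplicit false

namespace Pool.Agent.H531R2

open MvPolynomial

variable {v : ℕ}

/-- The translation `x ↦ x + s`. -/
noncomputable def Tau (s : Fin v → ℤ) : MvPolynomial (Fin v) ℤ →ₐ[ℤ] MvPolynomial (Fin v) ℤ :=
  aeval (fun a => X a + C (s a))

/-- The scaling `x ↦ p x`. -/
noncomputable def Rho (v : ℕ) (p : ℤ) : MvPolynomial (Fin v) ℤ →ₐ[ℤ] MvPolynomial (Fin v) ℤ :=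
  aeval (fun a => C p * X a)

/-- The substitution `x ↦ s + p x`. -/
noncomputable def Sig (p : ℤ) (s : Fin v → ℤ) :
    MvPolynomial (Fin v) ℤ →ₐ[ℤ] MvPolynomial (Fin v) ℤ :=
  aeval (fun a => C (s a) + C p * X a)

theorem Sig_eq (p : ℤ) (s : Fin v → ℤ) (P : MvPolynomial (Fin v) ℤ) :
    Sig p s P = Rho v p (Tau s P) := by
  have : Sig p s = (Rho v p).comp (Tau s) := by
    apply algHom_ext
    intro a
    simp only [Sig, Rho, Tau, aeval_X, AlgHom.comp_apply, map_add]
    rw [algHom_C (R := ℤ), add_comm]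
    rfl
  rw [this]
  rfl

theorem Tau_neg (s : Fin v → ℤ) (P : MvPolynomial (Fin v) ℤ) :
    Tau (fun a => - s a) (Tau s P) = P := by
  have : (Tau (fun a => - s a)).comp (Tau s) = AlgHom.id ℤ _ := by
    apply algHom_ext
    intro a
    simp only [Tau, aeval_X, AlgHom.comp_apply, map_add, AlgHom.id_apply]
    rw [algHom_C (R := ℤ)]
    rw [algebraMap_eq]
    simp
  calc _ = ((Tau (fun a => - s a)).comp (Tau s)) P := rfl
    _ = P := by rw [this]; rfl

theorem Rho_monomial (p : ℤ) (m : Fin v →₀ ℕ) (c : ℤ) :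
    Rho v p (monomial m c) = monomial m (p ^ m.degree * c) := by
  rw [Rho, aeval_monomial, Finsupp.prod_fintype _ _ (by intro i; simp)]
  simp only [mul_pow, Finset.prod_mul_distrib]
  rw [Finset.prod_pow_eq_pow_sum, ← Finsupp.degree_eq_sum]
  have h1 : (∏ i : Fin v, (X i : MvPolynomial (Fin v) ℤ) ^ m i) = monomial m 1 := by
    rw [monomial_eq, Finsupp.prod_fintype _ _ (by intro i; simp)]
    simp
  rw [h1, ← C_pow, C_mul_monomial, algebraMap_eq, C_mul_monomial, mul_one]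
  congr 1
  ring

theorem coeff_Rho (p : ℤ) (P : MvPolynomial (Fin v) ℤ) (m : Fin v →₀ ℕ) :
    coeff m (Rho v p P) = p ^ m.degree * coeff m P := by
  induction P using MvPolynomial.induction_on' with
  | monomial n c =>
    rw [Rho_monomial, coeff_monomial, coeff_monomial]
    split_ifs with h
    · rw [h]
    · simp
  | add p q hp hq => rw [map_add, coeff_add, coeff_add, hp, hq]; ring

theorem totalDegree_Tau (s : Fin v → ℤ) (P : MvPolynomial (Fin v) ℤ) :
    (Tau s P).totalDegree ≤ P.totalDegree := by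
  conv_lhs => rw [P.as_sum, map_sum]
  apply totalDegree_sum_le
  intro m hm
  rw [Tau, aeval_monomial, algebraMap_eq, Finsupp.prod_fintype _ _ (by intro i; simp)]
  refine (totalDegree_C_mul_le _ _).trans ?_
  refine (totalDegree_finsetProd _ _).trans ?_
  refine le_trans ?_ (degree_le_totalDegree (mem_support_iff.1 hm))
  rw [Finsupp.degree_eq_sum]
  refine Finset.sum_le_sum fun a _ => ?_
  refine (totalDegree_pow _ _).trans ?_
  have : (X a + C (s a) : MvPolynomial (Fin v) ℤ).totalDegree ≤ 1 := by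
    refine (totalDegree_add _ _).trans (max_le ?_ ?_)
    · rw [totalDegree_X]
    · rw [totalDegree_C]; exact Nat.zero_le _
  calc m a * (X a + C (s a) : MvPolynomial (Fin v) ℤ).totalDegree ≤ m a * 1 :=
        Nat.mul_le_mul_left _ this
    _ = m a := mul_one _

theorem not_dvd_Tau {p : ℕ} (s : Fin v → ℤ) {P : MvPolynomial (Fin v) ℤ}
    (hP : ¬ (C (p : ℤ) ∣ P)) : ¬ (C (p : ℤ) ∣ Tau s P) := by
  rintro ⟨H, hH⟩
  apply hP
  refine ⟨Tau (fun a => - s a) H, ?_⟩
  have := congrArg (Tau (fun a => - s a)) hH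
  rw [Tau_neg, map_mul] at this
  rw [this]
  congr 1
  rw [algHom_C]
  rfl

/-- A polynomial of degree at most `d` not divisible by `p` is not divisible by `p^(d+1)` after the
substitution `x ↦ s + p x`. -/
theorem not_pow_dvd_Sig {p : ℕ} (hp : p.Prime) (s : Fin v → ℤ) {P : MvPolynomial (Fin v) ℤ}
    (hP : ¬ (C (p : ℤ) ∣ P)) {d : ℕ} (hd : P.totalDegree ≤ d) :
    ¬ ((C (p : ℤ)) ^ (d + 1) ∣ Sig p s P) := by
  intro h
  have h1 := not_dvd_Tau s hP
  rw [C_dvd_iff_dvd_coeff] at h1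
  push Not at h1
  obtain ⟨m, hm⟩ := h1
  rw [Sig_eq, ← C_pow, C_dvd_iff_dvd_coeff] at h
  have h2 := h m
  rw [coeff_Rho] at h2
  have hm0 : coeff m (Tau s P) ≠ 0 := by
    intro h0
    rw [h0] at hm
    exact hm (dvd_zero _)
  have hmd : m.degree ≤ d := (degree_le_totalDegree hm0).trans ((totalDegree_Tau s P).trans hd)
  apply hm
  have hp0 : (p : ℤ) ≠ 0 := by exact_mod_cast hp.ne_zero
  have h3 : (p : ℤ) ^ (m.degree + 1) ∣ (p : ℤ) ^ m.degree * coeff m (Tau s P) :=
    (pow_dvd_pow _ (by omega)).trans h2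
  rw [pow_succ] at h3
  exact (mul_dvd_mul_iff_left (pow_ne_zero _ hp0)).1 h3

/-- The order drops by at most one under the derivations considered. -/
theorem Sig_Eul (w : Fin v → ℕ) (p : ℤ) (s : Fin v → ℤ) (P : MvPolynomial (Fin v) ℤ) :
    (mkDerivation ℤ (fun a => C (w a : ℤ) * (C (s a) + C p * X a)) :
      Derivation ℤ (MvPolynomial (Fin v) ℤ) (MvPolynomial (Fin v) ℤ)) (Sig p s P)
      = C p * Sig p s (Eul w P) := by
  induction P using MvPolynomial.induction_on with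
  | C a =>
    rw [derivation_C, Sig, algHom_C, algebraMap_eq, derivation_C, map_zero, mul_zero]
  | add p q hp hq => rw [map_add, map_add, map_add, map_add, hp, hq]; ring
  | mul_X q a hq =>
    rw [map_mul, Derivation.leibniz, hq, Derivation.leibniz, map_add, smul_eq_mul, smul_eq_mul,
      smul_eq_mul, smul_eq_mul, Eul_X, map_mul, map_mul, map_mul]
    have h1 : Sig p s (X a) = C (s a) + C p * X a := by rw [Sig, aeval_X]
    have h2 : Sig p s (C (w a : ℤ)) = C (w a : ℤ) := by rw [Sig, algHom_C, algebraMap_eq]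
    rw [h1, h2, map_add, derivation_C, Derivation.leibniz, derivation_C, mkDerivation_X,
      smul_eq_mul, smul_eq_mul]
    ring

theorem pow_dvd_Sig_Dl {p : ℕ} (hp : p.Prime) (w : Fin v → ℕ) (G : MvPolynomial (Fin v) ℤ)
    (s : Fin v → ℤ) {P : MvPolynomial (Fin v) ℤ} {k : ℕ}
    (h : (C (p : ℤ)) ^ (k + 1) ∣ Sig p s P) : (C (p : ℤ)) ^ k ∣ Sig p s (Dl w G P) := by
  have hp0 : (C (p : ℤ) : MvPolynomial (Fin v) ℤ) ≠ 0 := (prime_C hp).ne_zero
  rw [Dl_apply, map_mul]
  apply Dvd.dvd.mul_left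
  obtain ⟨H, hH⟩ := h
  have h1 := Sig_Eul w p s P
  rw [hH, ← C_pow, Derivation.leibniz, derivation_C, smul_zero, add_zero, smul_eq_mul, C_pow,
    pow_succ'] at h1
  exact ⟨_, (mul_left_cancel₀ hp0 (h1.symm.trans (mul_assoc _ _ _)))⟩

theorem pow_dvd_Sig_iterate {p : ℕ} (hp : p.Prime) (w : Fin v → ℕ) (G : MvPolynomial (Fin v) ℤ)
    (s : Fin v → ℤ) {P : MvPolynomial (Fin v) ℤ} (l : ℕ) :
    ∀ {k : ℕ}, (C (p : ℤ)) ^ (k + l) ∣ Sig p s P →
      (C (p : ℤ)) ^ k ∣ Sig p s ((Dl w G)^[l] P) := by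
  induction l with
  | zero => intro k h; simpa using h
  | succ l ih =>
    intro k h
    rw [Function.iterate_succ_apply']
    apply pow_dvd_Sig_Dl hp
    apply ih
    rwa [show k + 1 + l = k + (l + 1) by ring]

theorem constantCoeff_Sig (p : ℤ) (s : Fin v → ℤ) (P : MvPolynomial (Fin v) ℤ) :
    constantCoeff (Sig p s P) = eval s P := by
  have : ((constantCoeff : MvPolynomial (Fin v) ℤ →+* ℤ).comp (Sig p s).toRingHom) = eval s := by
    apply MvPolynomial.ringHom_ext
    · intro r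
      simp [Sig]
    · intro a
      simp [Sig]
  rw [← this]
  rfl

/-- Elements that do not vanish at `s` modulo `p` are prime to `p` after the substitution. -/
theorem not_dvd_Sig_of_eval {p : ℕ} (s : Fin v → ℤ) {P : MvPolynomial (Fin v) ℤ}
    (h : ¬ ((p : ℤ) ∣ eval s P)) : ¬ (C (p : ℤ) ∣ Sig p s P) := by
  rintro ⟨H, hH⟩
  apply h
  rw [← constantCoeff_Sig (p : ℤ), hH]
  simp

/-- Additivity of the order of divisibility by `p`. -/
theorem not_pow_dvd_mul {p : ℕ} (hp : p.Prime) {P Q : MvPolynomial (Fin v) ℤ} {a b : ℕ}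
    (hP : ¬ ((C (p : ℤ)) ^ (a + 1) ∣ P)) (hQ : ¬ ((C (p : ℤ)) ^ (b + 1) ∣ Q)) :
    ¬ ((C (p : ℤ)) ^ (a + b + 1) ∣ P * Q) := by
  rw [← emultiplicity_lt_iff_not_dvd] at hP hQ ⊢
  rw [emultiplicity_mul (prime_C hp)]
  obtain ⟨x, hx⟩ := ENat.ne_top_iff_exists.1 (ne_top_of_lt hP)
  obtain ⟨y, hy⟩ := ENat.ne_top_iff_exists.1 (ne_top_of_lt hQ)
  rw [← hx] at hP ⊢
  rw [← hy] at hQ ⊢
  norm_cast at hP hQ ⊢
  omega

theorem not_pow_dvd_prod {p : ℕ} (hp : p.Prime) {ι : Type} (s : Finset ι)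
    (f : ι → MvPolynomial (Fin v) ℤ) (a : ℕ)
    (h : ∀ i ∈ s, ¬ ((C (p : ℤ)) ^ (a + 1) ∣ f i)) :
    ¬ ((C (p : ℤ)) ^ (s.card * a + 1) ∣ ∏ i ∈ s, f i) := by
  classical
  induction s using Finset.induction_on with
  | empty =>
    intro h0
    have h1 : C (p : ℤ) ∣ (1 : MvPolynomial (Fin v) ℤ) := by simpa using h0
    exact Prim.one p hp h1
  | insert i s hi ih =>
    rw [Finset.prod_insert hi, Finset.card_insert_of_notMem hi, Nat.succ_mul, add_comm _ a]
    exact not_pow_dvd_mul hp (h i (Finset.mem_insert_self _ _))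
      (ih fun j hj => h j (Finset.mem_insert_of_mem hj))

/-- A polynomial that is nonzero and of degree less than `p` modulo `p` takes a value prime to
`p` at some point with small coordinates. -/
theorem exists_point {p : ℕ} (hp : p.Prime) {P : MvPolynomial (Fin v) ℤ}
    (hP : ¬ (C (p : ℤ) ∣ P)) {d : ℕ} (hd : ∀ m : Fin v →₀ ℕ, d < m.degree → (p : ℤ) ∣ coeff m P)
    (hdp : d < p) :
    ∃ x : Fin v → ℕ, (∀ a, x a < p) ∧ ¬ ((p : ℤ) ∣ eval (fun a => (x a : ℤ)) P) := by
  have : Fact p.Prime := ⟨hp⟩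
  by_contra hcon
  push Not at hcon
  rw [C_dvd_iff_zmod] at hP
  apply hP
  apply eq_zero_of_eval_zero_at_prod_finset _ (fun _ => Finset.univ)
  · intro i
    refine lt_of_le_of_lt (degreeOf_le_totalDegree _ i) ?_
    rw [Finset.card_univ, ZMod.card]
    refine lt_of_le_of_lt (Finset.sup_le fun m hm => ?_) hdp
    rw [Finsupp.sum_fintype _ _ (by intro i; rfl), ← Finsupp.degree_eq_sum]
    by_contra hlt
    push Not at hlt
    rw [mem_support_iff, coeff_map] at hm
    exact hm ((ZMod.intCast_zmod_eq_zero_iff_dvd _ _).2 (hd m hlt))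
  · intro x _
    have h1 := hcon (fun a => (x a).val) (fun a => ZMod.val_lt _)
    have h2 : eval x (map (Int.castRingHom (ZMod p)) P)
        = ((eval (fun a => ((x a).val : ℤ)) P : ℤ) : ZMod p) := by
      rw [eval_map]
      have h3 := eval₂_comp_left (Int.castRingHom (ZMod p)) (RingHom.id ℤ)
        (fun a => ((x a).val : ℤ)) P
      change _ = (Int.castRingHom (ZMod p)) (eval₂ (RingHom.id ℤ) (fun a => ((x a).val : ℤ)) P)
      rw [h3, RingHom.comp_id]
      congr 1
      funext a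
      simp
    rw [h2]
    exact (ZMod.intCast_zmod_eq_zero_iff_dvd _ _).2 h1

end Pool.Agent.H531R2
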