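import Mathlib
import Pool.Agent.H531R2.Sig

/-!
# Wronskian determinants of families of hyperexponential polynomials
-/

set_option autoImplicit false

namespace Pool.Agent.H531R2

open MvPolynomial

variable {v : ℕ}

/-- Linear independence over the integers, spelled out. -/
def Ind {r : ℕ} (f : Fin r → MvPolynomial (Fin v) ℤ) : Prop :=
  ∀ c : Fin r → ℤ, ∑ b, C (c b) * f b = 0 → c = 0

/-- Some nonzero integer multiple of `P` is an integer combination of `f`. -/
def Spn {r : ℕ} (f : Fin r → MvPolynomial (Fin v) ℤ) (P : MvPolynomial (Fin v) ℤ) : Prop :=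
  ∃ (L : ℤ) (c : Fin r → ℤ), L ≠ 0 ∧ C L * P = ∑ b, C (c b) * f b

theorem Spn.zero {r : ℕ} (f : Fin r → MvPolynomial (Fin v) ℤ) : Spn f 0 :=
  ⟨1, 0, one_ne_zero, by simp⟩

theorem Spn.add {r : ℕ} {f : Fin r → MvPolynomial (Fin v) ℤ} {P Q : MvPolynomial (Fin v) ℤ}
    (hP : Spn f P) (hQ : Spn f Q) : Spn f (P + Q) := by
  obtain ⟨a, c, ha, hc⟩ := hP
  obtain ⟨b, d, hb, hd⟩ := hQ
  refine ⟨a * b, fun i => b * c i + a * d i, mul_ne_zero ha hb, ?_⟩
  have : ∀ i, C (b * c i + a * d i) * f i = C b * (C (c i) * f i) + C a * (C (d i) * f i) := by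
    intro i
    rw [C_add, C_mul, C_mul]; ring
  rw [Finset.sum_congr rfl fun i _ => this i, Finset.sum_add_distrib, ← Finset.mul_sum,
    ← Finset.mul_sum, ← hc, ← hd, C_mul]
  ring

theorem Spn.C_mul {r : ℕ} {f : Fin r → MvPolynomial (Fin v) ℤ} {P : MvPolynomial (Fin v) ℤ}
    (hP : Spn f P) (z : ℤ) : Spn f (C z * P) := by
  obtain ⟨a, c, ha, hc⟩ := hP
  refine ⟨a, fun i => z * c i, ha, ?_⟩
  have : ∀ i, C (z * c i) * f i = C z * (C (c i) * f i) := by
    intro i
    rw [MvPolynomial.C_mul]; ring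
  rw [Finset.sum_congr rfl fun i _ => this i, ← Finset.mul_sum, ← hc]
  ring

theorem Spn.sum {r : ℕ} {f : Fin r → MvPolynomial (Fin v) ℤ} {ι : Type} (s : Finset ι)
    (g : ι → MvPolynomial (Fin v) ℤ) (h : ∀ i ∈ s, Spn f (g i)) : Spn f (∑ i ∈ s, g i) := by
  classical
  induction s using Finset.induction_on with
  | empty => simpa using Spn.zero f
  | insert a s ha ih =>
    rw [Finset.sum_insert ha]
    exact (h a (Finset.mem_insert_self _ _)).add (ih fun i hi => h i (Finset.mem_insert_of_mem hi))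

theorem Ind.injective {n r : ℕ} {M : Fin n → MvPolynomial (Fin v) ℤ} {u : Fin r → Fin n}
    (h : Ind (fun b => M (u b))) : Function.Injective u := by
  intro a b hab
  by_contra hne
  have h1 := h (Pi.single a 1 - Pi.single b 1) (by
    simp only [Pi.sub_apply, C_sub, sub_mul, Finset.sum_sub_distrib]
    rw [Finset.sum_eq_single a, Finset.sum_eq_single b]
    · simp [hab]
    · intro c _ hc; simp [Pi.single_apply, hc]
    · simp
    · intro c _ hc; simp [Pi.single_apply, hc]
    · simp)
  have h2 := congrFun h1 a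
  simp [Pi.single_apply, hne] at h2

/-- A maximal independent subfamily. -/
theorem exists_basis {n : ℕ} (M : Fin n → MvPolynomial (Fin v) ℤ) :
    ∃ (r : ℕ) (u : Fin r → Fin n), r ≤ n ∧ Ind (fun b => M (u b)) ∧
      ∀ i, Spn (fun b => M (u b)) (M i) := by
  classical
  let P : ℕ → Prop := fun r => ∃ u : Fin r → Fin n, Ind (fun b => M (u b))
  have hP0 : P 0 := ⟨Fin.elim0, fun c _ => by funext b; exact b.elim0⟩
  have hle : ∀ r, P r → r ≤ n := by
    rintro r ⟨u, hu⟩
    simpa using Fintype.card_le_of_injective u hu.injective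
  have hspec : P (Nat.findGreatest P n) := Nat.findGreatest_spec (Nat.zero_le n) hP0
  set r := Nat.findGreatest P n with hr
  obtain ⟨u, hu⟩ := hspec
  refine ⟨r, u, hle r ⟨u, hu⟩, hu, fun i => ?_⟩
  have hnot : ¬ P (r + 1) := by
    intro h
    have h1 := hle _ h
    exact Nat.findGreatest_is_greatest (P := P) (n := n) (k := r + 1) (by omega) h1 h
  have h1 : ¬ Ind (fun b => M ((Fin.cons i u : Fin (r + 1) → Fin n) b)) := fun h => hnot ⟨_, h⟩
  simp only [Ind] at h1
  push Not at h1
  obtain ⟨c, hc, hc0⟩ := h1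
  rw [Fin.sum_univ_succ] at hc
  simp only [Fin.cons_zero, Fin.cons_succ] at hc
  refine ⟨c 0, fun b => - c b.succ, ?_, ?_⟩
  · intro h0
    rw [h0, C_0, zero_mul, zero_add] at hc
    have h2 := hu _ hc
    apply hc0
    funext b
    refine Fin.cases h0 (fun b => ?_) b
    exact congrFun h2 b
  · simp only [C_neg, neg_mul, Finset.sum_neg_distrib]
    exact eq_neg_of_add_eq_zero_left hc

/-- The derivation `q X d/dX`. -/
noncomputable def DK (q : Polynomial ℤ) : Derivation ℤ (Polynomial ℤ) (Polynomial ℤ) :=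
  (q * Polynomial.X) • (Polynomial.derivative' : Derivation ℤ (Polynomial ℤ) (Polynomial ℤ))

theorem DK_apply (q f : Polynomial ℤ) :
    DK q f = q * (Polynomial.X * Polynomial.derivative f) := by
  rw [← mul_assoc]; rfl

theorem Kro_iterate {w : Fin v → ℕ} (G : MvPolynomial (Fin v) ℤ) (P : MvPolynomial (Fin v) ℤ)
    (l : ℕ) :
    Kro w ((Dl w G)^[l] P) = (DK (Kro w G))^[l] (Kro w P) := by
  induction l with
  | zero => rfl
  | succ l ih =>
    rw [Function.iterate_succ_apply', Function.iterate_succ_apply', ← ih, Dl_apply, map_mul,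
      Kro_Eul, DK_apply]

/-- The Wronskian determinant of an independent family is nonzero. -/
theorem det_ne_zero {N r : ℕ} {G : MvPolynomial (Fin v) ℤ} (hG : G ≠ 0) (hGN : G.totalDegree < N)
    (M : Fin r → MvPolynomial (Fin v) ℤ) (hMN : ∀ b, (M b).totalDegree < N) (hM : Ind M) :
    (Matrix.of fun b l : Fin r => ((Dl (gw v N) G)^[(l : ℕ)]) (M b)).det ≠ 0 := by
  intro h
  have h1 := congrArg (Kro (gw v N)) h
  rw [map_zero, AlgHom.map_det] at h1
  have h2 : (Kro (gw v N)).mapMatrix
      (Matrix.of fun b l : Fin r => ((Dl (gw v N) G)^[(l : ℕ)]) (M b))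
      = Matrix.of fun b l : Fin r =>
        ((DK (Kro (gw v N) G))^[(l : ℕ)]) (Kro (gw v N) (M b)) := by
    ext b l
    rw [AlgHom.mapMatrix_apply, Matrix.map_apply, Matrix.of_apply, Kro_iterate]
    rfl
  rw [h2] at h1
  have hKG := Kro_ne_zero hG hGN
  obtain ⟨c, hc, hs⟩ := wronskian_dep _ (by
    intro b hb
    refine ⟨b.leadingCoeff, Polynomial.leadingCoeff_ne_zero.2 hb, fun a ha => ⟨a.leadingCoeff, ?_⟩⟩
    have e1 := DK_apply (Kro (gw v N) G) a
    have e2 := DK_apply (Kro (gw v N) G) b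
    have ha : a * (Kro (gw v N) G * (Polynomial.X * Polynomial.derivative b))
        = b * (Kro (gw v N) G * (Polynomial.X * Polynomial.derivative a)) := by
      rw [← e1, ← e2]; exact ha
    have h3 : a * (Polynomial.X * Polynomial.derivative b)
        = b * (Polynomial.X * Polynomial.derivative a) := by
      apply mul_left_cancel₀ hKG
      linear_combination ha
    have h4 := prop_of_theta hb h3
    simpa using h4) r (fun b => Kro (gw v N) (M b)) h1
  apply hc
  apply hM
  by_contra hne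
  have hdeg : (∑ b, C (c b) * M b).totalDegree < N := by
    have hN : 0 < N := lt_of_le_of_lt (Nat.zero_le _) hGN
    have := totalDegree_sum_le Finset.univ (fun b => C (c b) * M b) (N - 1) (fun b _ => by
      have := (totalDegree_C_mul_le (c b) (M b))
      have := hMN b
      omega)
    omega
  apply Kro_ne_zero hne hdeg
  rw [map_sum, ← hs]
  refine Finset.sum_congr rfl fun b _ => ?_
  rw [map_mul, Kro, algHom_C]
  rfl

end Pool.Agent.H531R2
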