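import Mathlib
import Pool.Agent.H531R2.Indep

/-!
# The main estimate for one sum of power products
-/

set_option autoImplicit false

namespace Pool.Agent.H531R2

open MvPolynomial

variable {v : ℕ}

/-- The determinant obtained from the Wronskian matrix of `M` by replacing the row `b` by the
derivatives of `P`. -/
noncomputable def Phi {r : ℕ} (w : Fin v → ℕ) (G : MvPolynomial (Fin v) ℤ)
    (M : Fin r → MvPolynomial (Fin v) ℤ) (b : Fin r) (P : MvPolynomial (Fin v) ℤ) :
    MvPolynomial (Fin v) ℤ :=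
  ((Matrix.of fun b' l : Fin r => ((Dl w G)^[(l : ℕ)]) (M b')).updateRow b
    (fun l => ((Dl w G)^[(l : ℕ)]) P)).det

theorem iterate_add' (w : Fin v → ℕ) (G P Q : MvPolynomial (Fin v) ℤ) (l : ℕ) :
    ((Dl w G)^[l]) (P + Q) = ((Dl w G)^[l]) P + ((Dl w G)^[l]) Q := by
  induction l with
  | zero => rfl
  | succ l ih => rw [Function.iterate_succ_apply', ih, map_add, Function.iterate_succ_apply',
      Function.iterate_succ_apply']

theorem iterate_C_mul' (w : Fin v → ℕ) (G P : MvPolynomial (Fin v) ℤ) (z : ℤ) (l : ℕ) :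
    ((Dl w G)^[l]) (C z * P) = C z * ((Dl w G)^[l]) P := by
  induction l with
  | zero => rfl
  | succ l ih =>
    rw [Function.iterate_succ_apply', ih, Function.iterate_succ_apply', Derivation.leibniz,
      derivation_C, smul_zero, add_zero, smul_eq_mul]

theorem Phi_add {r : ℕ} (w : Fin v → ℕ) (G : MvPolynomial (Fin v) ℤ)
    (M : Fin r → MvPolynomial (Fin v) ℤ) (b : Fin r) (P Q : MvPolynomial (Fin v) ℤ) :
    Phi w G M b (P + Q) = Phi w G M b P + Phi w G M b Q := by
  rw [Phi, Phi, Phi, ← Matrix.det_updateRow_add]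
  congr 2
  funext l
  exact iterate_add' w G P Q l

theorem Phi_C_mul {r : ℕ} (w : Fin v → ℕ) (G : MvPolynomial (Fin v) ℤ)
    (M : Fin r → MvPolynomial (Fin v) ℤ) (b : Fin r) (P : MvPolynomial (Fin v) ℤ) (z : ℤ) :
    Phi w G M b (C z * P) = C z * Phi w G M b P := by
  rw [Phi, Phi, ← Matrix.det_updateRow_smul]
  congr 2
  funext l
  exact iterate_C_mul' w G P z l

theorem Phi_zero {r : ℕ} (w : Fin v → ℕ) (G : MvPolynomial (Fin v) ℤ)
    (M : Fin r → MvPolynomial (Fin v) ℤ) (b : Fin r) : Phi w G M b 0 = 0 := by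
  have := Phi_C_mul w G M b 0 0
  simpa using this

theorem Phi_sum {r : ℕ} (w : Fin v → ℕ) (G : MvPolynomial (Fin v) ℤ)
    (M : Fin r → MvPolynomial (Fin v) ℤ) (b : Fin r) {ι : Type} (s : Finset ι)
    (P : ι → MvPolynomial (Fin v) ℤ) :
    Phi w G M b (∑ i ∈ s, P i) = ∑ i ∈ s, Phi w G M b (P i) := by
  classical
  induction s using Finset.induction_on with
  | empty => simp [Phi_zero]
  | insert a s ha ih => rw [Finset.sum_insert ha, Finset.sum_insert ha, Phi_add, ih]

theorem Phi_self {r : ℕ} (w : Fin v → ℕ) (G : MvPolynomial (Fin v) ℤ)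
    (M : Fin r → MvPolynomial (Fin v) ℤ) (b : Fin r) :
    Phi w G M b (M b) = (Matrix.of fun b' l : Fin r => ((Dl w G)^[(l : ℕ)]) (M b')).det := by
  rw [Phi]
  congr 1
  exact Matrix.updateRow_eq_self _ _

theorem Phi_ne {r : ℕ} (w : Fin v → ℕ) (G : MvPolynomial (Fin v) ℤ)
    (M : Fin r → MvPolynomial (Fin v) ℤ) (b b' : Fin r) (h : b' ≠ b) :
    Phi w G M b (M b') = 0 := by
  rw [Phi]
  apply Matrix.det_zero_of_row_eq h
  funext l
  rw [Matrix.updateRow_self, Matrix.updateRow_ne h]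
  rfl

/-- `Φ` of an element with a relation. -/
theorem Phi_rel {r : ℕ} (w : Fin v → ℕ) (G : MvPolynomial (Fin v) ℤ)
    (M : Fin r → MvPolynomial (Fin v) ℤ) (b : Fin r) {P : MvPolynomial (Fin v) ℤ} {L : ℤ}
    {c : Fin r → ℤ} (h : C L * P = ∑ b', C (c b') * M b') :
    C L * Phi w G M b P = C (c b) * Phi w G M b (M b) := by
  rw [← Phi_C_mul, h, Phi_sum, Finset.sum_eq_single b]
  · rw [Phi_C_mul]
  · intro b' _ hb'
    rw [Phi_C_mul, Phi_ne _ _ _ _ _ hb', mul_zero]
  · simp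

/-- The small determinant. -/
noncomputable def Sml {r : ℕ} (w : Fin v → ℕ) (G : MvPolynomial (Fin v) ℤ)
    (L : Fin r → MvPolynomial (Fin v) ℤ) (b : Fin r) (Q : MvPolynomial (Fin v) ℤ) :
    MvPolynomial (Fin v) ℤ :=
  ((Matrix.of fun b' l : Fin r => Rs w G (L b') (l : ℕ)).updateRow b
    (fun l => Rs w G Q (l : ℕ))).det

theorem Phi_eq {r : ℕ} (w : Fin v → ℕ) (G : MvPolynomial (Fin v) ℤ)
    (M L : Fin r → MvPolynomial (Fin v) ℤ) (hML : ∀ b, Dl w G (M b) = L b * M b) (b : Fin r)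
    {P Q : MvPolynomial (Fin v) ℤ} (hP : Dl w G P = Q * P) :
    Phi w G M b P = P * (∏ b' ∈ Finset.univ.erase b, M b') * Sml w G L b Q := by
  classical
  have h1 : (Matrix.of fun b' l : Fin r => ((Dl w G)^[(l : ℕ)]) (M b')).updateRow b
      (fun l => ((Dl w G)^[(l : ℕ)]) P)
      = Matrix.of fun b' l => (Function.update M b P b') *
        ((Matrix.of fun b' l : Fin r => Rs w G (L b') (l : ℕ)).updateRow b
          (fun l => Rs w G Q (l : ℕ))) b' l := by
    ext b' l
    by_cases h : b' = b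
    · subst h
      rw [Matrix.updateRow_self, Matrix.of_apply, Function.update_self, Matrix.updateRow_self,
        iterate_Dl hP]
    · rw [Matrix.updateRow_ne h, Matrix.of_apply, Matrix.of_apply, Function.update_of_ne h,
        Matrix.updateRow_ne h, Matrix.of_apply, iterate_Dl (hML b')]
  rw [Phi, h1, Matrix.det_mul_column, Finset.prod_update_of_mem (Finset.mem_univ b), Sml,
    Finset.sdiff_singleton_eq_erase]

theorem natDegree_C_mul {c : ℤ} (hc : c ≠ 0) (P : MvPolynomial (Fin v) ℤ) :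
    P.totalDegree ≤ (C c * P).totalDegree := by
  apply totalDegree_le_of_support_subset
  intro m hm
  rw [mem_support_iff] at hm ⊢
  rw [coeff_C_mul]
  exact mul_ne_zero hc hm

/-- Divisibility of `Φ(F)`. -/
theorem pow_dvd_Sig_Phi {p : ℕ} (hp : p.Prime) {r : ℕ} (w : Fin v → ℕ)
    (G : MvPolynomial (Fin v) ℤ) (M : Fin r → MvPolynomial (Fin v) ℤ) (b : Fin r)
    (s : Fin v → ℤ) {P : MvPolynomial (Fin v) ℤ} {k : ℕ}
    (h : (C (p : ℤ)) ^ (k + r) ∣ Sig p s P) : (C (p : ℤ)) ^ k ∣ Sig p s (Phi w G M b P) := by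
  classical
  have h1 : ∀ l : Fin r, ∃ q, Sig p s (((Dl w G)^[(l : ℕ)]) P) = (C (p : ℤ)) ^ k * q := by
    intro l
    apply pow_dvd_Sig_iterate hp
    refine (pow_dvd_pow _ ?_).trans h
    have := l.2
    omega
  choose q hq using h1
  rw [Phi, AlgHom.map_det, AlgHom.mapMatrix_apply, Matrix.map_updateRow]
  have h2 : (Sig p s : MvPolynomial (Fin v) ℤ → MvPolynomial (Fin v) ℤ) ∘
      (fun l : Fin r => ((Dl w G)^[(l : ℕ)]) P) = (C (p : ℤ) : MvPolynomial (Fin v) ℤ) ^ k • q := by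
    funext l
    rw [Function.comp_apply, hq, Pi.smul_apply, smul_eq_mul]
  rw [h2, Matrix.det_updateRow_smul]
  exact dvd_mul_right _ _

end Pool.Agent.H531R2
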