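import Mathlib
import Pool.Agent.H531R2.Core

/-!
# The main estimate for one rational combination of power products
-/

set_option autoImplicit false

namespace Pool.Agent.H531R2

open MvPolynomial

/-- An auxiliary bound. -/
def Aex (v n : ℕ) : ℕ := 4 * n + n ^ 2 + 1 + (3 * n + 1) * v
/-- An auxiliary bound. -/
def BGam (v n : ℕ) : ℕ := n ^ 2 + Aex v n * n ^ 2
/-- An auxiliary bound. -/
def E1 (v n : ℕ) : ℕ := n + n ^ 4 + BGam v n

variable {v n h : ℕ}

theorem gw_le (v N : ℕ) (hN : 1 ≤ N) (a : Fin v) : gw v N a ≤ N ^ v :=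
  Nat.pow_le_pow_right hN a.2.le

theorem T_bound (v n : ℕ) :
    (2 ^ n) ^ n * ((2 ^ (3 * n + 1)) ^ v * (n * n ^ 2))
      + n * (2 ^ n * ((2 ^ n) ^ n * ((2 ^ (3 * n + 1)) ^ v * n * 2 ^ n))) ≤ 2 ^ Aex v n := by
  have hn : n ≤ 2 ^ n := Nat.lt_two_pow_self.le
  have h1 : n * n ^ 2 ≤ 2 ^ (4 * n) := by
    calc n * n ^ 2 = n * n * n * 1 := by ring
      _ ≤ 2 ^ n * 2 ^ n * 2 ^ n * 2 ^ n := by
        gcongr
        exact Nat.one_le_two_pow
      _ = 2 ^ (4 * n) := by rw [← pow_add, ← pow_add, ← pow_add]; congr 1; ring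
  have h2 : (2 ^ n) ^ n * ((2 ^ (3 * n + 1)) ^ v * (n * n ^ 2))
      ≤ 2 ^ (4 * n + n ^ 2 + (3 * n + 1) * v) := by
    calc (2 ^ n) ^ n * ((2 ^ (3 * n + 1)) ^ v * (n * n ^ 2))
        ≤ (2 ^ n) ^ n * ((2 ^ (3 * n + 1)) ^ v * 2 ^ (4 * n)) := by gcongr
      _ = 2 ^ (4 * n + n ^ 2 + (3 * n + 1) * v) := by
        rw [← pow_mul, ← pow_mul, ← pow_add, ← pow_add]; congr 1; ring
  have h3 : n * (2 ^ n * ((2 ^ n) ^ n * ((2 ^ (3 * n + 1)) ^ v * n * 2 ^ n)))
      ≤ 2 ^ (4 * n + n ^ 2 + (3 * n + 1) * v) := by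
    calc n * (2 ^ n * ((2 ^ n) ^ n * ((2 ^ (3 * n + 1)) ^ v * n * 2 ^ n)))
        ≤ 2 ^ n * (2 ^ n * ((2 ^ n) ^ n * ((2 ^ (3 * n + 1)) ^ v * 2 ^ n * 2 ^ n))) := by gcongr
      _ = 2 ^ (4 * n + n ^ 2 + (3 * n + 1) * v) := by
        rw [← pow_mul, ← pow_mul, ← pow_add, ← pow_add, ← pow_add, ← pow_add, ← pow_add]
        congr 1; ring
  have h4 : 2 ^ Aex v n = 2 ^ (4 * n + n ^ 2 + (3 * n + 1) * v)
      + 2 ^ (4 * n + n ^ 2 + (3 * n + 1) * v) := by
    rw [← two_mul, ← pow_succ']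
    congr 1
    rw [Aex]; ring
  rw [h4]
  exact Nat.add_le_add h2 h3

/-- Factoring out the exact power of a prime. -/
theorem exists_eq_pow_mul {p : ℕ} (hp : p.Prime) {z : ℤ} (hz : z ≠ 0) :
    ∃ (k : ℕ) (y : ℤ), z = (p : ℤ) ^ k * y ∧ ¬ ((p : ℤ) ∣ y) := by
  have hfin : FiniteMultiplicity (p : ℤ) z := by
    rw [Int.finiteMultiplicity_iff]
    refine ⟨?_, hz⟩
    rw [Int.natAbs_natCast]
    exact hp.one_lt.ne'
  obtain ⟨y, hy, hpy⟩ := hfin.exists_eq_pow_mul_and_not_dvd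
  exact ⟨_, y, hy, hpy⟩

theorem C_dvd_C {p z : ℤ} (h : (C p : MvPolynomial (Fin v) ℤ) ∣ C z) : p ∣ z := by
  rw [C_dvd_iff_dvd_coeff] at h
  have h0 := h 0
  rwa [coeff_zero_C] at h0

/-- The main estimate for a rational combination of power products, with arbitrary
coefficients. -/
theorem core {p : ℕ} (hp : p.Prime) (hnh : n ≤ h) (s : Fin v → ℤ)
    (g : Fin n → MvPolynomial (Fin v) ℤ) (e : Fin n → Fin n → ℕ) (c : Fin n → ℤ)
    (hg : ∀ j, Prim (g j) ∧ (g j).totalDegree ≤ h ∧ nrm (g j) ≤ 2 ^ h)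
    (he : ∀ i j, e i j ≤ 2 ^ h) (F : MvPolynomial (Fin v) ℤ) (hFp : ¬ (C (p : ℤ) ∣ F))
    (κ : ℤ) (hκ : κ ≠ 0) (hF : C κ * F = ∑ i, C (c i) * ∏ j, g j ^ e i j)
    (hs : ∀ j, ¬ ((p : ℤ) ∣ eval s (g j))) :
    ¬ ((C (p : ℤ)) ^ (E1 v h + 1) ∣ Sig p s F) := by
  classical
  intro hdvd
  have hF0 : F ≠ 0 := by
    rintro rfl
    exact hFp (dvd_zero _)
  set M : Fin n → MvPolynomial (Fin v) ℤ := fun i => ∏ j, g j ^ e i j with hMdef
  set G := ∏ j, g j with hGdef
  set N := 2 ^ (3 * h + 1) with hN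
  have hN1 : 1 ≤ N := Nat.one_le_two_pow
  set w := gw v N with hw
  set L : Fin n → MvPolynomial (Fin v) ℤ := fun i => Ld w g (e i) with hLdef
  have hML : ∀ i, Dl w G (M i) = L i * M i := fun i => Dl_powerProd w g (e i)
  have hM : ∀ i, Prim (M i) := fun i => Prim.prod _ _ fun j _ => (hg j).1.pow _
  have hh : h < 2 ^ h := Nat.lt_two_pow_self
  have hMd : ∀ i, (M i).totalDegree < N := by
    intro i
    have h1 := totalDegree_prod_le Finset.univ (fun j => g j ^ e i j) (2 ^ h * h) (fun j _ => by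
      refine (totalDegree_pow _ _).trans ?_
      exact Nat.mul_le_mul (he i j) (hg j).2.1)
    rw [Finset.card_univ, Fintype.card_fin] at h1
    refine lt_of_le_of_lt h1 ?_
    rw [hN]
    calc n * (2 ^ h * h) ≤ 2 ^ h * (2 ^ h * 2 ^ h) := by
          have := hnh.trans hh.le
          gcongr
      _ = 2 ^ (3 * h) := by rw [← pow_add, ← pow_add]; congr 1; ring
      _ < 2 ^ (3 * h + 1) := Nat.pow_lt_pow_right (by norm_num) (by omega)
  have hG : Prim G := Prim.prod _ _ fun j _ => (hg j).1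
  have hGd : G.totalDegree ≤ h ^ 2 := by
    have h1 := totalDegree_prod_le Finset.univ g h (fun j _ => (hg j).2.1)
    rw [Finset.card_univ, Fintype.card_fin] at h1
    rw [sq]; exact h1.trans (Nat.mul_le_mul_right _ hnh)
  have hGN : G.totalDegree < N := by
    refine lt_of_le_of_lt hGd ?_
    rw [hN]
    calc h ^ 2 = h * h := sq h
      _ ≤ 2 ^ h * 2 ^ h := by gcongr
      _ = 2 ^ (2 * h) := by rw [← pow_add]; congr 1; ring
      _ < 2 ^ (3 * h + 1) := Nat.pow_lt_pow_right (by norm_num) (by omega)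
  have hLd : ∀ i, (L i).totalDegree ≤ h ^ 2 := by
    intro i
    have h1 := totalDegree_Ld w g (e i) h (fun j => (hg j).2.1)
    rw [sq]; exact h1.trans (Nat.mul_le_mul_right _ hnh)
  obtain ⟨r, u, hr, hind, hspan⟩ := exists_basis M
  have hrh : r ≤ h := hr.trans hnh
  -- the relation for F
  have hFs : Spn (fun b => M (u b)) (∑ i, C (c i) * M i) :=
    Spn.sum _ _ fun i _ => (hspan i).C_mul _
  obtain ⟨La, γ, hLa, hγ⟩ := hFs
  set l0 := La * κ with hl0
  have hl00 : l0 ≠ 0 := mul_ne_zero hLa hκ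
  have hrel : C l0 * F = ∑ b, C (γ b) * M (u b) := by
    rw [← hγ, hl0, C_mul, mul_assoc, hF]
  have hCl0 : (C l0 : MvPolynomial (Fin v) ℤ) ≠ 0 := by rw [Ne, C_eq_zero]; exact hl00
  have hb1 : ∃ b, γ b ≠ 0 := by
    by_contra hcon
    push Not at hcon
    have : C l0 * F = 0 := by
      rw [hrel]
      exact Finset.sum_eq_zero fun b _ => by rw [hcon b, C_0, zero_mul]
    rcases mul_eq_zero.1 this with h | h
    · exact hCl0 h
    · exact hF0 h
  obtain ⟨b1, hb1⟩ := hb1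
  have hpC : Prime (C (p : ℤ) : MvPolynomial (Fin v) ℤ) := prime_C hp
  -- the minimal order of the γ's
  let Q : ℕ → Prop := fun k => ∀ b, (p : ℤ) ^ k ∣ γ b
  have hQ0 : Q 0 := fun b => by simp
  have hspec : Q (Nat.findGreatest Q (γ b1).natAbs) := Nat.findGreatest_spec (Nat.zero_le _) hQ0
  set β := Nat.findGreatest Q (γ b1).natAbs with hβ
  have hnQ : ¬ Q (β + 1) := by
    intro h2
    by_cases hk1 : β + 1 ≤ (γ b1).natAbs
    · exact Nat.findGreatest_is_greatest (P := Q) (n := (γ b1).natAbs) (k := β + 1) (by omega)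
        hk1 h2
    · have h3 := Int.natAbs_dvd_natAbs.2 (h2 b1)
      have h4 := Nat.le_of_dvd (Int.natAbs_pos.2 hb1) h3
      rw [Int.natAbs_pow, Int.natAbs_natCast] at h4
      have h5 : β + 1 < p ^ (β + 1) := Nat.lt_pow_self hp.one_lt
      omega
  simp only [Q] at hnQ
  push Not at hnQ
  obtain ⟨b, hb⟩ := hnQ
  obtain ⟨l', hl'⟩ := hspec b
  have hl'p : ¬ ((p : ℤ) ∣ l') := by
    rintro ⟨z, rfl⟩
    exact hb ⟨z, by rw [hl']; ring⟩
  obtain ⟨μ, l0', hl0', hl0p⟩ := exists_eq_pow_mul hp hl00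
  have hβμ : β ≤ μ := by
    by_contra hcon
    push Not at hcon
    have h1 : (C (p : ℤ)) ^ β ∣ C l0 * F := by
      rw [hrel]
      refine Finset.dvd_sum fun b' _ => Dvd.dvd.mul_right ?_ _
      rw [← C_pow]
      exact map_dvd C (hspec b')
    have h2 : (C (p : ℤ)) ^ (μ + 1) ∣ C l0 * F := (pow_dvd_pow _ hcon).trans h1
    rw [hl0', C_mul, C_pow, pow_succ, mul_assoc] at h2
    have h3 : C (p : ℤ) ∣ C l0' * F :=
      (mul_dvd_mul_iff_left (pow_ne_zero _ hpC.ne_zero)).1 h2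
    rcases hpC.dvd_or_dvd h3 with h4 | h4
    · exact hl0p (C_dvd_C h4)
    · exact hFp h4
  have hdet := det_ne_zero hG.ne_zero hGN (fun b => M (u b)) (fun b => hMd _) hind
  -- bounds
  have hWle : ∀ a, w a ≤ (2 ^ (3 * h + 1)) ^ v := fun a => gw_le v N hN1 a
  have h2h : 1 ≤ 2 ^ h := Nat.one_le_two_pow
  have hGn : nrm G ≤ (2 ^ h) ^ h := by
    have h1 := nrm_prod_le Finset.univ g (2 ^ h) (fun j _ => (hg j).2.2)
    rw [Finset.card_univ, Fintype.card_fin] at h1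
    exact h1.trans (Nat.pow_le_pow_right h2h hnh)
  have hLn : ∀ i, nrm (L i) ≤ h * (2 ^ h * ((2 ^ h) ^ h * ((2 ^ (3 * h + 1)) ^ v * h * 2 ^ h))) := by
    intro i
    refine (nrm_Ld w _ hWle g (e i) h (2 ^ h) (2 ^ h) (fun j => (hg j).2.1)
      (fun j => (hg j).2.2) h2h (he i)).trans ?_
    have h1 : (2 ^ h) ^ n ≤ (2 ^ h) ^ h := Nat.pow_le_pow_right h2h hnh
    gcongr
  have hRn : ∀ i (l : ℕ), l ≤ h → nrm (Rs w G (L i) l) ≤ (2 ^ Aex v h) ^ h := by
    intro i l hl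
    refine (nrm_Rs w _ hWle hGd (hLd i) hGn (hLn i) (T_bound v h) l hl).trans ?_
    exact Nat.pow_le_pow_right Nat.one_le_two_pow hl
  have hRd : ∀ i (l : ℕ), l ≤ h → (Rs w G (L i) l).totalDegree ≤ h ^ 3 := by
    intro i l hl
    refine (totalDegree_Rs w hGd (hLd i) l).trans ?_
    calc l * h ^ 2 ≤ h * h ^ 2 := Nat.mul_le_mul_right _ hl
      _ = h ^ 3 := by ring
  set Du := Sml w G (fun b' => L (u b')) b (L (u b)) with hDu
  have hSn : nrm Du ≤ 2 ^ BGam v h := by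
    refine (nrm_det_le _ ((2 ^ Aex v h) ^ h) ?_).trans ?_
    · intro i' j'
      by_cases hi : i' = b
      · subst hi
        rw [Matrix.updateRow_self]
        exact hRn _ _ (by have := j'.2; omega)
      · rw [Matrix.updateRow_ne hi, Matrix.of_apply]
        exact hRn _ _ (by have := j'.2; omega)
    · have h1 : r.factorial ≤ 2 ^ (h ^ 2) := by
        calc r.factorial ≤ h.factorial := Nat.factorial_le hrh
          _ ≤ h ^ h := Nat.factorial_le_pow h
          _ ≤ (2 ^ h) ^ h := Nat.pow_le_pow_left hh.le h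
          _ = 2 ^ (h ^ 2) := by rw [← pow_mul, sq]
      have h2 : ((2 ^ Aex v h) ^ h) ^ r ≤ 2 ^ (Aex v h * h ^ 2) := by
        rw [← pow_mul, ← pow_mul]
        apply Nat.pow_le_pow_right (by norm_num)
        calc Aex v h * (h * r) ≤ Aex v h * (h * h) :=
              Nat.mul_le_mul_left _ (Nat.mul_le_mul_left _ hrh)
          _ = Aex v h * h ^ 2 := by ring
      rw [BGam, pow_add]
      exact Nat.mul_le_mul h1 h2
  have hSd : Du.totalDegree ≤ h ^ 4 := by
    refine (totalDegree_det_le _ (h ^ 3) ?_).trans ?_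
    · intro i' j'
      by_cases hi : i' = b
      · subst hi
        rw [Matrix.updateRow_self]
        exact hRd _ _ (by have := j'.2; omega)
      · rw [Matrix.updateRow_ne hi, Matrix.of_apply]
        exact hRd _ _ (by have := j'.2; omega)
    · calc r * h ^ 3 ≤ h * h ^ 3 := Nat.mul_le_mul_right _ hrh
        _ = h ^ 4 := by ring
  -- the determinant
  have hPu : Phi w G (fun b' => M (u b')) b (M (u b))
      = M (u b) * (∏ b' ∈ Finset.univ.erase b, M (u b')) * Du :=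
    Phi_eq w G (fun b' => M (u b')) (fun b' => L (u b')) (fun b' => hML _) b (hML _)
  have hPu0 : Phi w G (fun b' => M (u b')) b (M (u b)) ≠ 0 := by
    have := Phi_self w G (fun b' => M (u b')) b
    rw [this]; exact hdet
  have hDu0 : Du ≠ 0 := by
    intro h0
    rw [hPu, h0, mul_zero] at hPu0
    exact hPu0 rfl
  obtain ⟨k, D', hk, hkD, hD'⟩ := exists_prim_part hDu0
  have hkle : k.natAbs ≤ 2 ^ BGam v h :=
    (natAbs_le_nrm hDu0 ⟨D', hkD⟩).trans hSn
  have hD'd : D'.totalDegree ≤ h ^ 4 := by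
    refine (natDegree_C_mul hk D').trans ?_
    rw [← hkD]; exact hSd
  have hPhi : C l0 * Phi w G (fun b' => M (u b')) b F
      = C (γ b) * ((∏ b', M (u b')) * (C k * D')) := by
    have h1 := Phi_rel w G (fun b' => M (u b')) b hrel
    rw [h1]
    change C (γ b) * Phi w G (fun b' => M (u b')) b (M (u b)) = _
    rw [hPu, hkD, ← Finset.mul_prod_erase Finset.univ (fun b' => M (u b'))
      (Finset.mem_univ b)]
  -- the order of the determinant
  have hdvd2 : (C (p : ℤ)) ^ (BGam v h + (0 + h ^ 4) + 1) ∣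
      Sig p s (Phi w G (fun b => M (u b)) b F) := by
    apply pow_dvd_Sig_Phi hp
    refine (pow_dvd_pow _ ?_).trans hdvd
    rw [E1]
    omega
  have hSC : ∀ z : ℤ, Sig (p : ℤ) s (C z) = C z := by
    intro z
    rw [Sig, algHom_C, algebraMap_eq]
  have h1 : (C (p : ℤ)) ^ (β + (BGam v h + (0 + h ^ 4) + 1)) ∣
      (C (p : ℤ)) ^ β * (C (l' * k) * (Sig p s (∏ b', M (u b')) * Sig p s D')) := by
    have h2 : Sig p s (C l0 * Phi w G (fun b' => M (u b')) b F)
        = (C (p : ℤ)) ^ β * (C (l' * k) * (Sig p s (∏ b', M (u b')) * Sig p s D')) := by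
      have h3 : Sig (p : ℤ) s (C k * D') = C k * Sig p s D' := by rw [map_mul, hSC]
      rw [hPhi, map_mul, hSC, map_mul, h3, hl', C_mul, C_mul, C_pow]
      ring
    rw [← h2, map_mul, hSC, hl0', C_mul, C_pow, pow_add]
    refine mul_dvd_mul ?_ hdvd2
    exact (pow_dvd_pow _ hβμ).mul_right _
  rw [pow_add] at h1
  have h2 := (mul_dvd_mul_iff_left (pow_ne_zero β hpC.ne_zero)).1 h1
  refine not_pow_dvd_mul hp (a := BGam v h) (b := 0 + h ^ 4) ?_ ?_ h2
  · intro h3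
    rw [← C_pow] at h3
    have h4 := C_dvd_C h3
    have hcop : IsCoprime ((p : ℤ) ^ (BGam v h + 1)) l' := by
      apply IsCoprime.pow_left
      exact ((Nat.prime_iff_prime_int.1 hp).coprime_iff_not_dvd).2 hl'p
    have h5 : (p : ℤ) ^ (BGam v h + 1) ∣ k := hcop.dvd_of_dvd_mul_left h4
    have h6 := Int.natAbs_dvd_natAbs.2 h5
    have h7 := Nat.le_of_dvd (Int.natAbs_pos.2 hk) h6
    rw [Int.natAbs_pow, Int.natAbs_natCast] at h7
    have h8 : 2 ^ (BGam v h + 1) ≤ p ^ (BGam v h + 1) := Nat.pow_le_pow_left hp.two_le _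
    have h9 : 2 ^ BGam v h < 2 ^ (BGam v h + 1) := Nat.pow_lt_pow_right (by norm_num) (by omega)
    omega
  · apply not_pow_dvd_mul hp
    · rw [zero_add, pow_one]
      apply not_dvd_Sig_of_eval
      have hpi : Prime (p : ℤ) := Nat.prime_iff_prime_int.1 hp
      rw [map_prod]
      intro h
      obtain ⟨b', _, hb'⟩ := (hpi.dvd_finsetProd_iff _).1 h
      rw [hMdef, map_prod] at hb'
      obtain ⟨j, _, hj⟩ := (hpi.dvd_finsetProd_iff _).1 hb'
      rw [map_pow] at hj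
      exact hs j (hpi.dvd_of_dvd_pow hj)
    · exact not_pow_dvd_Sig hp s (hD' p hp) hD'd

/-- Picking the second half of the point: if `p ^ (E + 1)` does not divide `f (s + p x)` then some
small point `b` has a value `f (s + p b)` not divisible by `p ^ (E + 1)`. -/
theorem exists_second {p : ℕ} (hp : p.Prime) {E : ℕ} (hEp : E < p) (s : Fin v → ℤ)
    (f : MvPolynomial (Fin v) ℤ) (h : ¬ ((C (p : ℤ)) ^ (E + 1) ∣ Sig p s f)) :
    ∃ b : Fin v → ℕ, (∀ a, b a < p) ∧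
      ¬ ((p : ℤ) ^ (E + 1) ∣ eval (fun a => s a + p * (b a : ℤ)) f) := by
  classical
  let Q : ℕ → Prop := fun k => (C (p : ℤ)) ^ k ∣ Sig p s f
  have hQ0 : Q 0 := by simp [Q]
  have hspec : Q (Nat.findGreatest Q E) := Nat.findGreatest_spec (Nat.zero_le _) hQ0
  have hle : Nat.findGreatest Q E ≤ E := Nat.findGreatest_le _
  set k := Nat.findGreatest Q E with hk
  have hnQ : ¬ Q (k + 1) := by
    intro h2
    by_cases hk1 : k + 1 ≤ E
    · exact Nat.findGreatest_is_greatest (P := Q) (n := E) (k := k + 1) (by omega) hk1 h2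
    · have : k = E := by omega
      rw [this] at h2
      exact h h2
  obtain ⟨H, hH⟩ := hspec
  have hHp : ¬ (C (p : ℤ) ∣ H) := by
    rintro ⟨H', rfl⟩
    apply hnQ
    exact ⟨H', by rw [hH]; ring⟩
  have hp0 : (p : ℤ) ≠ 0 := by exact_mod_cast hp.ne_zero
  obtain ⟨b, hb, hbH⟩ := exists_point hp hHp (d := k) (fun m hm => by
    have h1 : coeff m (Sig p s f) = (p : ℤ) ^ m.degree * coeff m (Tau s f) := by
      rw [Sig_eq, coeff_Rho]
    rw [hH, ← C_pow, coeff_C_mul] at h1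
    have h2 : (p : ℤ) ^ (k + 1) ∣ (p : ℤ) ^ k * coeff m H := by
      rw [h1]
      exact (pow_dvd_pow _ (by omega)).mul_right _
    rw [pow_succ] at h2
    exact (mul_dvd_mul_iff_left (pow_ne_zero _ hp0)).1 h2) (lt_of_le_of_lt hle hEp)
  refine ⟨b, hb, ?_⟩
  have h1 : eval (fun a => s a + p * (b a : ℤ)) f
      = (p : ℤ) ^ k * eval (fun a => (b a : ℤ)) H := by
    have h2 := congrArg (eval (fun a => (b a : ℤ))) hH
    rw [map_mul, map_pow, eval_C] at h2
    rw [← h2]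
    have h3 : ((eval (fun a => (b a : ℤ)) : MvPolynomial (Fin v) ℤ →+* ℤ).comp
        (Sig (p : ℤ) s).toRingHom) = eval (fun a => s a + p * (b a : ℤ)) := by
      apply MvPolynomial.ringHom_ext
      · intro z
        simp [Sig]
      · intro a
        simp [Sig]
    rw [← h3]
    rfl
  rw [h1]
  intro h4
  have h5 : (p : ℤ) ^ (k + 1) ∣ (p : ℤ) ^ k * eval (fun a => (b a : ℤ)) H :=
    (pow_dvd_pow _ (by omega)).trans h4
  rw [pow_succ] at h5
  exact hbH ((mul_dvd_mul_iff_left (pow_ne_zero _ hp0)).1 h5)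

end Pool.Agent.H531R2
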