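import Mathlib
import Pool.Agent.H531R2.Main

/-!
# Substitutions: bounds, minors, and injectivity modulo a prime
-/

set_option autoImplicit false

namespace Pool.Agent.H531R2

open MvPolynomial

variable {v w : ℕ}

theorem nrm_pow_le (P : MvPolynomial (Fin w) ℤ) {B : ℕ} (h : nrm P ≤ B) (k : ℕ) :
    nrm (P ^ k) ≤ B ^ k := by
  have := nrm_prod_le (Finset.range k) (fun _ => P) B (fun _ _ => h)
  simpa using this

theorem aeval_eq_sum (Y : Fin v → MvPolynomial (Fin w) ℤ) (g : MvPolynomial (Fin v) ℤ) :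
    aeval Y g = ∑ m ∈ g.support, C (coeff m g) * ∏ b, Y b ^ m b := by
  conv_lhs => rw [g.as_sum, map_sum]
  refine Finset.sum_congr rfl fun m _ => ?_
  rw [aeval_monomial, algebraMap_eq, Finsupp.prod_fintype _ _ (by intro i; simp)]

theorem nrm_aeval_le (Y : Fin v → MvPolynomial (Fin w) ℤ) (g : MvPolynomial (Fin v) ℤ) {B d : ℕ}
    (hB : 1 ≤ B) (hY : ∀ b, nrm (Y b) ≤ B) (hd : g.totalDegree ≤ d) :
    nrm (aeval Y g) ≤ nrm g * B ^ d := by
  rw [aeval_eq_sum]
  refine (nrm_sum _ _).trans ?_
  rw [nrm, Finset.sum_mul]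
  refine Finset.sum_le_sum fun m hm => ?_
  refine (nrm_mul _ _).trans (Nat.mul_le_mul (nrm_C _) ?_)
  have h1 : nrm (∏ b, Y b ^ m b) ≤ ∏ b, B ^ m b := by
    have : ∀ s : Finset (Fin v), nrm (∏ b ∈ s, Y b ^ m b) ≤ ∏ b ∈ s, B ^ m b := by
      intro s
      classical
      induction s using Finset.induction_on with
      | empty => simpa using nrm_one
      | insert a s ha ih =>
        rw [Finset.prod_insert ha, Finset.prod_insert ha]
        exact (nrm_mul _ _).trans (Nat.mul_le_mul (nrm_pow_le _ (hY a) _) ih)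
    exact this _
  refine h1.trans ?_
  rw [Finset.prod_pow_eq_pow_sum, ← Finsupp.degree_eq_sum]
  exact Nat.pow_le_pow_right hB ((degree_le_totalDegree (mem_support_iff.1 hm)).trans hd)

theorem totalDegree_aeval_le (Y : Fin v → MvPolynomial (Fin w) ℤ) (g : MvPolynomial (Fin v) ℤ)
    {D d : ℕ} (hY : ∀ b, (Y b).totalDegree ≤ D) (hd : g.totalDegree ≤ d) :
    (aeval Y g).totalDegree ≤ d * D := by
  rw [aeval_eq_sum]
  apply totalDegree_sum_le
  intro m hm
  refine (totalDegree_C_mul_le _ _).trans ?_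
  refine (totalDegree_finsetProd _ _).trans ?_
  calc ∑ b, (Y b ^ m b).totalDegree ≤ ∑ b, m b * D := Finset.sum_le_sum fun b _ =>
        (totalDegree_pow _ _).trans (Nat.mul_le_mul_left _ (hY b))
    _ = m.degree * D := by rw [← Finset.sum_mul, ← Finsupp.degree_eq_sum]
    _ ≤ d * D := Nat.mul_le_mul_right _
        ((degree_le_totalDegree (mem_support_iff.1 hm)).trans hd)

/-- Independent families of functions have nonzero minors. -/
theorem exists_minor {R J : Type} [CommRing R] [Nontrivial R] : ∀ (v : ℕ) (P : Fin v → J → R),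
    (∀ c : Fin v → R, (∀ j, ∑ b, c b * P b j = 0) → c = 0) →
    ∃ σ : Fin v → J, (Matrix.of fun b t => P b (σ t)).det ≠ 0 := by
  intro v
  induction v with
  | zero => intro P _; exact ⟨Fin.elim0, by simp⟩
  | succ v ih =>
    intro P hP
    obtain ⟨σ, hσ⟩ := ih (fun b => P b.succ) (by
      intro c hc
      have h1 := hP (Fin.cons 0 c) (by
        intro j
        rw [Fin.sum_univ_succ]
        simpa using hc j)
      funext b
      have := congrFun h1 b.succ
      simpa using this)
    let c : Fin (v + 1) → R := fun i =>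
      (-1) ^ (i : ℕ) * (Matrix.of fun (b t : Fin v) => P (i.succAbove b) (σ t)).det
    have hc0 : c ≠ 0 := by
      intro h0
      apply hσ
      have := congrFun h0 0
      simpa [c] using this
    have hex : ∃ j, ∑ b, c b * P b j ≠ 0 := by
      by_contra hcon
      push Not at hcon
      exact hc0 (hP c hcon)
    obtain ⟨j, hj⟩ := hex
    refine ⟨Fin.cons j σ, ?_⟩
    rw [Matrix.det_succ_column_zero]
    intro h0
    apply hj
    rw [← h0]
    refine Finset.sum_congr rfl fun i _ => ?_
    have h1 : (Matrix.of fun (b t : Fin (v + 1)) => P b ((Fin.cons j σ : Fin (v + 1) → J) t)).submatrix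
        i.succAbove Fin.succ = Matrix.of fun (b t : Fin v) => P (i.succAbove b) (σ t) := by
      ext b t
      simp
    rw [h1]
    simp only [c, Matrix.of_apply, Fin.cons_zero]
    ring

/-- Independence modulo `p` from a minor prime to `p`. -/
theorem indep_of_minor {p : ℕ} [Fact p.Prime] {J : Type} (L : Fin v → J → ℤ) (σ : Fin v → J)
    (hσ : ¬ ((p : ℤ) ∣ (Matrix.of fun b t => L b (σ t)).det)) (c : Fin v → ZMod p)
    (hc : ∀ t, ∑ b, c b * ((L b (σ t) : ℤ) : ZMod p) = 0) : c = 0 := by
  have h1 : (Matrix.of fun b t => ((L b (σ t) : ℤ) : ZMod p)).det ≠ 0 := by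
    have h2 : (Matrix.of fun b t => ((L b (σ t) : ℤ) : ZMod p))
        = (Int.castRingHom (ZMod p)).mapMatrix (Matrix.of fun b t => L b (σ t)) := by
      ext b t
      simp
    rw [h2, ← RingHom.map_det, eq_intCast]
    intro h3
    exact hσ ((ZMod.intCast_zmod_eq_zero_iff_dvd _ _).1 h3)
  apply Matrix.eq_zero_of_vecMul_eq_zero h1
  funext t
  simp only [Matrix.vecMul, dotProduct, Matrix.of_apply, Pi.zero_apply]
  exact hc t

/-- The points at which the polynomials `∑_{j ∈ S} L_bj z ^ idx j` have a nonzero determinant. -/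
theorem exists_beta {p : ℕ} [hp : Fact p.Prime] (S : Finset ℕ) (L : Fin v → ℕ → ℤ)
    (σ : Fin v → S) (hσ : ¬ ((p : ℤ) ∣ (Matrix.of fun b t => L b (σ t)).det))
    (idx : ℕ → ℕ) (hidx : Set.InjOn idx S) (hlt : ∀ j ∈ S, idx j < p) :
    ∃ β : Fin v → ZMod p,
      (Matrix.of fun b t => ∑ j ∈ S, ((L b j : ℤ) : ZMod p) * β t ^ idx j).det ≠ 0 := by
  classical
  apply exists_minor (J := ZMod p) v (fun b z => ∑ j ∈ S, ((L b j : ℤ) : ZMod p) * z ^ idx j)
  intro c hc
  apply indep_of_minor (fun b (j : S) => L b j) σ hσ c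
  intro t
  set Q : Polynomial (ZMod p) := ∑ j ∈ S, Polynomial.C (∑ b, c b * ((L b j : ℤ) : ZMod p)) *
    Polynomial.X ^ idx j with hQ
  have hQ0 : Q = 0 := by
    apply Polynomial.eq_zero_of_natDegree_lt_card_of_eval_eq_zero' Q Finset.univ
    · intro z _
      have h1 := hc z
      rw [hQ, Polynomial.eval_finsetSum]
      simp only [Polynomial.eval_mul, Polynomial.eval_C, Polynomial.eval_pow, Polynomial.eval_X]
      rw [← h1]
      simp only [Finset.mul_sum, Finset.sum_mul]
      rw [Finset.sum_comm]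
      exact Finset.sum_congr rfl fun b _ => Finset.sum_congr rfl fun j _ => by ring
    · rw [Finset.card_univ, ZMod.card]
      refine lt_of_le_of_lt (Polynomial.natDegree_sum_le_of_forall_le (n := p - 1) _ _ ?_) ?_
      · intro j hj
        refine (Polynomial.natDegree_C_mul_X_pow_le _ _).trans ?_
        have := hlt j hj
        omega
      · have := hp.out.pos
        omega
  have h2 := congrArg (fun q => Polynomial.coeff q (idx (σ t))) hQ0
  simp only [hQ, Polynomial.finsetSum_coeff, Polynomial.coeff_C_mul_X_pow,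
    Polynomial.coeff_zero] at h2
  rw [Finset.sum_eq_single (σ t : ℕ)] at h2
  · rw [if_pos rfl] at h2
    exact h2
  · intro j hj hne
    rw [if_neg]
    intro h3
    exact hne (hidx hj (σ t).2 h3.symm)
  · intro h3
    exact absurd (σ t).2 h3

/-- Invertible linear substitutions are injective. -/
theorem linear_subst_inj {K : Type} [Field K] (N : Matrix (Fin v) (Fin v) K) (hN : N.det ≠ 0)
    (Q : MvPolynomial (Fin v) K)
    (h : aeval (fun b => ∑ t, C (N b t) * X t : Fin v → MvPolynomial (Fin v) K) Q = 0) : Q = 0 := by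
  have h1 := congrArg (aeval (fun t => ∑ b', C (N⁻¹ t b') * X b' :
    Fin v → MvPolynomial (Fin v) K)) h
  rw [map_zero, ← AlgHom.comp_apply] at h1
  have h2 : (aeval (fun t => ∑ b', C (N⁻¹ t b') * X b' : Fin v → MvPolynomial (Fin v) K)).comp
      (aeval (fun b => ∑ t, C (N b t) * X t : Fin v → MvPolynomial (Fin v) K))
      = AlgHom.id K _ := by
    apply algHom_ext
    intro b
    rw [AlgHom.comp_apply, aeval_X, map_sum, AlgHom.id_apply]
    have h3 : ∀ t, aeval (fun t => ∑ b', C (N⁻¹ t b') * X b' : Fin v → MvPolynomial (Fin v) K)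
        (C (N b t) * X t) = ∑ b', C (N b t * N⁻¹ t b') * X b' := by
      intro t
      rw [map_mul, aeval_X, algHom_C, algebraMap_eq, Finset.mul_sum]
      exact Finset.sum_congr rfl fun b' _ => by rw [C_mul]; ring
    rw [Finset.sum_congr rfl fun t _ => h3 t, Finset.sum_comm]
    have h4 : ∀ b', ∑ t, C (N b t * N⁻¹ t b') * X b'
        = C ((1 : Matrix (Fin v) (Fin v) K) b b') * (X b' : MvPolynomial (Fin v) K) := by
      intro b'
      rw [← Finset.sum_mul, ← map_sum]
      congr 2
      have h5 : N * N⁻¹ = 1 := Matrix.mul_nonsing_inv N (Ne.isUnit hN)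
      rw [← h5, Matrix.mul_apply]
    rw [Finset.sum_congr rfl fun b' _ => h4 b', Finset.sum_eq_single b]
    · simp
    · intro b' _ hb'
      rw [Matrix.one_apply_ne hb'.symm]
      simp
    · simp
  rw [h2] at h1
  exact h1

end Pool.Agent.H531R2
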