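import Mathlib
import Pool.Agent.H531R2.Subst

/-!
# The hitting set
-/

set_option autoImplicit false

namespace Pool.Agent.H531R2

open MvPolynomial

variable {v n : ℕ}

/-- The linear forms. -/
noncomputable def lf (S : Finset ℕ) (L : Fin v → ℕ → ℤ) (b : Fin v) : MvPolynomial ℕ ℤ :=
  ∑ j ∈ S, C (L b j) * X j

/-- The embedding of integer polynomials in rational polynomials. -/
noncomputable def iQ : MvPolynomial ℕ ℤ →+* MvPolynomial ℕ ℚ := map (Int.castRingHom ℚ)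

theorem iQ_inj {P Q : MvPolynomial ℕ ℤ} (h : iQ P = iQ Q) : P = Q :=
  map_injective _ Int.cast_injective h

theorem iQ_C (z : ℤ) : iQ (C z) = C (z : ℚ) := by
  rw [iQ, map_C]; rfl

/-- Clearing denominators. -/
theorem clear_den (q : MvPolynomial ℕ ℚ) :
    ∃ (K : ℤ) (q' : MvPolynomial ℕ ℤ), K ≠ 0 ∧ C (K : ℚ) * q = iQ q' := by
  induction q using MvPolynomial.induction_on with
  | C a =>
    refine ⟨a.den, C a.num, by exact_mod_cast a.den_nz, ?_⟩
    rw [iQ_C, ← C_mul]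
    congr 1
    push_cast
    rw [mul_comm]
    exact Rat.mul_den_eq_num a
  | add p q hp hq =>
    obtain ⟨K, p', hK, hp'⟩ := hp
    obtain ⟨J, q', hJ, hq'⟩ := hq
    refine ⟨K * J, C J * p' + C K * q', mul_ne_zero hK hJ, ?_⟩
    rw [map_add, map_mul, map_mul, iQ_C, iQ_C, ← hp', ← hq']
    push_cast
    rw [C_mul]
    ring
  | mul_X p j hp =>
    obtain ⟨K, p', hK, hp'⟩ := hp
    refine ⟨K, p' * X j, hK, ?_⟩
    rw [map_mul, ← hp', iQ, map_X]
    ring

theorem aeval_lf (S : Finset ℕ) (L : Fin v → ℕ → ℤ) (g : MvPolynomial (Fin v) ℤ) :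
    aeval (fun b => (∑ k ∈ S, C (L b k : ℚ) * X k : MvPolynomial ℕ ℚ)) g
      = iQ (aeval (lf S L) g) := by
  have h : ((aeval (fun b => (∑ k ∈ S, C (L b k : ℚ) * X k : MvPolynomial ℕ ℚ)) :
      MvPolynomial (Fin v) ℤ →ₐ[ℤ] MvPolynomial ℕ ℚ) : MvPolynomial (Fin v) ℤ →+* MvPolynomial ℕ ℚ)
      = iQ.comp ((aeval (lf S L) : MvPolynomial (Fin v) ℤ →ₐ[ℤ] MvPolynomial ℕ ℤ) :
        MvPolynomial (Fin v) ℤ →+* MvPolynomial ℕ ℤ) := by
    apply MvPolynomial.ringHom_ext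
    · intro r
      simp [iQ]
    · intro b
      simp [iQ, lf, map_sum]
  exact congrArg (fun φ : MvPolynomial (Fin v) ℤ →+* MvPolynomial ℕ ℚ => φ g) h

/-- Integer form of a nonzero polynomial with `FewPow`. -/
theorem FewPow.reduce {F : MvPolynomial ℕ ℚ} (hF0 : F ≠ 0) (hF : FewPow v n F) :
    ∃ (S : Finset ℕ) (L : Fin v → ℕ → ℤ) (g : Fin n → MvPolynomial (Fin v) ℤ)
      (e : Fin n → Fin n → ℕ) (c : Fin n → ℤ) (K k : ℤ) (F' : MvPolynomial (Fin v) ℤ),
      S.card ≤ v + n ∧ (∀ b j, (L b j).natAbs ≤ 2 ^ n) ∧ LinearIndependent ℤ (lf S L) ∧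
      (∀ j, (g j).totalDegree ≤ n ∧ nrm (g j) ≤ 2 ^ n) ∧ (∀ i j, e i j ≤ 2 ^ n) ∧
      K ≠ 0 ∧ k ≠ 0 ∧ Prim F' ∧ C k * F' = ∑ i, C (c i) * ∏ j, g j ^ e i j ∧
      C (K : ℚ) * F = iQ (C k * aeval (lf S L) F') := by
  classical
  obtain ⟨S, L, g, e, c, hS, hL, hind, hg, he, rfl⟩ := hF
  have hex : ∀ i, ∃ z : ℤ, (z : ℚ) = ((∏ i, (c i).den : ℕ) : ℚ) * c i := by
    intro i
    refine ⟨((∏ i' ∈ Finset.univ.erase i, (c i').den : ℕ) : ℤ) * (c i).num, ?_⟩
    rw [← Finset.mul_prod_erase Finset.univ (fun i => (c i).den) (Finset.mem_univ i)]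
    push_cast
    have h1 : ((c i).den : ℚ) * c i = (c i).num := by
      rw [mul_comm]; exact Rat.mul_den_eq_num (c i)
    rw [← h1]
    ring
  choose z hz using hex
  set F0 : MvPolynomial (Fin v) ℤ := ∑ i, C (z i) * ∏ j, g j ^ e i j with hF0def
  set K : ℕ := ∏ i, (c i).den with hK
  have hK0 : (K : ℤ) ≠ 0 := by
    have : K ≠ 0 := Finset.prod_ne_zero_iff.2 fun i _ => (c i).den_nz
    exact_mod_cast this
  have hrel : C (((K : ℤ) : ℚ)) * (∑ i, C (c i) * ∏ j, (aeval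
      (fun b => (∑ k ∈ S, C (L b k : ℚ) * X k : MvPolynomial ℕ ℚ)) (g j)) ^ e i j)
      = iQ (aeval (lf S L) F0) := by
    rw [hF0def, map_sum, map_sum, Finset.mul_sum]
    refine Finset.sum_congr rfl fun i _ => ?_
    have e1 : iQ (aeval (lf S L) (C (z i) * ∏ j, g j ^ e i j))
        = C (z i : ℚ) * ∏ j, iQ (aeval (lf S L) (g j)) ^ e i j := by
      rw [map_mul, map_prod, map_mul, map_prod, algHom_C, algebraMap_eq, iQ_C]
      refine congrArg _ (Finset.prod_congr rfl fun j _ => ?_)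
      rw [map_pow, map_pow]
    rw [e1, ← mul_assoc, ← C_mul, hz i]
    congr 1
    refine Finset.prod_congr rfl fun j _ => ?_
    rw [aeval_lf]
  have hF00 : F0 ≠ 0 := by
    intro h0
    rw [h0, map_zero, map_zero] at hrel
    rcases mul_eq_zero.1 hrel with h | h
    · rw [C_eq_zero] at h
      exact hK0 (by exact_mod_cast h)
    · exact hF0 h
  obtain ⟨k, F', hk, hkF, hF'⟩ := exists_prim_part hF00
  refine ⟨S, L, g, e, z, K, k, F', hS, hL, hind, hg, he, hK0, hk, hF', ?_, ?_⟩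
  · rw [← hkF]
  · rw [hrel, hkF, map_mul, algHom_C, algebraMap_eq]

/-- The parametrisation `x_j = ∑ t, A_t B_t ^ idx j` of the points. -/
noncomputable def Th (v : ℕ) (idx : ℕ → ℕ) :
    MvPolynomial ℕ ℤ →ₐ[ℤ] MvPolynomial (Fin (v + v)) ℤ :=
  aeval fun j => ∑ t : Fin v, X (Fin.castAdd v t) * X (Fin.natAdd v t) ^ idx j

theorem nrm_X_le {w : ℕ} (i : Fin w) : nrm (X i : MvPolynomial (Fin w) ℤ) ≤ 1 := by
  have := nrm_monomial_mul (Finsupp.single i 1) 1 (1 : MvPolynomial (Fin w) ℤ)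
  have h1 : nrm (1 : MvPolynomial (Fin w) ℤ) ≤ 1 := nrm_one
  rw [mul_one] at this
  exact this.trans (by simpa using h1)

theorem nrm_Th_lf (idx : ℕ → ℕ) (S : Finset ℕ) (L : Fin v → ℕ → ℤ) (B : ℕ)
    (hL : ∀ b j, (L b j).natAbs ≤ B) (b : Fin v) :
    nrm (Th v idx (lf S L b)) ≤ S.card * (B * v) := by
  rw [lf, map_sum]
  refine (nrm_sum _ _).trans ?_
  refine (Finset.sum_le_card_nsmul S _ (B * v) fun j _ => ?_).trans (by simp)
  rw [map_mul]
  refine (nrm_mul _ _).trans (Nat.mul_le_mul ?_ ?_)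
  · rw [algHom_C, algebraMap_eq]
    exact (nrm_C _).trans (hL b j)
  · rw [Th, aeval_X]
    refine (nrm_sum _ _).trans ?_
    refine (Finset.sum_le_card_nsmul Finset.univ _ 1 fun t _ => ?_).trans (by simp)
    refine (nrm_mul _ _).trans ?_
    have h1 := nrm_X_le (Fin.castAdd v t)
    have h2 := nrm_pow_le (X (Fin.natAdd v t) : MvPolynomial (Fin (v + v)) ℤ)
      (nrm_X_le (Fin.natAdd v t)) (idx j)
    rw [one_pow] at h2
    exact (Nat.mul_le_mul h1 h2).trans (by norm_num)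

theorem totalDegree_Th_lf (idx : ℕ → ℕ) (S : Finset ℕ) (L : Fin v → ℕ → ℤ) (m : ℕ)
    (hlt : ∀ j ∈ S, idx j < m) (b : Fin v) :
    (Th v idx (lf S L b)).totalDegree ≤ m := by
  rw [lf, map_sum]
  apply totalDegree_sum_le
  intro j hj
  rw [map_mul, algHom_C, algebraMap_eq]
  refine (totalDegree_C_mul_le _ _).trans ?_
  rw [Th, aeval_X]
  apply totalDegree_sum_le
  intro t _
  refine (totalDegree_mul _ _).trans ?_
  have h1 : (X (Fin.natAdd v t) ^ idx j : MvPolynomial (Fin (v + v)) ℤ).totalDegree ≤ idx j := by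
    refine (totalDegree_pow _ _).trans ?_
    rw [totalDegree_X, mul_one]
  have h2 := hlt j hj
  rw [totalDegree_X]
  omega

/-- The substitution does not create divisibility by `p`. -/
theorem Th_not_dvd {p : ℕ} (hp : p.Prime) (S : Finset ℕ) (L : Fin v → ℕ → ℤ) (σ : Fin v → S)
    (hσ : ¬ ((p : ℤ) ∣ (Matrix.of fun b t => L b (σ t)).det)) (idx : ℕ → ℕ)
    (hidx : Set.InjOn idx S) (hlt : ∀ j ∈ S, idx j < p) {F : MvPolynomial (Fin v) ℤ}
    (hF : ¬ (C (p : ℤ) ∣ F)) : ¬ (C (p : ℤ) ∣ Th v idx (aeval (lf S L) F)) := by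
  classical
  have : Fact p.Prime := ⟨hp⟩
  obtain ⟨β, hβ⟩ := exists_beta S L σ hσ idx hidx hlt
  rintro ⟨H, hH⟩
  apply hF
  rw [C_dvd_iff_zmod]
  apply linear_subst_inj _ hβ
  let χ : MvPolynomial (Fin (v + v)) ℤ →+* MvPolynomial (Fin v) (ZMod p) :=
    eval₂Hom ((C : ZMod p →+* MvPolynomial (Fin v) (ZMod p)).comp (Int.castRingHom (ZMod p)))
      (Fin.addCases (fun t => X t) (fun t => C (β t)))
  have hA : ∀ t : Fin v, χ (X (Fin.castAdd v t)) = X t := by
    intro t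
    simp only [χ, coe_eval₂Hom, eval₂_X, Fin.addCases_left]
  have hB : ∀ t : Fin v, χ (X (Fin.natAdd v t)) = C (β t) := by
    intro t
    simp only [χ, coe_eval₂Hom, eval₂_X, Fin.addCases_right]
  have hχ : χ (Th v idx (aeval (lf S L) F)) = 0 := by
    rw [hH, map_mul]
    have : χ (C (p : ℤ)) = 0 := by
      simp [χ]
    rw [this, zero_mul]
  have hcomp : (χ.comp ((Th v idx : MvPolynomial ℕ ℤ →ₐ[ℤ] MvPolynomial (Fin (v + v)) ℤ) :
      MvPolynomial ℕ ℤ →+* MvPolynomial (Fin (v + v)) ℤ)).comp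
      ((aeval (lf S L) : MvPolynomial (Fin v) ℤ →ₐ[ℤ] MvPolynomial ℕ ℤ) :
        MvPolynomial (Fin v) ℤ →+* MvPolynomial ℕ ℤ)
      = ((aeval (fun b => ∑ t, C ((Matrix.of fun b t => ∑ j ∈ S, ((L b j : ℤ) : ZMod p) *
          β t ^ idx j) b t) * X t : Fin v → MvPolynomial (Fin v) (ZMod p)) :
          MvPolynomial (Fin v) (ZMod p) →ₐ[ZMod p] MvPolynomial (Fin v) (ZMod p)) :
          MvPolynomial (Fin v) (ZMod p) →+* MvPolynomial (Fin v) (ZMod p)).comp
          (map (Int.castRingHom (ZMod p))) := by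
    apply MvPolynomial.ringHom_ext
    · intro r
      simp [χ]
    · intro b
      simp only [RingHom.comp_apply, RingHom.coe_coe, aeval_X, map_X]
      rw [lf, map_sum, map_sum]
      simp only [Matrix.of_apply, map_sum, Finset.sum_mul]
      rw [Finset.sum_comm]
      refine Finset.sum_congr rfl fun j _ => ?_
      rw [map_mul, map_mul]
      have h1 : χ (Th v idx (C (L b j))) = C (((L b j : ℤ) : ZMod p)) := by
        rw [algHom_C, algebraMap_eq]
        simp [χ]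
      have h2 : χ (Th v idx (X j)) = ∑ t, X t * C (β t ^ idx j) := by
        rw [Th, aeval_X, map_sum]
        refine Finset.sum_congr rfl fun t _ => ?_
        rw [map_mul, map_pow, hA, hB, map_pow]
      rw [h1, h2, Finset.mul_sum]
      refine Finset.sum_congr rfl fun t _ => ?_
      rw [C_mul]
      ring
  have h3 := congrArg (fun φ : MvPolynomial (Fin v) ℤ →+* MvPolynomial (Fin v) (ZMod p) => φ F)
    hcomp
  simp only [RingHom.comp_apply, RingHom.coe_coe] at h3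
  rw [← h3]
  exact hχ

end Pool.Agent.H531R2
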