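import Mathlib
import Pool.Agent.H531R2.Hit

/-!
# The hitting set theorem
-/

set_option autoImplicit false

namespace Pool.Agent.H531R2

open MvPolynomial

variable {v n : ℕ}

/-- Extension of an injective numbering. -/
theorem exists_numbering (V W : Finset ℕ) (idx : ℕ → ℕ) (hidx : Set.InjOn idx V) (m : ℕ)
    (hlt : ∀ j ∈ V, idx j < m) :
    ∃ idx' : ℕ → ℕ, (∀ j ∈ V, idx' j = idx j) ∧ Set.InjOn idx' (V ∪ W : Finset ℕ) ∧
      ∀ j ∈ V ∪ W, idx' j < m + W.card := by
  classical
  let P : ℕ → Prop := fun j => j ∈ W \ V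
  refine ⟨fun j => if j ∈ V then idx j else m + Nat.count P j, ?_, ?_, ?_⟩
  · intro j hj
    simp [hj]
  · intro j hj j' hj' h
    simp only at h
    rw [Finset.mem_coe, Finset.mem_union] at hj hj'
    by_cases h1 : j ∈ V
    · by_cases h2 : j' ∈ V
      · rw [if_pos h1, if_pos h2] at h
        exact hidx h1 h2 h
      · rw [if_pos h1, if_neg h2] at h
        have := hlt j h1
        omega
    · by_cases h2 : j' ∈ V
      · rw [if_neg h1, if_pos h2] at h
        have := hlt j' h2
        omega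
      · rw [if_neg h1, if_neg h2] at h
        have p1 : P j := by
          simp only [P, Finset.mem_sdiff]; tauto
        have p2 : P j' := by
          simp only [P, Finset.mem_sdiff]; tauto
        exact Nat.count_injective p1 p2 (by omega)
  · intro j hj
    rw [Finset.mem_union] at hj
    by_cases h1 : j ∈ V
    · simp only [if_pos h1]
      have := hlt j h1
      omega
    · simp only [if_neg h1]
      have p1 : P j := by
        simp only [P, Finset.mem_sdiff]; tauto
      have hfin : (Set.ofPred P).Finite := (W \ V).finite_toSet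
      have h2 : Nat.count P j < hfin.toFinset.card := by
        convert! Nat.count_lt_card hfin p1
      have h3 : hfin.toFinset.card ≤ W.card := by
        apply Finset.card_le_card
        intro x hx
        rw [Set.Finite.mem_toFinset] at hx
        exact (Finset.mem_sdiff.1 hx).1
      omega

/-- A bound for the numbers of the variables. -/
def mm (v n m : ℕ) : ℕ := m + n * (v + n)
/-- A bound for degrees and logarithms of norms. -/
def HH (v n m : ℕ) : ℕ := n * (mm v n m + 2 * v + 2 * n + 2)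
/-- The exponent of the moduli. -/
def Ex (v n m : ℕ) : ℕ := n + n * E1 (v + v) (HH v n m)
/-- A lower bound for the primes. -/
def PP (v n m : ℕ) : ℕ := mm v n m + Ex v n m + n * n * HH v n m + n + 1
/-- The logarithm of a bound for the product of the bad primes. -/
def DD (v n : ℕ) : ℕ := n * (v * v + v * n)

theorem det_int_le (M : Matrix (Fin v) (Fin v) ℤ) (B : ℕ) (h : ∀ i j, (M i j).natAbs ≤ B) :
    M.det.natAbs ≤ v.factorial * B ^ v := by
  classical
  rw [Matrix.det_apply]
  refine (Int.natAbs_sum_le _ _).trans ?_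
  have h1 : ∀ τ ∈ (Finset.univ : Finset (Equiv.Perm (Fin v))),
      (Equiv.Perm.sign τ • ∏ i, M (τ i) i).natAbs ≤ B ^ v := by
    intro τ _
    have h2 : (Equiv.Perm.sign τ • ∏ i, M (τ i) i).natAbs = (∏ i, M (τ i) i).natAbs := by
      rcases Int.units_eq_one_or (Equiv.Perm.sign τ) with h | h <;> rw [h]
      · simp
      · simp
    rw [h2]
    have h3 : (∏ i, M (τ i) i).natAbs = ∏ i, (M (τ i) i).natAbs :=
      map_prod Int.natAbsHom _ _
    rw [h3]
    refine (Finset.prod_le_prod (fun _ _ => Nat.zero_le _) fun i _ => h (τ i) i).trans ?_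
    simp
  refine (Finset.sum_le_card_nsmul _ _ _ h1).trans ?_
  simp [Fintype.card_perm]

/-- The minor of linearly independent forms. -/
theorem lf_minor {S : Finset ℕ} {L : Fin v → ℕ → ℤ} (hind : LinearIndependent ℤ (lf S L)) :
    ∃ σ : Fin v → S, (Matrix.of fun b t => L b (σ t)).det ≠ 0 := by
  classical
  apply exists_minor v (fun b (j : S) => L b j)
  intro c hc
  rw [Fintype.linearIndependent_iff] at hind
  funext b
  refine hind c ?_ b
  have h1 : ∀ b, c b • lf S L b = ∑ j ∈ S, C (c b * L b j) * X j := by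
    intro b
    rw [lf, Finset.smul_sum]
    refine Finset.sum_congr rfl fun j _ => ?_
    rw [smul_eq_C_mul, C_mul, mul_assoc]
  rw [Finset.sum_congr rfl fun b _ => h1 b, Finset.sum_comm]
  refine Finset.sum_eq_zero fun j hj => ?_
  rw [← Finset.sum_mul, ← map_sum, hc ⟨j, hj⟩, C_0, zero_mul]

theorem norm_bound (v n m : ℕ) :
    2 ^ n * (2 ^ (2 * v + 2 * n + 1)) ^ n ≤ 2 ^ HH v n m := by
  rw [← pow_mul, ← pow_add]
  apply Nat.pow_le_pow_right (by norm_num)
  rw [HH]
  nlinarith [Nat.zero_le (n * mm v n m)]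

theorem form_bound (v n s : ℕ) (hs : s ≤ v + n) : s * (2 ^ n * v) ≤ 2 ^ (2 * v + 2 * n + 1) := by
  have h1 : v ≤ 2 ^ v := Nat.lt_two_pow_self.le
  have h2 : v + n ≤ 2 ^ (v + n) := Nat.lt_two_pow_self.le
  calc s * (2 ^ n * v) ≤ 2 ^ (v + n) * (2 ^ n * 2 ^ v) := by
        have := hs.trans h2
        gcongr
    _ = 2 ^ (2 * v + 2 * n) := by rw [← pow_add, ← pow_add]; congr 1; ring
    _ ≤ 2 ^ (2 * v + 2 * n + 1) := Nat.pow_le_pow_right (by norm_num) (by omega)

/-- Primitive parts, also of zero. -/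
theorem exists_prim_part' (D : MvPolynomial (Fin v) ℤ) {H : ℕ} (hd : D.totalDegree ≤ H)
    (hn : nrm D ≤ 2 ^ H) : ∃ (k : ℤ) (D' : MvPolynomial (Fin v) ℤ), D = C k * D' ∧ Prim D' ∧
      D'.totalDegree ≤ H ∧ nrm D' ≤ 2 ^ H := by
  by_cases h0 : D = 0
  · refine ⟨0, 1, by rw [h0]; simp, Prim.one, by simp, ?_⟩
    exact nrm_one.trans Nat.one_le_two_pow
  · obtain ⟨k, D', hk, hkD, hD'⟩ := exists_prim_part h0
    refine ⟨k, D', hkD, hD', ?_, ?_⟩
    · refine (natDegree_C_mul hk D').trans ?_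
      rw [← hkD]; exact hd
    · refine le_trans ?_ hn
      rw [hkD, nrm, nrm]
      have hs : D'.support ⊆ (C k * D').support := by
        intro m hm
        rw [mem_support_iff] at hm ⊢
        rw [coeff_C_mul]
        exact mul_ne_zero hk hm
      refine le_trans ?_ (Finset.sum_le_sum_of_subset hs)
      refine Finset.sum_le_sum fun m _ => ?_
      rw [coeff_C_mul, Int.natAbs_mul]
      exact Nat.le_mul_of_pos_left _ (Int.natAbs_pos.2 hk)

/-- Tame polynomials in integer form. -/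
theorem Tame.reduce {f : MvPolynomial ℕ ℤ} (hf : Tame v n f) :
    ∃ (cf : ℤ) (f' : MvPolynomial ℕ ℤ) (S : Fin n → Finset ℕ) (L : Fin n → Fin v → ℕ → ℤ)
      (g : Fin n → Fin n → MvPolynomial (Fin v) ℤ) (e : Fin n → Fin n → Fin n → ℕ)
      (c : Fin n → Fin n → ℤ) (k : Fin n → ℤ) (F' : Fin n → MvPolynomial (Fin v) ℤ),
      f = C cf * f' ∧ cf ≠ 0 ∧
      (∀ a, (S a).card ≤ v + n ∧ (∀ b j, (L a b j).natAbs ≤ 2 ^ n) ∧
        LinearIndependent ℤ (lf (S a) (L a)) ∧
        (∀ j, (g a j).totalDegree ≤ n ∧ nrm (g a j) ≤ 2 ^ n) ∧ (∀ i j, e a i j ≤ 2 ^ n) ∧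
        k a ≠ 0 ∧ Prim (F' a) ∧ C (k a) * F' a = ∑ i, C (c a i) * ∏ j, g a j ^ e a i j) ∧
      f' ∣ ∏ a, aeval (lf (S a) (L a)) (F' a) := by
  classical
  obtain ⟨hcont, F, hF, hfd⟩ := hf
  have hf0 : f ≠ 0 := by
    rintro rfl
    obtain ⟨p, hp1, hp2⟩ := Nat.exists_infinite_primes (n + 1)
    exact hcont p hp2 (by omega) (dvd_zero _)
  have hred := fun a => (hF a).2.reduce (hF a).1
  choose S L g e c K k F' hS hL hind hg he hK hk hF' hrel hFe using hred
  obtain ⟨cf, f', hcf, hff, hf'⟩ := exists_prim_part hf0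
  refine ⟨cf, f', S, L, g, e, c, k, F', hff, hcf, fun a => ⟨hS a, hL a, hind a, hg a, he a, hk a,
    hF' a, hrel a⟩, ?_⟩
  set P := ∏ a, aeval (lf (S a) (L a)) (F' a) with hP
  have h1 : iQ f ∣ iQ (C (∏ a, k a) * P) := by
    have h2 : iQ (C (∏ a, k a) * P) = (∏ a, C (K a : ℚ)) * ∏ a, F a := by
      rw [← Finset.prod_mul_distrib, hP, map_prod, ← Finset.prod_mul_distrib, map_prod]
      exact Finset.prod_congr rfl fun a _ => (hFe a).symm
    rw [h2]
    exact Dvd.dvd.mul_left hfd _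
  obtain ⟨q, hq⟩ := h1
  obtain ⟨J, q', hJ, hq'⟩ := clear_den q
  have h3 : f * q' = C (J * ∏ a, k a) * P := by
    apply iQ_inj
    rw [map_mul, ← hq', C_mul, mul_assoc, map_mul, hq, iQ_C]
    ring
  have hk0 : J * ∏ a, k a ≠ 0 := mul_ne_zero hJ (Finset.prod_ne_zero_iff.2 fun a _ => hk a)
  have h4 : (C (J * ∏ a, k a) : MvPolynomial ℕ ℤ) ∣ C cf * q' := by
    apply hf'.C_dvd hk0
    refine ⟨P, ?_⟩
    rw [← h3, hff]
    ring
  obtain ⟨q'', hq''⟩ := h4
  refine ⟨q'', ?_⟩
  have hC : (C (J * ∏ a, k a) : MvPolynomial ℕ ℤ) ≠ 0 := by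
    rw [Ne, C_eq_zero]; exact hk0
  apply mul_left_cancel₀ hC
  rw [← h3, hff]
  linear_combination f' * hq''

/-- The hitting set theorem. -/
theorem hit {f : MvPolynomial ℕ ℤ} (hf : Tame v n f) (V : Finset ℕ) (hV : f.vars ⊆ V)
    (idx : ℕ → ℕ) (hidx : Set.InjOn idx V) (m : ℕ) (hlt : ∀ j ∈ V, idx j < m) :
    ∃ Δ : ℕ, Δ ≠ 0 ∧ Δ ≤ 2 ^ DD v n ∧ ∀ p : ℕ, p.Prime → ¬ (p ∣ Δ) → PP v n m ≤ p →
      ∃ a : Fin (v + v) → ℕ, (∀ t, a t < p ^ 2) ∧ ¬ ((p : ℤ) ^ (Ex v n m + 1) ∣
        eval (fun j => ∑ t : Fin v, (a (Fin.castAdd v t) : ℤ) *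
          (a (Fin.natAdd v t) : ℤ) ^ idx j) f) := by
  classical
  have hcont := hf.1
  obtain ⟨cf, f', S, L, g, e, c, k, F', hff, hcf, hall, hfd⟩ := hf.reduce
  have hS := fun a => (hall a).1
  have hL := fun a => (hall a).2.1
  have hind := fun a => (hall a).2.2.1
  have hg := fun a => (hall a).2.2.2.1
  have he := fun a => (hall a).2.2.2.2.1
  have hk := fun a => (hall a).2.2.2.2.2.1
  have hF' := fun a => (hall a).2.2.2.2.2.2.1
  have hrel := fun a => (hall a).2.2.2.2.2.2.2
  -- the bad primes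
  have hmin := fun a => lf_minor (hind a)
  choose σ hσ using hmin
  set Δ : ℕ := ∏ a, (Matrix.of fun b t => L a b (σ a t)).det.natAbs with hΔ
  have hΔ0 : Δ ≠ 0 := Finset.prod_ne_zero_iff.2 fun a _ => Int.natAbs_ne_zero.2 (hσ a)
  have hΔle : Δ ≤ 2 ^ DD v n := by
    have h1 : ∀ a ∈ (Finset.univ : Finset (Fin n)),
        (Matrix.of fun b t => L a b (σ a t)).det.natAbs ≤ 2 ^ (v * v + v * n) := by
      intro a _
      refine (det_int_le _ (2 ^ n) (fun i j => by
        rw [Matrix.of_apply]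
        exact hL a _ _)).trans ?_
      have h2 : v.factorial ≤ 2 ^ (v * v) := by
        calc v.factorial ≤ v ^ v := Nat.factorial_le_pow v
          _ ≤ (2 ^ v) ^ v := Nat.pow_le_pow_left Nat.lt_two_pow_self.le v
          _ = 2 ^ (v * v) := by rw [← pow_mul]
      calc v.factorial * (2 ^ n) ^ v ≤ 2 ^ (v * v) * (2 ^ n) ^ v := Nat.mul_le_mul_right _ h2
        _ = 2 ^ (v * v + v * n) := by
          rw [← pow_mul, ← pow_add]; congr 1; ring
    refine (Finset.prod_le_pow_card _ _ _ h1).trans ?_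
    rw [Finset.card_univ, Fintype.card_fin, ← pow_mul, DD, mul_comm n]
  refine ⟨Δ, hΔ0, hΔle, fun p hp hpΔ hpP => ?_⟩
  have hpσ : ∀ a, ¬ ((p : ℤ) ∣ (Matrix.of fun b t => L a b (σ a t)).det) := by
    intro a h
    apply hpΔ
    rw [hΔ]
    refine dvd_trans ?_ (Finset.dvd_prod_of_mem _ (Finset.mem_univ a))
    have := Int.natAbs_dvd_natAbs.2 h
    rwa [Int.natAbs_natCast] at this
  -- numbering
  let W : Finset ℕ := Finset.univ.biUnion S
  have hW : W.card ≤ n * (v + n) := by
    refine Finset.card_biUnion_le.trans ?_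
    refine (Finset.sum_le_card_nsmul Finset.univ _ (v + n) fun a _ => hS a).trans ?_
    simp
  obtain ⟨idx', hidxV, hidx', hlt'⟩ := exists_numbering V W idx hidx m hlt
  have hSW : ∀ a, ∀ j ∈ S a, j ∈ V ∪ W := by
    intro a j hj
    rw [Finset.mem_union]
    right
    rw [Finset.mem_biUnion]
    exact ⟨a, Finset.mem_univ _, hj⟩
  have hltm : ∀ a, ∀ j ∈ S a, idx' j < mm v n m := by
    intro a j hj
    have := hlt' _ (hSW a j hj)
    rw [mm]
    omega
  have hP1 : mm v n m < p := by rw [PP] at hpP; omega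
  have hP2 : Ex v n m < p := by rw [PP] at hpP; omega
  have hP3 : n * n * HH v n m < p := by rw [PP] at hpP; omega
  have hP4 : n < p := by rw [PP] at hpP; omega
  -- the bases after the substitution
  have hG : ∀ a j, ∃ (k : ℤ) (D' : MvPolynomial (Fin (v + v)) ℤ),
      Th v idx' (aeval (lf (S a) (L a)) (g a j)) = C k * D' ∧ Prim D' ∧
      D'.totalDegree ≤ HH v n m ∧ nrm D' ≤ 2 ^ HH v n m := by
    intro a j
    have hcomp : Th v idx' (aeval (lf (S a) (L a)) (g a j))
        = aeval (fun b => Th v idx' (lf (S a) (L a) b)) (g a j) := by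
      rw [← AlgHom.comp_apply]
      congr 1
      apply algHom_ext
      intro b
      simp
    apply exists_prim_part'
    · rw [hcomp]
      refine (totalDegree_aeval_le _ _ (D := mm v n m) (d := n) (fun b =>
        totalDegree_Th_lf idx' _ _ _ (hltm a) b) (hg a j).1).trans ?_
      rw [HH]
      apply Nat.mul_le_mul_left
      omega
    · rw [hcomp]
      refine (nrm_aeval_le _ _ (B := 2 ^ (2 * v + 2 * n + 1)) (d := n) Nat.one_le_two_pow
        (fun b => ?_) (hg a j).1).trans ?_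
      · exact (nrm_Th_lf idx' _ _ (2 ^ n) (hL a) b).trans (form_bound v n _ (hS a))
      · exact (Nat.mul_le_mul_right _ (hg a j).2).trans (norm_bound v n m)
  choose κ G' hκ hG' hG'd hG'n using hG
  -- the first half of the point
  have hPr : Prim (∏ a, ∏ j, G' a j) := Prim.prod _ _ fun a _ => Prim.prod _ _ fun j _ => hG' a j
  have hPd : (∏ a, ∏ j, G' a j).totalDegree ≤ n * n * HH v n m := by
    have h1 := totalDegree_prod_le Finset.univ (fun a => ∏ j, G' a j) (n * HH v n m) (fun a _ => by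
      have h2 := totalDegree_prod_le Finset.univ (G' a) (HH v n m) (fun j _ => hG'd a j)
      rwa [Finset.card_univ, Fintype.card_fin] at h2)
    rw [Finset.card_univ, Fintype.card_fin] at h1
    rw [mul_assoc]
    exact h1
  obtain ⟨s, hs, hsP⟩ := exists_point hp (hPr p hp) (d := n * n * HH v n m) (fun m' hm' => by
    have h0 : coeff m' (∏ a, ∏ j, G' a j) = 0 := by
      by_contra hne
      exact absurd (degree_le_totalDegree hne) (not_le.2 (lt_of_le_of_lt hPd hm'))
    rw [h0]
    exact dvd_zero _) hP3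
  have hsg : ∀ a j, ¬ ((p : ℤ) ∣ eval (fun a => (s a : ℤ)) (G' a j)) := by
    intro a j h
    apply hsP
    rw [map_prod]
    refine h.trans ?_
    refine dvd_trans ?_ (Finset.dvd_prod_of_mem _ (Finset.mem_univ a))
    rw [map_prod]
    exact Finset.dvd_prod_of_mem _ (Finset.mem_univ j)
  set s' : Fin (v + v) → ℤ := fun a => (s a : ℤ) with hs'
  -- each factor
  have hn1 : n ≤ HH v n m := by
    rw [HH]
    exact Nat.le_mul_of_pos_right n (by omega)
  have hFa : ∀ a, ¬ ((C (p : ℤ)) ^ (E1 (v + v) (HH v n m) + 1) ∣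
      Sig p s' (Th v idx' (aeval (lf (S a) (L a)) (F' a)))) := by
    intro a
    refine core hp hn1 s' (G' a) (e a) (fun i => c a i * ∏ j, κ a j ^ e a i j)
      (fun j => ⟨hG' a j, hG'd a j, hG'n a j⟩)
      (fun i j => (he a i j).trans (Nat.pow_le_pow_right (by norm_num) hn1)) _ ?_ (k a) (hk a) ?_
      (hsg a)
    · apply Th_not_dvd hp (S a) (L a) (σ a) (hpσ a) idx'
      · intro j hj j' hj' h
        exact hidx' (hSW a j hj) (hSW a j' hj') h
      · intro j hj
        exact (hltm a j hj).trans hP1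
      · exact hF' a p hp
    · have h1 := congrArg (fun z => Th v idx' (aeval (lf (S a) (L a)) z)) (hrel a)
      simp only [map_mul, map_sum, map_prod, map_pow] at h1
      have hC1 : ∀ z : ℤ, Th v idx' (aeval (lf (S a) (L a)) (C z)) = C z := by
        intro z
        rw [algHom_C, algebraMap_eq, algHom_C, algebraMap_eq]
      rw [hC1] at h1
      rw [h1]
      refine Finset.sum_congr rfl fun i _ => ?_
      rw [hC1, C_mul, mul_assoc, map_prod, ← Finset.prod_mul_distrib]
      refine congrArg _ (Finset.prod_congr rfl fun j _ => ?_)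
      rw [hκ, mul_pow, ← C_pow]
  have hprod := not_pow_dvd_prod hp Finset.univ
    (fun a => Sig p s' (Th v idx' (aeval (lf (S a) (L a)) (F' a)))) (E1 (v + v) (HH v n m))
    (fun a _ => hFa a)
  rw [Finset.card_univ, Fintype.card_fin, ← map_prod, ← map_prod] at hprod
  have hSf' : ¬ ((C (p : ℤ)) ^ (n * E1 (v + v) (HH v n m) + 1) ∣ Sig p s' (Th v idx' f')) :=
    fun h => hprod (h.trans (map_dvd (Sig (p : ℤ) s') (map_dvd (Th v idx') hfd)))
  have hcfp : ¬ ((C (p : ℤ) : MvPolynomial (Fin (v + v)) ℤ) ^ (n + 1) ∣ C cf) := by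
    intro h
    rw [← C_pow] at h
    apply hcont p hp hP4
    rw [hff]
    exact Dvd.dvd.mul_right (map_dvd C (C_dvd_C h)) _
  have hSf : ¬ ((C (p : ℤ)) ^ (Ex v n m + 1) ∣ Sig p s' (Th v idx' f)) := by
    have h1 : Sig p s' (Th v idx' f) = C cf * Sig p s' (Th v idx' f') := by
      rw [hff, map_mul, map_mul, algHom_C, algebraMap_eq, algHom_C, algebraMap_eq]
    rw [h1]
    exact not_pow_dvd_mul hp hcfp hSf'
  obtain ⟨b, hb, hbf⟩ := exists_second hp hP2 s' (Th v idx' f) hSf
  refine ⟨fun t => s t + p * b t, fun t => ?_, ?_⟩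
  · have h1 := hs t
    have h2 := hb t
    have h3 : p * b t + p ≤ p * p := by
      calc p * b t + p = p * (b t + 1) := by ring
        _ ≤ p * p := Nat.mul_le_mul_left _ h2
    change s t + p * b t < p ^ 2
    rw [sq]
    omega
  · intro h
    apply hbf
    have h1 : eval (fun a => s' a + (p : ℤ) * (b a : ℤ)) (Th v idx' f)
        = eval (fun j => ∑ t : Fin v, ((s (Fin.castAdd v t) + p * b (Fin.castAdd v t) : ℕ) : ℤ) *
          ((s (Fin.natAdd v t) + p * b (Fin.natAdd v t) : ℕ) : ℤ) ^ idx j) f := by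
      have h2 : ((eval (fun a => s' a + (p : ℤ) * (b a : ℤ)) :
          MvPolynomial (Fin (v + v)) ℤ →+* ℤ).comp (Th v idx').toRingHom)
          = eval (fun j => ∑ t : Fin v, ((s (Fin.castAdd v t) + p * b (Fin.castAdd v t) : ℕ) : ℤ) *
          ((s (Fin.natAdd v t) + p * b (Fin.natAdd v t) : ℕ) : ℤ) ^ idx' j) := by
        apply MvPolynomial.ringHom_ext
        · intro z
          simp [Th]
        · intro j
          simp [Th, hs']
      have h3 : eval (fun a => s' a + (p : ℤ) * (b a : ℤ)) (Th v idx' f)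
          = eval (fun j => ∑ t : Fin v, ((s (Fin.castAdd v t) + p * b (Fin.castAdd v t) : ℕ) : ℤ) *
          ((s (Fin.natAdd v t) + p * b (Fin.natAdd v t) : ℕ) : ℤ) ^ idx' j) f := by
        rw [← h2]; rfl
      rw [h3]
      apply eval₂Hom_congr' rfl _ rfl
      intro j hj _
      rw [hidxV j (hV hj)]
    rw [h1]
    exact h

end Pool.Agent.H531R2
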