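import Mathlib

/-!
# Enough small primes
-/

set_option autoImplicit false

namespace Pool.Agent.H531R2

open Nat

theorem lcmUpto_le (n : ℕ) (hn : 1 ≤ n) : lcmUpto n ≤ n ^ (primesLE n).card := by
  rw [lcmUpto_eq_prod_pow_log]
  exact Finset.prod_le_pow_card _ _ n fun p _ => Nat.pow_log_le_self p (by omega)

theorem sq_add_one_le (K : ℕ) (hK : 5 ≤ K) : K ^ 2 + 1 ≤ 2 ^ K := by
  induction K, hK using Nat.le_induction with
  | base => norm_num
  | succ K hK ih =>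
    rw [pow_succ 2 K]
    nlinarith

theorem many_primes (N : ℕ) : N < (primesLE ((N + 5) ^ 2)).card := by
  by_contra hcon
  push Not at hcon
  set K := N + 5 with hK
  have h1 := Chebyshev.two_pow_le_mul_lcmUpto (K ^ 2)
  have hK1 : 1 ≤ K ^ 2 := Nat.one_le_pow _ _ (by omega)
  have h2 := lcmUpto_le (K ^ 2) hK1
  have h3 : (K ^ 2) ^ (primesLE (K ^ 2)).card ≤ (K ^ 2) ^ N := Nat.pow_le_pow_right hK1 hcon
  have h4 : (K ^ 2 + 1) * (K ^ 2) ^ N ≤ (K ^ 2 + 1) ^ (N + 1) := by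
    rw [pow_succ (K ^ 2 + 1), mul_comm]
    exact Nat.mul_le_mul_right _ (Nat.pow_le_pow_left (Nat.le_succ _) _)
  have h5 : (K ^ 2 + 1) ^ (N + 1) ≤ (2 ^ K) ^ (N + 1) :=
    Nat.pow_le_pow_left (sq_add_one_le K (by omega)) _
  have h6 : (2 ^ K) ^ (N + 1) < 2 ^ (K ^ 2) := by
    rw [← pow_mul]
    apply Nat.pow_lt_pow_right (by norm_num)
    rw [sq]
    apply Nat.mul_lt_mul_of_pos_left <;> omega
  have h7 : 2 ^ (K ^ 2) ≤ (K ^ 2 + 1) * (K ^ 2) ^ N :=
    h1.trans (Nat.mul_le_mul_left _ (h2.trans h3))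
  omega

/-- A prime that avoids the divisors of a number and is not too small. -/
theorem prime_choice (m D Δ : ℕ) (hΔ : Δ ≠ 0) (hD : Δ ≤ 2 ^ D) :
    ∃ p : ℕ, p.Prime ∧ ¬ (p ∣ Δ) ∧ m ≤ p ∧ p ≤ (m + D + 5) ^ 2 := by
  classical
  by_contra hcon
  push Not at hcon
  set X := (m + D + 5) ^ 2 with hX
  let P : Finset ℕ := (primesLE X).filter (fun p => m ≤ p)
  have h1 : (primesLE X).card ≤ P.card + m := by
    have h2 : primesLE X ⊆ P ∪ Finset.range m := by
      intro p hp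
      rw [Finset.mem_union, Finset.mem_filter, Finset.mem_range]
      by_cases h : m ≤ p
      · left; exact ⟨hp, h⟩
      · right; omega
    refine (Finset.card_le_card h2).trans ((Finset.card_union_le _ _).trans ?_)
    rw [Finset.card_range]
  have h3 := many_primes (m + D)
  rw [← hX] at h3
  have h4 : ∀ p ∈ P, p.Prime ∧ p ∣ Δ := by
    intro p hp
    rw [Finset.mem_filter, Nat.mem_primesLE] at hp
    refine ⟨hp.1.2, ?_⟩
    by_contra h
    have := hcon p hp.1.2 h hp.2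
    omega
  have h5 : ∏ p ∈ P, p ∣ Δ :=
    Finset.prod_primes_dvd Δ (fun p hp => (h4 p hp).1.prime) (fun p hp => (h4 p hp).2)
  have h6 : 2 ^ P.card ≤ ∏ p ∈ P, p := by
    rw [← Finset.prod_const]
    exact Finset.prod_le_prod (fun _ _ => Nat.zero_le _) fun p hp => (h4 p hp).1.two_le
  have h7 := Nat.le_of_dvd (Nat.pos_of_ne_zero hΔ) h5
  have h8 : 2 ^ P.card ≤ 2 ^ D := h6.trans (h7.trans hD)
  have h9 := (Nat.pow_le_pow_iff_right (by norm_num : 1 < 2)).1 h8
  omega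

end Pool.Agent.H531R2
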