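import Pool.Agent.H531R2.Circ
import Pool.Agent.H531R2.Hit2
import Pool.Agent.H531R2.Primes
import Pool.Agent.H671R2.PolyAuto
import Pool.Agent.H687R2.IntPoly
import Pool.Agent.NPC.Dec

/-!
# The algorithm
-/

set_option autoImplicit false

namespace Pool.Agent.H531R2

open MvPolynomial Pool.Agent.NPC

/-- The number of the variable `x_j` in the circuit. -/
def idx (C : List Gate) (j : ℕ) : ℕ :=
  ((C.zipIdx.filter (fun q => decide (q.1 = Gate.var j))).head?).elim 0 (fun q => q.2)

/-- The value of a variable. -/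
def xv (i : ℕ) (A : List (ℕ × ℕ)) : ℕ := (A.map fun p => p.1 * p.2 ^ i).sum

/-- The value of a gate. -/
def gv (q : ℕ) (A : List (ℕ × ℕ)) (C : List Gate) (l : List ℕ) (c : ℕ × ℕ × ℕ) : ℕ :=
  if c.1 = 0 then 0 else if c.1 = 1 then 1 else if c.1 = 2 then xv (idx C c.2.1) A
  else if c.1 = 3 then l.getD c.2.1 0 + l.getD c.2.2 0
  else if c.1 = 4 then l.getD c.2.1 0 + (q + 1 - l.getD c.2.2 0)
  else l.getD c.2.1 0 * l.getD c.2.2 0

/-- The values of all gates modulo `q + 1`. -/
def nvals (q : ℕ) (A : List (ℕ × ℕ)) (C : List Gate) : List ℕ :=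
  C.foldl (fun l g => l ++ [gv q A C l g.code % (q + 1)]) []

/-- The value of the circuit modulo `q + 1`. -/
def nlast (q : ℕ) (A : List (ℕ × ℕ)) (C : List Gate) : ℕ := ((nvals q A C).reverse.head?).getD 0

/-- The syntactic test for one gate. -/
def okB (i : ℕ) (c : ℕ × ℕ × ℕ) : Bool :=
  decide (c.1 < 3) || (decide (c.2.1 < i) && decide (c.2.2 < i))

/-- The syntactic test. -/
def wfB (C : List Gate) : Bool := !C.isEmpty && C.zipIdx.all (fun p => okB p.2 p.1.code)

/-- All lists of length `v` with entries in `R`. -/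
def pts : ℕ → List (ℕ × ℕ) → List (List (ℕ × ℕ))
  | 0, _ => [[]]
  | v + 1, R => R.flatMap fun a => (pts v R).map fun A => a :: A

/-- All pairs of entries of `R`. -/
def prs (R : List ℕ) : List (ℕ × ℕ) := R.flatMap fun a => R.map fun b => (a, b)

/-- The test. -/
def test (v : ℕ) (P R : List ℕ) (E : ℕ) (C : List Gate) : Bool :=
  wfB C && P.all fun p => (pts v (prs R)).all fun A => decide (nlast ((p + 2) ^ E - 1) A C = 0)

/-! ### Correctness -/

theorem okB_iff (i : ℕ) (g : Gate) : okB i g.code = true ↔ g.Ok i := by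
  cases g <;> simp [okB, Gate.code, Gate.Ok]

theorem wfB_iff (C : List Gate) : wfB C = true ↔ WF C := by
  rw [wfB, WF, Bool.and_eq_true, List.all_eq_true]
  constructor
  · rintro ⟨h1, h2⟩
    refine ⟨?_, fun i g hg => ?_⟩
    · intro h
      rw [h] at h1
      simp at h1
    · have := h2 (g, i) (by
        rw [List.mem_zipIdx_iff_getElem?]
        exact hg)
      exact (okB_iff i g).1 this
  · rintro ⟨h1, h2⟩
    refine ⟨by simpa using h1, ?_⟩
    rintro ⟨g, i⟩ hg
    rw [List.mem_zipIdx_iff_getElem?] at hg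
    exact (okB_iff i g).2 (h2 i g hg)

theorem idx_spec {C : List Gate} {j : ℕ} (h : Gate.var j ∈ C) : C[idx C j]? = some (Gate.var j) := by
  rw [idx]
  cases h1 : (C.zipIdx.filter (fun q => decide (q.1 = Gate.var j))).head? with
  | none =>
    rw [List.head?_eq_none_iff, List.filter_eq_nil_iff] at h1
    obtain ⟨i, hi⟩ := List.getElem?_of_mem h
    exact absurd (by simp) (h1 (Gate.var j, i) (by rw [List.mem_zipIdx_iff_getElem?]; exact hi))
  | some q =>
    have h2 := List.mem_of_mem_head? (Option.mem_def.2 h1)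
    rw [List.mem_filter, List.mem_zipIdx_iff_getElem?] at h2
    simp only [decide_eq_true_eq] at h2
    simp only [Option.elim]
    rw [h2.1, h2.2]

theorem idx_injOn (C : List Gate) : Set.InjOn (idx C) (cvars C) := by
  intro i hi j hj h
  have h1 := idx_spec (mem_cvars.1 (Finset.mem_coe.1 hi))
  have h2 := idx_spec (mem_cvars.1 (Finset.mem_coe.1 hj))
  rw [h, h2] at h1
  simpa using h1.symm

theorem idx_lt {C : List Gate} {j : ℕ} (h : j ∈ cvars C) : idx C j < C.length := by
  have h1 := idx_spec (mem_cvars.1 h)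
  by_contra hcon
  push Not at hcon
  rw [List.getElem?_eq_none hcon] at h1
  exact absurd h1 (by simp)

theorem idx_le (C : List Gate) (j : ℕ) : idx C j ≤ C.length := by
  rw [idx]
  cases h1 : (C.zipIdx.filter (fun q => decide (q.1 = Gate.var j))).head? with
  | none => exact Nat.zero_le _
  | some q =>
    have h2 := List.mem_of_mem_head? (Option.mem_def.2 h1)
    rw [List.mem_filter, List.mem_zipIdx_iff_getElem?] at h2
    simp only [Option.elim]
    by_contra hcon
    push Not at hcon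
    rw [List.getElem?_eq_none hcon.le] at h2
    exact absurd h2.1 (by simp)

/-- The point used by the algorithm. -/
def pt (C : List Gate) (A : List (ℕ × ℕ)) (j : ℕ) : ℤ :=
  (A.map fun p => (p.1 : ℤ) * (p.2 : ℤ) ^ idx C j).sum

theorem xv_cast (q i : ℕ) (A : List (ℕ × ℕ)) :
    ((xv i A : ℕ) : ZMod (q + 1)) = (((A.map fun p => (p.1 : ℤ) * (p.2 : ℤ) ^ i).sum : ℤ) :
      ZMod (q + 1)) := by
  induction A with
  | nil => simp [xv]
  | cons a A ih =>
    rw [List.map_cons, List.sum_cons, Int.cast_add, ← ih]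
    change ((a.1 * a.2 ^ i + xv i A : ℕ) : ZMod (q + 1)) = _
    rw [Nat.cast_add, Nat.cast_mul, Nat.cast_pow, Int.cast_mul, Int.cast_pow, Int.cast_natCast,
      Int.cast_natCast]

theorem getD_map_cast (q : ℕ) (l : List ℕ) (a : ℕ) :
    ((l.getD a 0 : ℕ) : ZMod (q + 1)) = (l.map (fun z : ℕ => (z : ZMod (q + 1)))).getD a 0 := by
  rw [List.getD_eq_getElem?_getD, List.getD_eq_getElem?_getD, List.getElem?_map]
  cases l[a]? <;> simp

theorem getD_le {q : ℕ} {l : List ℕ} (h : ∀ z ∈ l, z ≤ q) (a : ℕ) : l.getD a 0 ≤ q := by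
  rw [List.getD_eq_getElem?_getD]
  cases h1 : l[a]? with
  | none => simp
  | some z => exact h z (List.mem_of_getElem? h1)

theorem gv_cast (q : ℕ) (A : List (ℕ × ℕ)) (C : List Gate) (l : List ℕ) (hl : ∀ z ∈ l, z ≤ q) (g : Gate) :
    ((gv q A C l g.code : ℕ) : ZMod (q + 1))
      = g.val (fun j => ((pt C A j : ℤ) : ZMod (q + 1))) (l.map (fun z : ℕ => (z : ZMod (q + 1)))) := by
  cases g with
  | zero =>
    change ((0 : ℕ) : ZMod (q + 1)) = 0
    simp
  | one =>
    change ((1 : ℕ) : ZMod (q + 1)) = 1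
    simp
  | var j => exact xv_cast q (idx C j) A
  | add a b =>
    change ((l.getD a 0 + l.getD b 0 : ℕ) : ZMod (q + 1)) = _
    rw [Gate.val, Nat.cast_add, getD_map_cast, getD_map_cast]
  | sub a b =>
    change ((l.getD a 0 + (q + 1 - l.getD b 0) : ℕ) : ZMod (q + 1)) = _
    have h1 : l.getD b 0 ≤ q + 1 := (getD_le hl b).trans (Nat.le_succ q)
    rw [Gate.val, Nat.cast_add, Nat.cast_sub h1, getD_map_cast, getD_map_cast, ZMod.natCast_self]
    ring
  | mul a b =>
    change ((l.getD a 0 * l.getD b 0 : ℕ) : ZMod (q + 1)) = _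
    rw [Gate.val, Nat.cast_mul, getD_map_cast, getD_map_cast]

theorem foldl_nvals_le (q : ℕ) (A : List (ℕ × ℕ)) (C C' : List Gate) : ∀ l : List ℕ, (∀ z ∈ l, z ≤ q) →
    ∀ z ∈ C'.foldl (fun l g => l ++ [gv q A C l g.code % (q + 1)]) l, z ≤ q := by
  induction C' with
  | nil => intro l hl; exact hl
  | cons g C' ih =>
    intro l hl
    rw [List.foldl_cons]
    apply ih
    intro z hz
    rw [List.mem_append, List.mem_singleton] at hz
    rcases hz with hz | hz
    · exact hl z hz
    · rw [hz]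
      exact Nat.lt_succ_iff.1 (Nat.mod_lt _ (Nat.succ_pos q))

theorem foldl_nvals_cast (q : ℕ) (A : List (ℕ × ℕ)) (C C' : List Gate) : ∀ l : List ℕ,
    (∀ z ∈ l, z ≤ q) →
    (C'.foldl (fun l g => l ++ [gv q A C l g.code % (q + 1)]) l).map
      (fun z : ℕ => (z : ZMod (q + 1)))
    = C'.foldl (fun l g => l ++ [g.val (fun j => ((pt C A j : ℤ) : ZMod (q + 1))) l])
      (l.map (fun z : ℕ => (z : ZMod (q + 1)))) := by
  induction C' with
  | nil => intro l _; rfl
  | cons g C' ih =>
    intro l hl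
    rw [List.foldl_cons, List.foldl_cons, ih]
    · rw [List.map_append, List.map_cons, List.map_nil, ZMod.natCast_mod, gv_cast q A C l hl]
    · exact foldl_nvals_le q A C [g] l hl

theorem foldl_nvals_length (q : ℕ) (A : List (ℕ × ℕ)) (C C' : List Gate) : ∀ l : List ℕ,
    (C'.foldl (fun l g => l ++ [gv q A C l g.code % (q + 1)]) l).length = l.length + C'.length := by
  induction C' with
  | nil => intro l; rfl
  | cons g C' ih =>
    intro l
    rw [List.foldl_cons, ih]
    simp
    omega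

theorem nlast_cast (q : ℕ) (A : List (ℕ × ℕ)) (C : List Gate) :
    ((nlast q A C : ℕ) : ZMod (q + 1))
      = cval (fun j => ((pt C A j : ℤ) : ZMod (q + 1))) C := by
  have h := foldl_nvals_cast q A C C [] (by simp)
  rw [List.map_nil] at h
  rw [nlast, cval, vals, ← h, List.getLastD_eq_getLast?, List.getLast?_map,
    ← List.head?_reverse]
  change _ = (Option.map _ ((nvals q A C).reverse.head?)).getD 0
  cases (nvals q A C).reverse.head? <;> simp

theorem nlast_le (q : ℕ) (A : List (ℕ × ℕ)) (C : List Gate) : nlast q A C ≤ q := by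
  rw [nlast]
  cases h : (nvals q A C).reverse.head? with
  | none => simp
  | some z =>
    have h1 := List.mem_of_mem_head? (Option.mem_def.2 h)
    rw [List.mem_reverse] at h1
    exact foldl_nvals_le q A C C [] (by simp) z h1

/-- The test of one point is the divisibility of the value of the polynomial. -/
theorem nlast_eq_zero_iff (q : ℕ) (A : List (ℕ × ℕ)) (C : List Gate) :
    nlast q A C = 0 ↔ ((q + 1 : ℕ) : ℤ) ∣ eval (pt C A) (cpoly C) := by
  rw [← ZMod.intCast_zmod_eq_zero_iff_dvd, eval_cpoly]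
  have h1 := map_cval (Int.castRingHom (ZMod (q + 1))) (pt C A) C
  simp only [eq_intCast] at h1
  rw [h1, ← nlast_cast, ZMod.natCast_eq_zero_iff]
  constructor
  · intro h; rw [h]; exact dvd_zero _
  · intro h
    exact Nat.eq_zero_of_dvd_of_lt h (Nat.lt_succ_iff.2 (nlast_le q A C))

theorem mem_prs {R : List ℕ} {p : ℕ × ℕ} : p ∈ prs R ↔ p.1 ∈ R ∧ p.2 ∈ R := by
  rw [prs, List.mem_flatMap]
  constructor
  · rintro ⟨a, ha, h⟩
    rw [List.mem_map] at h
    obtain ⟨b, hb, rfl⟩ := h
    exact ⟨ha, hb⟩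
  · rintro ⟨h1, h2⟩
    exact ⟨p.1, h1, List.mem_map.2 ⟨p.2, h2, rfl⟩⟩

theorem mem_pts {v : ℕ} {R A : List (ℕ × ℕ)} : A ∈ pts v R ↔ A.length = v ∧ ∀ a ∈ A, a ∈ R := by
  induction v generalizing A with
  | zero =>
    rw [pts, List.mem_singleton]
    constructor
    · rintro rfl; simp
    · rintro ⟨h, -⟩; exact List.length_eq_zero_iff.1 h
  | succ v ih =>
    rw [pts, List.mem_flatMap]
    constructor
    · rintro ⟨a, ha, hA⟩
      rw [List.mem_map] at hA
      obtain ⟨A', hA', rfl⟩ := hA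
      rw [ih] at hA'
      refine ⟨by simp [hA'.1], ?_⟩
      intro b hb
      rcases List.mem_cons.1 hb with rfl | hb
      · exact ha
      · exact hA'.2 b hb
    · rintro ⟨h1, h2⟩
      cases A with
      | nil => simp at h1
      | cons a A' =>
        refine ⟨a, h2 a (by simp), ?_⟩
        rw [List.mem_map]
        exact ⟨A', ih.2 ⟨by simpa using h1, fun b hb => h2 b (List.mem_cons_of_mem _ hb)⟩, rfl⟩

theorem pt_ofFn {v : ℕ} (C : List Gate) (a : Fin (v + v) → ℕ) (j : ℕ) :
    pt C (List.ofFn fun t : Fin v => (a (Fin.castAdd v t), a (Fin.natAdd v t))) j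
      = ∑ t : Fin v, (a (Fin.castAdd v t) : ℤ) * (a (Fin.natAdd v t) : ℤ) ^ idx C j := by
  rw [pt, List.map_ofFn, List.sum_ofFn]
  rfl

/-- The test accepts all circuits of the zero polynomial. -/
theorem test_of_zero (v : ℕ) (P R : List ℕ) (E : ℕ) (C : List Gate) (hC : WF C)
    (h : cpoly C = 0) : test v P R E C = true := by
  rw [test, Bool.and_eq_true, (wfB_iff C).2 hC, List.all_eq_true]
  refine ⟨rfl, fun p _ => ?_⟩
  rw [List.all_eq_true]
  intro A _
  rw [decide_eq_true_eq, nlast_eq_zero_iff, h, map_zero]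
  exact dvd_zero _

/-- The bound for the primes. -/
def XX (v n m : ℕ) : ℕ := (PP v n m + DD v n + 5) ^ 2

/-- The test rejects all circuits of tame polynomials. -/
theorem test_of_tame {v n m : ℕ} (P R : List ℕ) (C : List Gate) (hm : C.length ≤ m)
    (hP : ∀ p ≤ XX v n m, p ∈ P) (hR : ∀ a < XX v n m ^ 2, a ∈ R)
    (hf : Tame v n (cpoly C)) : test v P R (Ex v n m + 1) C = false := by
  obtain ⟨Δ, hΔ0, hΔ, hΔp⟩ := hit hf (cvars C) (vars_cpoly C) (idx C) (idx_injOn C) m
    (fun j hj => (idx_lt hj).trans_le hm)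
  obtain ⟨p, hp, hpΔ, hpm, hpX⟩ := prime_choice (PP v n m) (DD v n) Δ hΔ0 hΔ
  obtain ⟨a, ha, had⟩ := hΔp p hp hpΔ hpm
  by_contra h
  rw [Bool.not_eq_false, test, Bool.and_eq_true, List.all_eq_true] at h
  have hpX' : p ≤ XX v n m := hpX
  have h1 := h.2 (p - 2) (hP _ (by omega))
  rw [List.all_eq_true] at h1
  have hpR : ∀ z < p ^ 2, z ∈ R := fun z hz =>
    hR z (lt_of_lt_of_le hz (Nat.pow_le_pow_left hpX' 2))
  have h2 := h1 (List.ofFn fun t : Fin v => (a (Fin.castAdd v t), a (Fin.natAdd v t))) (by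
    rw [mem_pts]
    refine ⟨by simp, ?_⟩
    intro z hz
    rw [List.mem_ofFn] at hz
    obtain ⟨t, rfl⟩ := hz
    rw [mem_prs]
    exact ⟨hpR _ (ha _), hpR _ (ha _)⟩)
  rw [decide_eq_true_eq, nlast_eq_zero_iff] at h2
  apply had
  have h3 : p - 2 + 2 = p := Nat.sub_add_cancel hp.two_le
  have h4 : p ^ (Ex v n m + 1) - 1 + 1 = p ^ (Ex v n m + 1) :=
    Nat.sub_add_cancel (Nat.one_le_pow _ _ hp.pos)
  rw [h3, h4] at h2
  have h5 : (fun j => ∑ t : Fin v, (a (Fin.castAdd v t) : ℤ) *
      (a (Fin.natAdd v t) : ℤ) ^ idx C j)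
      = pt C (List.ofFn fun t : Fin v => (a (Fin.castAdd v t), a (Fin.natAdd v t))) := by
    funext j
    rw [pt_ofFn]
  rw [h5]
  exact_mod_cast h2

end Pool.Agent.H531R2
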