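import Pool.Agent.H531R2.Alg

/-!
# The algorithm runs in polynomial time
-/

set_option autoImplicit false

namespace Pool.Agent.H531R2

open Pool.Agent.NPC

variable {α : Type} [TEnc α]

theorem poly_code {f : α → Gate} (hf : NPC.Poly f) : NPC.Poly (fun a => (f a).code) := hf

theorem poly_of_code {f : α → Gate} (hf : NPC.Poly (fun a => (f a).code)) : NPC.Poly f := hf

theorem poly_var {f : α → ℕ} (hf : NPC.Poly f) : NPC.Poly (fun a => Gate.var (f a)) :=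
  poly_of_code (NPC.Poly.pair (NPC.Poly.const 2) (NPC.Poly.pair hf (NPC.Poly.const 0)))

/-- Decoding of gates. -/
def decGate (c : ℕ × ℕ × ℕ) : Option Gate :=
  if c.1 = 0 ∧ c.2 = (0, 0) then some Gate.zero
  else if c.1 = 1 ∧ c.2 = (0, 0) then some Gate.one
  else if c.1 = 2 ∧ c.2.2 = 0 then some (Gate.var c.2.1)
  else if c.1 = 3 then some (Gate.add c.2.1 c.2.2)
  else if c.1 = 4 then some (Gate.sub c.2.1 c.2.2)
  else if c.1 = 5 then some (Gate.mul c.2.1 c.2.2)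
  else none

theorem poly_decGate : NPC.Poly decGate := by
  have h1 : NPC.Poly (fun c : ℕ × ℕ × ℕ => c.1) := NPC.Poly.fst NPC.Poly.id
  have h2 : NPC.Poly (fun c : ℕ × ℕ × ℕ => c.2.1) := NPC.Poly.fst (NPC.Poly.snd NPC.Poly.id)
  have h3 : NPC.Poly (fun c : ℕ × ℕ × ℕ => c.2.2) := NPC.Poly.snd (NPC.Poly.snd NPC.Poly.id)
  have h4 : NPC.Poly (fun c : ℕ × ℕ × ℕ => c.2) := NPC.Poly.snd NPC.Poly.id
  have e : ∀ k : ℕ, NPC.Poly (fun c : ℕ × ℕ × ℕ => decide (c.1 = k)) := fun k =>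
    NPC.Poly.decide_eq h1 (NPC.Poly.const k)
  refine NPC.Poly.ite (NPC.Poly.decide_and (e 0) (NPC.Poly.decide_eq h4 (NPC.Poly.const (0, 0)))) ?_
    (NPC.Poly.ite (NPC.Poly.decide_and (e 1) (NPC.Poly.decide_eq h4 (NPC.Poly.const (0, 0)))) ?_
    (NPC.Poly.ite (NPC.Poly.decide_and (e 2) (NPC.Poly.decide_eq h3 (NPC.Poly.const 0))) ?_
    (NPC.Poly.ite (e 3) ?_ (NPC.Poly.ite (e 4) ?_ (NPC.Poly.ite (e 5) ?_ (NPC.Poly.const none))))))
  · exact NPC.Poly.const _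
  · exact NPC.Poly.const _
  · exact NPC.Poly.some (poly_var h2)
  · exact NPC.Poly.some (poly_of_code (NPC.Poly.pair (NPC.Poly.const 3) (NPC.Poly.pair h2 h3)))
  · exact NPC.Poly.some (poly_of_code (NPC.Poly.pair (NPC.Poly.const 4) (NPC.Poly.pair h2 h3)))
  · exact NPC.Poly.some (poly_of_code (NPC.Poly.pair (NPC.Poly.const 5) (NPC.Poly.pair h2 h3)))

instance : TDec Gate := TDec.of Gate.code decGate (fun _ => rfl)
  (by intro g; cases g <;> simp [decGate, Gate.code])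
  (by
    rintro ⟨c, a, b⟩ g h
    simp only [decGate] at h
    split_ifs at h with h1 h2 h3 h4 h5 h6
    · obtain ⟨rfl, h⟩ := h1
      simp only [Option.some.injEq] at *
      subst_vars
      simp_all [Gate.code]
    · obtain ⟨rfl, h⟩ := h2
      simp only [Option.some.injEq] at *
      subst_vars
      simp_all [Gate.code]
    · obtain ⟨rfl, rfl⟩ := h3
      simp only [Option.some.injEq] at h
      subst h
      rfl
    · simp only [Option.some.injEq] at h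
      subst h h4
      rfl
    · simp only [Option.some.injEq] at h
      subst h h5
      rfl
    · simp only [Option.some.injEq] at h
      subst h h6
      rfl)
  poly_decGate

theorem poly_idx {C : α → List Gate} {j : α → ℕ} (hC : NPC.Poly C) (hj : NPC.Poly j) :
    NPC.Poly (fun a => idx (C a) (j a)) := by
  have h1 : NPC.Poly (fun p : α × (Gate × ℕ) => decide (p.2.1 = Gate.var (j p.1))) :=
    NPC.Poly.decide_eq (NPC.Poly.fst (NPC.Poly.snd NPC.Poly.id))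
      (poly_var (hj.comp (NPC.Poly.fst NPC.Poly.id)))
  have h2 : NPC.Poly (fun a => (C a).zipIdx) := NPC.Poly.zipIdx hC
  have h3 : NPC.Poly (fun a => (C a).zipIdx.filter
      (fun q : Gate × ℕ => decide (q.1 = Gate.var (j a)))) :=
    NPC.Poly.filter (p := fun a (q : Gate × ℕ) => decide (q.1 = Gate.var (j a))) h2 h1
  have h4 := NPC.Poly.head? h3
  have h5 : NPC.Poly (fun p : α × (Gate × ℕ) => p.2.2) :=
    NPC.Poly.snd (NPC.Poly.snd NPC.Poly.id)
  exact NPC.Poly.optElim (g := fun _ => 0) (h := fun _ q => q.2) h4 (NPC.Poly.const 0) h5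

theorem uPoly_idx {C : α → List Gate} {j : α → ℕ} (hC : NPC.Poly C) (hj : NPC.Poly j) :
    UPoly (fun a => idx (C a) (j a)) :=
  UPoly.of_le (poly_idx hC hj) (UPoly.length hC) (fun a => idx_le (C a) (j a))

theorem poly_xv {i : α → ℕ} {A : α → List (ℕ × ℕ)} (hi : UPoly i) (hA : NPC.Poly A) :
    NPC.Poly (fun a => xv (i a) (A a)) := by
  have h1 : UPoly (fun p : α × (ℕ × ℕ) => i p.1) := hi.comp (NPC.Poly.fst NPC.Poly.id)
  have h2 : NPC.Poly (fun p : α × (ℕ × ℕ) => p.2.1) := NPC.Poly.fst (NPC.Poly.snd NPC.Poly.id)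
  have h3 : NPC.Poly (fun p : α × (ℕ × ℕ) => p.2.2) := NPC.Poly.snd (NPC.Poly.snd NPC.Poly.id)
  have h4 : NPC.Poly (fun p : α × (ℕ × ℕ) => p.2.1 * p.2.2 ^ i p.1) :=
    NPC.Poly.mul h2 (NPC.Poly.npow h3 h1)
  have h5 : NPC.Poly (fun a => (A a).map fun p => p.1 * p.2 ^ i a) :=
    NPC.Poly.map (F := fun a (p : ℕ × ℕ) => p.1 * p.2 ^ i a) hA h4
  exact NPC.Poly.sum h5

theorem poly_gv {q : α → ℕ} {A : α → List (ℕ × ℕ)} {C : α → List Gate} {l : α → List ℕ}
    {c : α → ℕ × ℕ × ℕ} (hq : NPC.Poly q) (hA : NPC.Poly A) (hC : NPC.Poly C) (hl : NPC.Poly l)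
    (hc : NPC.Poly c) : NPC.Poly (fun a => gv (q a) (A a) (C a) (l a) (c a)) := by
  have h1 : NPC.Poly (fun a => (c a).1) := NPC.Poly.fst hc
  have h2 : NPC.Poly (fun a => (c a).2.1) := NPC.Poly.fst (NPC.Poly.snd hc)
  have h3 : NPC.Poly (fun a => (c a).2.2) := NPC.Poly.snd (NPC.Poly.snd hc)
  have e : ∀ k : ℕ, NPC.Poly (fun a => decide ((c a).1 = k)) := fun k =>
    NPC.Poly.decide_eq h1 (NPC.Poly.const k)
  have ga : NPC.Poly (fun a => (l a).getD (c a).2.1 0) := NPC.Poly.getD hl h2 (NPC.Poly.const 0)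
  have gb : NPC.Poly (fun a => (l a).getD (c a).2.2 0) := NPC.Poly.getD hl h3 (NPC.Poly.const 0)
  have f5 := NPC.Poly.mul ga gb
  have f4 := NPC.Poly.add ga (NPC.Poly.sub (NPC.Poly.add hq (NPC.Poly.const 1)) gb)
  have f3 := NPC.Poly.add ga gb
  have f2 := poly_xv (uPoly_idx hC h2) hA
  have g4 := NPC.Poly.ite (e 4) f4 f5
  have g3 := NPC.Poly.ite (e 3) f3 g4
  have g2 := NPC.Poly.ite (e 2) f2 g3
  have g1 := NPC.Poly.ite (e 1) (NPC.Poly.const 1) g2
  exact NPC.Poly.ite (e 0) (NPC.Poly.const 0) g1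

theorem poly_nvals {q : α → ℕ} {A : α → List (ℕ × ℕ)} {C : α → List Gate} (hq : NPC.Poly q) (hA : NPC.Poly A)
    (hC : NPC.Poly C) : NPC.Poly (fun a => nvals (q a) (A a) (C a)) := by
  obtain ⟨r, hr⟩ := hq.sz_le
  obtain ⟨r', hr'⟩ := hC.sz_le
  unfold nvals
  refine NPC.Poly.foldl (F := fun a l g => l ++ [gv (q a) (A a) (C a) l g.code % (q a + 1)]) hC
    (NPC.Poly.const []) ?_ (r' * (Polynomial.C 2 * r + Polynomial.C 1) + Polynomial.C 1) ?_
  · have h1 : NPC.Poly (fun p : α × List ℕ × Gate => p.2.1) := NPC.Poly.fst (NPC.Poly.snd NPC.Poly.id)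
    have h2 : NPC.Poly (fun p : α × List ℕ × Gate => p.2.2.code) :=
      poly_code (NPC.Poly.snd (NPC.Poly.snd NPC.Poly.id))
    have h3 : NPC.Poly (fun p : α × List ℕ × Gate => q p.1) := hq.comp (NPC.Poly.fst NPC.Poly.id)
    have h4 : NPC.Poly (fun p : α × List ℕ × Gate => A p.1) := hA.comp (NPC.Poly.fst NPC.Poly.id)
    have h5 : NPC.Poly (fun p : α × List ℕ × Gate => C p.1) := hC.comp (NPC.Poly.fst NPC.Poly.id)
    have h6 := poly_gv h3 h4 h5 h1 h2
    have h7 := NPC.Poly.mod h6 (NPC.Poly.add h3 (NPC.Poly.const 1))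
    exact NPC.Poly.append h1 (NPC.Poly.cons h7 (NPC.Poly.const []))
  · intro a k hk
    have h1 := foldl_nvals_le (q a) (A a) (C a) ((C a).take k) [] (by simp)
    have h2 := foldl_nvals_length (q a) (A a) (C a) ((C a).take k) []
    have h3 := sz_le_length_mul _ (2 * sz (q a)) (fun z hz => sz_nat_mono_le (h1 z hz))
    have h4 := length_lt_sz (C a)
    have h5 := hr' a
    have h6 := hr a
    rw [h2, List.length_nil, zero_add, List.length_take] at h3
    simp only [Polynomial.eval_add, Polynomial.eval_mul, Polynomial.eval_C]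
    refine h3.trans ?_
    have h7 : min k (C a).length ≤ r'.eval (sz a) := by omega
    have h8 : min k (C a).length * (2 * sz (q a) + 1)
        ≤ r'.eval (sz a) * (2 * r.eval (sz a) + 1) := Nat.mul_le_mul h7 (by omega)
    omega

theorem poly_nlast {q : α → ℕ} {A : α → List (ℕ × ℕ)} {C : α → List Gate} (hq : NPC.Poly q)
    (hA : NPC.Poly A) (hC : NPC.Poly C) : NPC.Poly (fun a => nlast (q a) (A a) (C a)) := by
  have h1 := poly_nvals hq hA hC
  have h2 := NPC.Poly.head? (NPC.Poly.reverse h1)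
  exact NPC.Poly.optGetD (g := fun _ => 0) h2 (NPC.Poly.const 0)

theorem poly_wfB {C : α → List Gate} (hC : NPC.Poly C) : NPC.Poly (fun a => wfB (C a)) := by
  have h1 : NPC.Poly (fun p : α × Gate × ℕ => p.2.1.code) :=
    poly_code (NPC.Poly.fst (NPC.Poly.snd NPC.Poly.id))
  have h2 : NPC.Poly (fun p : α × Gate × ℕ => p.2.2) := NPC.Poly.snd (NPC.Poly.snd NPC.Poly.id)
  have h3 : NPC.Poly (fun p : α × Gate × ℕ => p.2.1.code.1) := NPC.Poly.fst h1
  have h4 : NPC.Poly (fun p : α × Gate × ℕ => p.2.1.code.2.1) := NPC.Poly.fst (NPC.Poly.snd h1)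
  have h5 : NPC.Poly (fun p : α × Gate × ℕ => p.2.1.code.2.2) := NPC.Poly.snd (NPC.Poly.snd h1)
  have h6 : NPC.Poly (fun p : α × Gate × ℕ => okB p.2.2 p.2.1.code) :=
    NPC.Poly.or (NPC.Poly.decide_lt h3 (NPC.Poly.const 3))
      (NPC.Poly.and (NPC.Poly.decide_lt h4 h2) (NPC.Poly.decide_lt h5 h2))
  have h7 : NPC.Poly (fun a => (C a).zipIdx.all fun p => okB p.2 p.1.code) :=
    NPC.Poly.all (p := fun _ (p : Gate × ℕ) => okB p.2 p.1.code) (NPC.Poly.zipIdx hC) h6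
  exact NPC.Poly.and (NPC.Poly.not (NPC.Poly.isEmpty hC)) h7

theorem poly_pts (v : ℕ) {R : α → List (ℕ × ℕ)} (hR : NPC.Poly R) :
    NPC.Poly (fun a => pts v (R a)) := by
  induction v with
  | zero => exact NPC.Poly.const [[]]
  | succ v ih =>
    have h1 : NPC.Poly (fun p : α × (ℕ × ℕ) => pts v (R p.1)) :=
      ih.comp (NPC.Poly.fst NPC.Poly.id)
    have h2 : NPC.Poly (fun q : (α × (ℕ × ℕ)) × List (ℕ × ℕ) => q.1.2 :: q.2) :=
      NPC.Poly.cons (NPC.Poly.snd (NPC.Poly.fst NPC.Poly.id)) (NPC.Poly.snd NPC.Poly.id)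
    have h3 : NPC.Poly (fun p : α × (ℕ × ℕ) => (pts v (R p.1)).map fun A => p.2 :: A) :=
      NPC.Poly.map (F := fun (p : α × (ℕ × ℕ)) A => p.2 :: A) h1 h2
    exact NPC.Poly.flatMap (F := fun a b => (pts v (R a)).map fun A => b :: A) hR h3

theorem poly_prs {R : α → List ℕ} (hR : NPC.Poly R) : NPC.Poly (fun a => prs (R a)) := by
  have h1 : NPC.Poly (fun p : α × ℕ => R p.1) := hR.comp (NPC.Poly.fst NPC.Poly.id)
  have h2 : NPC.Poly (fun q : (α × ℕ) × ℕ => (q.1.2, q.2)) :=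
    NPC.Poly.pair (NPC.Poly.snd (NPC.Poly.fst NPC.Poly.id)) (NPC.Poly.snd NPC.Poly.id)
  have h3 : NPC.Poly (fun p : α × ℕ => (R p.1).map fun b => (p.2, b)) :=
    NPC.Poly.map (F := fun (p : α × ℕ) b => (p.2, b)) h1 h2
  exact NPC.Poly.flatMap (F := fun a x => (R a).map fun b => (x, b)) hR h3

theorem poly_test (v : ℕ) {P R : α → List ℕ} {E : α → ℕ} {C : α → List Gate} (hP : NPC.Poly P)
    (hR : NPC.Poly R) (hE : UPoly E) (hC : NPC.Poly C) :
    NPC.Poly (fun a => test v (P a) (R a) (E a) (C a)) := by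
  have h1 : NPC.Poly (fun p : α × ℕ => pts v (prs (R p.1))) :=
    (poly_pts v (poly_prs hR)).comp (NPC.Poly.fst NPC.Poly.id)
  have h2 : NPC.Poly (fun p : (α × ℕ) × List (ℕ × ℕ) => p.1.2 + 2) :=
    NPC.Poly.add (NPC.Poly.snd (NPC.Poly.fst NPC.Poly.id)) (NPC.Poly.const 2)
  have h3 : UPoly (fun p : (α × ℕ) × List (ℕ × ℕ) => E p.1.1) :=
    hE.comp (NPC.Poly.fst (NPC.Poly.fst NPC.Poly.id))
  have h4 : NPC.Poly (fun p : (α × ℕ) × List (ℕ × ℕ) => C p.1.1) :=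
    hC.comp (NPC.Poly.fst (NPC.Poly.fst NPC.Poly.id))
  have h5 : NPC.Poly (fun p : (α × ℕ) × List (ℕ × ℕ) => (p.1.2 + 2) ^ E p.1.1 - 1) :=
    NPC.Poly.sub (NPC.Poly.npow h2 h3) (NPC.Poly.const 1)
  have h6 : NPC.Poly (fun p : (α × ℕ) × List (ℕ × ℕ) =>
      nlast ((p.1.2 + 2) ^ E p.1.1 - 1) p.2 (C p.1.1)) :=
    poly_nlast h5 (NPC.Poly.snd NPC.Poly.id) h4
  have h7 : NPC.Poly (fun p : (α × ℕ) × List (ℕ × ℕ) =>
      decide (nlast ((p.1.2 + 2) ^ E p.1.1 - 1) p.2 (C p.1.1) = 0)) :=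
    NPC.Poly.decide_eq h6 (NPC.Poly.const 0)
  have h8 : NPC.Poly (fun p : α × ℕ => (pts v (prs (R p.1))).all fun A =>
      decide (nlast ((p.2 + 2) ^ E p.1 - 1) A (C p.1) = 0)) :=
    NPC.Poly.all (p := fun (p : α × ℕ) A =>
      decide (nlast ((p.2 + 2) ^ E p.1 - 1) A (C p.1) = 0)) h1 h7
  have h9 : NPC.Poly (fun a => (P a).all fun p => (pts v (prs (R a))).all fun A =>
      decide (nlast ((p + 2) ^ E a - 1) A (C a) = 0)) :=
    NPC.Poly.all (p := fun a p => (pts v (prs (R a))).all fun A =>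
      decide (nlast ((p + 2) ^ E a - 1) A (C a) = 0)) hP h8
  exact NPC.Poly.and (poly_wfB hC) h9

end Pool.Agent.H531R2
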