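import Mathlib
import Pool.Agent.NPC.Defs

/-!
# Arithmetic circuits and ACIT
-/

set_option autoImplicit false

namespace Pool.Agent.H531R2

open MvPolynomial Pool.Agent.NPC

/-- The gates of an arithmetic circuit. -/
inductive Gate : Type
  | zero : Gate
  | one : Gate
  | var (j : ℕ) : Gate
  | add (a b : ℕ) : Gate
  | sub (a b : ℕ) : Gate
  | mul (a b : ℕ) : Gate
  deriving DecidableEq

/-- The value of a gate in a commutative ring, where `x` gives the values of the variables and the
list `l` the values of the earlier gates (`0` for a missing gate). -/
def Gate.val {R : Type} [CommRing R] (x : ℕ → R) (l : List R) : Gate → R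
  | Gate.zero => 0
  | Gate.one => 1
  | Gate.var j => x j
  | Gate.add a b => l.getD a 0 + l.getD b 0
  | Gate.sub a b => l.getD a 0 - l.getD b 0
  | Gate.mul a b => l.getD a 0 * l.getD b 0

/-- The list of the values of all gates. -/
def vals {R : Type} [CommRing R] (x : ℕ → R) (C : List Gate) : List R :=
  C.foldl (fun l g => l ++ [g.val x l]) []

/-- The polynomial computed by the last gate. -/
noncomputable def cpoly (C : List Gate) : MvPolynomial ℕ ℤ := (vals X C).getLastD 0

/-- The gate number `i` only refers to earlier gates. -/
def Gate.Ok (i : ℕ) : Gate → Prop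
  | Gate.zero => True
  | Gate.one => True
  | Gate.var _ => True
  | Gate.add a b => a < i ∧ b < i
  | Gate.sub a b => a < i ∧ b < i
  | Gate.mul a b => a < i ∧ b < i

/-- Well-formed circuits: nonempty lists of gates, each referring only to earlier gates. -/
def WF (C : List Gate) : Prop := C ≠ [] ∧ ∀ (i : ℕ) (g : Gate), C[i]? = some g → g.Ok i

/-- A gate as a triple of natural numbers. -/
def Gate.code : Gate → ℕ × ℕ × ℕ
  | Gate.zero => (0, 0, 0)
  | Gate.one => (1, 0, 0)
  | Gate.var j => (2, j, 0)
  | Gate.add a b => (3, a, b)
  | Gate.sub a b => (4, a, b)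
  | Gate.mul a b => (5, a, b)

theorem Gate.code_injective : Function.Injective Gate.code := by
  intro g h e
  cases g <;> cases h <;> simp_all [Gate.code]

/-- Gates are coded by triples of natural numbers in binary. -/
instance : TEnc Gate := ⟨fun g => toT g.code, fun _ _ h => Gate.code_injective (TEnc.inj h)⟩

/-- The identity testing problem for arithmetic circuits: the code words of the well-formed
circuits that compute the zero polynomial. -/
def ACIT : Set (List Bool) := lang (fun C : List Gate => WF C ∧ cpoly C = 0)

end Pool.Agent.H531R2
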