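import Mathlib
import Pool.Agent.H531R2.CircDefs

/-!
# Evaluation of arithmetic circuits
-/

set_option autoImplicit false

namespace Pool.Agent.H531R2

open MvPolynomial Pool.Agent.NPC

theorem map_getD {R S : Type} [CommRing R] [CommRing S] (φ : R →+* S) (l : List R) (a : ℕ) :
    φ (l.getD a 0) = (l.map φ).getD a 0 := by
  rw [List.getD_eq_getElem?_getD, List.getD_eq_getElem?_getD, List.getElem?_map]
  cases l[a]? <;> simp

theorem Gate.map_val {R S : Type} [CommRing R] [CommRing S] (φ : R →+* S) (x : ℕ → R) (l : List R)
    (g : Gate) : φ (g.val x l) = g.val (fun j => φ (x j)) (l.map φ) := by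
  cases g with
  | zero => simp [Gate.val]
  | one => simp [Gate.val]
  | var j => rfl
  | add a b => rw [Gate.val, Gate.val, map_add, map_getD, map_getD]
  | sub a b => rw [Gate.val, Gate.val, map_sub, map_getD, map_getD]
  | mul a b => rw [Gate.val, Gate.val, map_mul, map_getD, map_getD]

theorem map_foldl_vals {R S : Type} [CommRing R] [CommRing S] (φ : R →+* S) (x : ℕ → R)
    (C : List Gate) : ∀ l : List R,
    (C.foldl (fun l g => l ++ [g.val x l]) l).map φ
      = C.foldl (fun l g => l ++ [g.val (fun j => φ (x j)) l]) (l.map φ) := by
  induction C with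
  | nil => intro l; rfl
  | cons g C ih =>
    intro l
    rw [List.foldl_cons, List.foldl_cons, ih, List.map_append, List.map_cons, List.map_nil,
      Gate.map_val]

theorem map_vals {R S : Type} [CommRing R] [CommRing S] (φ : R →+* S) (x : ℕ → R)
    (C : List Gate) : (vals x C).map φ = vals (fun j => φ (x j)) C := map_foldl_vals φ x C []

theorem map_getLastD {R S : Type} [CommRing R] [CommRing S] (φ : R →+* S) (l : List R) :
    φ (l.getLastD 0) = (l.map φ).getLastD 0 := by
  rw [List.getLastD_eq_getLast?, List.getLastD_eq_getLast?, List.getLast?_map]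
  cases l.getLast? <;> simp

/-- The value of the circuit. -/
def cval {R : Type} [CommRing R] (x : ℕ → R) (C : List Gate) : R := (vals x C).getLastD 0

theorem map_cval {R S : Type} [CommRing R] [CommRing S] (φ : R →+* S) (x : ℕ → R)
    (C : List Gate) : φ (cval x C) = cval (fun j => φ (x j)) C := by
  rw [cval, map_getLastD, map_vals]
  rfl

theorem eval_cpoly (x : ℕ → ℤ) (C : List Gate) : eval x (cpoly C) = cval x C := by
  have h := map_cval (eval x) X C
  change eval x (cpoly C) = _ at h
  rw [h]
  congr 1
  funext j
  simp

/-! ### variables -/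

/-- The values of a circuit depend only on the values of the variables that occur. -/
theorem foldl_vals_congr {R : Type} [CommRing R] (x y : ℕ → R) (C : List Gate)
    (h : ∀ j, Gate.var j ∈ C → x j = y j) : ∀ l : List R,
    C.foldl (fun l g => l ++ [g.val x l]) l = C.foldl (fun l g => l ++ [g.val y l]) l := by
  induction C with
  | nil => intro l; rfl
  | cons g C ih =>
    intro l
    rw [List.foldl_cons, List.foldl_cons, ih (fun j hj => h j (List.mem_cons_of_mem _ hj))]
    have h1 : g.val x l = g.val y l := by
      cases g with
      | var j => exact h j (by simp)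
      | _ => rfl
    rw [h1]

theorem cval_congr {R : Type} [CommRing R] (x y : ℕ → R) (C : List Gate)
    (h : ∀ j, Gate.var j ∈ C → x j = y j) : cval x C = cval y C := by
  rw [cval, cval, vals, vals, foldl_vals_congr x y C h]

/-- The variables of a circuit. -/
def cvars (C : List Gate) : Finset ℕ :=
  (C.filterMap fun g => match g with
    | Gate.var j => some j
    | _ => none).toFinset

theorem mem_cvars {C : List Gate} {j : ℕ} : j ∈ cvars C ↔ Gate.var j ∈ C := by
  rw [cvars, List.mem_toFinset, List.mem_filterMap]
  constructor
  · rintro ⟨g, hg, h⟩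
    cases g <;> simp at h
    subst h
    exact hg
  · intro h
    exact ⟨_, h, rfl⟩

theorem vars_cpoly (C : List Gate) : (cpoly C).vars ⊆ cvars C := by
  classical
  -- the values do not change if we kill the other variables
  let y : ℕ → MvPolynomial ℕ ℤ := fun j => if j ∈ cvars C then X j else 0
  have h1 : cpoly C = cval y C := by
    change cval X C = _
    apply cval_congr
    intro j hj
    simp only [y]
    rw [if_pos (mem_cvars.2 hj)]
  have h2 : aeval y (cpoly C) = cval y C := by
    have h := map_cval (aeval y : MvPolynomial ℕ ℤ →ₐ[ℤ] MvPolynomial ℕ ℤ).toRingHom X C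
    change aeval y (cpoly C) = _ at h
    rw [h]
    congr 1
    funext j
    simp
  have h3 : cpoly C = aeval y (cpoly C) := h1.trans h2.symm
  intro j hj
  rw [h3] at hj
  obtain ⟨i, -, hi⟩ := mem_vars_bind₁ y (cpoly C) hj
  simp only [y] at hi
  split_ifs at hi with h5
  · rw [vars_X, Finset.mem_singleton] at hi
    rw [hi]; exact h5
  · simp at hi

end Pool.Agent.H531R2
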