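import Mathlib

/-!
# Sums of few products of powers of affine forms: restriction to a subspace

A sum of `k` products of powers of affine forms that vanishes on a subspace on which all linear
relations between at most `k` of the forms are detected is zero.
-/

set_option autoImplicit false
set_option linter.unusedSectionVars false

namespace Pool.Agent.H531R3

open Polynomial

section Aux

variable {K : Type} [Field K] [Infinite K] {R : Type} [CommRing R] [Algebra K R]

/-- A polynomial with infinitely many roots in the base field is zero. -/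
theorem eq_zero_of_infinite (q : R[X]) (S : Set K) (hS : S.Infinite)
    (h : ∀ x ∈ S, q.eval (algebraMap K R x) = 0) : q = 0 := by
  ext m
  rw [coeff_zero]
  rw [← Module.forall_dual_apply_eq_zero_iff K]
  intro f
  let qf : K[X] := ∑ m ∈ Finset.range (q.natDegree + 1), C (f (q.coeff m)) * X ^ m
  have hqf : qf = 0 := by
    apply Polynomial.eq_zero_of_infinite_isRoot
    refine hS.mono fun x hx => ?_
    simp only [Set.mem_ofPred_eq, IsRoot.def, qf]
    rw [eval_finsetSum]
    have h1 := congrArg f (h x hx)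
    rw [map_zero, eval_eq_sum_range, map_sum] at h1
    rw [← h1]
    refine Finset.sum_congr rfl fun m _ => ?_
    rw [eval_mul, eval_C, eval_pow, eval_X, ← map_pow, mul_comm (q.coeff m), ← Algebra.smul_def,
      map_smul, smul_eq_mul, mul_comm]
  by_cases hm : m ∈ Finset.range (q.natDegree + 1)
  · have h2 := congrArg (fun r => coeff r m) hqf
    simp only [qf, finsetSum_coeff, coeff_C_mul, coeff_X_pow, coeff_zero] at h2
    rw [Finset.sum_eq_single m] at h2
    · simpa using h2
    · intro b _ hb
      rw [if_neg (Ne.symm hb), mul_zero]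
    · intro h3
      exact absurd hm h3
  · rw [Finset.mem_range, not_lt] at hm
    rw [coeff_eq_zero_of_natDegree_lt (by omega), map_zero]

/-- For all but finitely many `x` the element `x + r` is a unit. -/
theorem finite_not_unit [Module.Finite K R] (r : R) :
    {x : K | ¬ IsUnit (algebraMap K R x + r)}.Finite := by
  have hint : IsIntegral K r := Algebra.IsIntegral.isIntegral r
  set q := minpoly K r with hq
  have hq0 : q ≠ 0 := minpoly.ne_zero hint
  have h1 : {x : K | ¬ IsUnit (algebraMap K R x + r)} ⊆ (fun x : K => -x) '' (q.rootSet K) := by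
    intro x hx
    refine ⟨-x, ?_, by simp⟩
    rw [mem_rootSet]
    refine ⟨hq0, ?_⟩
    by_contra hne
    apply hx
    rw [coe_aeval_eq_eval] at hne
    have h2 : (X - C (-x)) ∣ q - C (q.eval (-x)) := by
      rw [dvd_iff_isRoot]
      simp
    obtain ⟨g, hg⟩ := h2
    have h3 := congrArg (aeval r) hg
    rw [map_sub, map_mul, hq, minpoly.aeval, ← hq, zero_sub, map_sub, aeval_X, aeval_C, aeval_C,
      map_neg, sub_neg_eq_add, add_comm r] at h3
    have h4 : IsUnit (-(algebraMap K R (q.eval (-x)))) :=
      ((IsUnit.mk0 _ hne).map (algebraMap K R)).neg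
    rw [h3] at h4
    exact isUnit_of_mul_isUnit_left h4
  exact ((q.rootSet_finite K).image _).subset h1

end Aux

section Lin

variable {K : Type} [Field K] [Infinite K] {W : Type} [AddCommGroup W] [Module K W]

/-- A point of a subspace at which finitely many nonzero forms do not vanish. -/
theorem exists_common {T : Type} (J : Finset T) (m : T → W →ₗ[K] K) (U : Submodule K W)
    (h : ∀ j ∈ J, ∃ w ∈ U, m j w ≠ 0) : ∃ u ∈ U, ∀ j ∈ J, m j u ≠ 0 := by
  classical
  induction J using Finset.induction_on with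
  | empty => exact ⟨0, U.zero_mem, by simp⟩
  | insert a J ha ih =>
    obtain ⟨u, hu, huJ⟩ := ih fun j hj => h j (Finset.mem_insert_of_mem hj)
    obtain ⟨w, hw, hwa⟩ := h a (Finset.mem_insert_self _ _)
    -- avoid finitely many values of `t`
    let B : Finset K := (insert a J).image fun j => - (m j u) / m j w
    obtain ⟨t, ht⟩ := Infinite.exists_notMem_finset (insert 0 B)
    rw [Finset.mem_insert, not_or] at ht
    refine ⟨u + t • w, U.add_mem hu (U.smul_mem _ hw), fun j hj h0 => ?_⟩
    rw [map_add, map_smul, smul_eq_mul] at h0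
    by_cases hjw : m j w = 0
    · rw [hjw, mul_zero, add_zero] at h0
      rcases Finset.mem_insert.1 hj with h1 | h1
      · rw [h1] at hjw
        exact hwa hjw
      · exact huJ j h1 h0
    · apply ht.2
      rw [Finset.mem_image]
      refine ⟨j, hj, ?_⟩
      rw [div_eq_iff hjw]
      linear_combination -h0

end Lin

section Main

variable {K : Type} [Field K] [Infinite K] {W : Type} [AddCommGroup W] [Module K W]
  {I : Type} {n : ℕ}

/-- The value of the sum of products of powers. -/
def fval {R : Type} [CommRing R] [Algebra K R] (ι : Finset I) (c : I → R) (e : I → Fin n → ℕ)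
    (l : Fin n → W →ₗ[K] K) (a : Fin n → R) (w : W) : R :=
  ∑ i ∈ ι, c i * ∏ j, (algebraMap K R (l j w) + a j) ^ e i j

/-- The restriction to a line. -/
noncomputable def pol {R : Type} [CommRing R] [Algebra K R] (ι : Finset I) (c : I → R)
    (e : I → Fin n → ℕ) (l : Fin n → W →ₗ[K] K) (a : Fin n → R) (w u : W) : R[X] :=
  ∑ i ∈ ι, C (c i) * ∏ j, (C (algebraMap K R (l j w) + a j) + C (algebraMap K R (l j u)) * X) ^ e i j

theorem pol_eval {R : Type} [CommRing R] [Algebra K R] (ι : Finset I) (c : I → R)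
    (e : I → Fin n → ℕ) (l : Fin n → W →ₗ[K] K) (a : Fin n → R) (w u : W) (x : K) :
    (pol ι c e l a w u).eval (algebraMap K R x) = fval ι c e l a (w + x • u) := by
  rw [pol, fval, eval_finsetSum]
  refine Finset.sum_congr rfl fun i _ => ?_
  rw [eval_mul, eval_C, eval_prod]
  refine congrArg _ (Finset.prod_congr rfl fun j _ => ?_)
  rw [eval_pow, eval_add, eval_mul, eval_C, eval_C, eval_X, map_add (l j), map_smul (l j),
    smul_eq_mul, map_add, map_mul]
  ring

theorem pol_comp {R : Type} [CommRing R] [Algebra K R] (ι : Finset I) (c : I → R)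
    (e : I → Fin n → ℕ) (l : Fin n → W →ₗ[K] K) (a : Fin n → R) (w u : W) (x : K) :
    (pol ι c e l a w u).comp (X + C (algebraMap K R x)) = pol ι c e l a (w + x • u) u := by
  rw [pol, pol, sum_comp]
  refine Finset.sum_congr rfl fun i _ => ?_
  rw [mul_comp, C_comp, prod_comp]
  refine congrArg _ (Finset.prod_congr rfl fun j _ => ?_)
  rw [pow_comp, add_comp, mul_comp, C_comp, C_comp, X_comp, map_add (l j), map_smul (l j),
    smul_eq_mul]
  simp only [map_add, map_mul]
  congr 1
  ring

theorem pol_eq_zero {R : Type} [CommRing R] [Algebra K R] (ι : Finset I) (c : I → R)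
    (e : I → Fin n → ℕ) (l : Fin n → W →ₗ[K] K) (a : Fin n → R) {w u : W} (U : Submodule K W)
    (hw : w ∈ U) (hu : u ∈ U) (h : ∀ z ∈ U, fval ι c e l a z = 0) : pol ι c e l a w u = 0 := by
  apply eq_zero_of_infinite (K := K) _ Set.univ Set.infinite_univ
  intro x _
  rw [pol_eval]
  exact h _ (U.add_mem hw (U.smul_mem _ hu))

/-- The linear relations between at most `k` of the forms on `U` are detected on `U'`. -/
def Rk (k : ℕ) (l : Fin n → W →ₗ[K] K) (U U' : Submodule K W) : Prop :=
  ∀ s : Finset (Fin n), s.card ≤ k → ∀ μ : Fin n → K,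
    (∀ w ∈ U', ∑ j ∈ s, μ j * l j w = 0) → ∀ w ∈ U, ∑ j ∈ s, μ j * l j w = 0

/-- The statement proved by induction. -/
def Stm (k : ℕ) (e : I → Fin n → ℕ) (l : Fin n → W →ₗ[K] K) : Prop :=
  ∀ (ι : Finset I), ι.card = k → ∀ (R : Type) [CommRing R] [Algebra K R] [Module.Finite K R]
    (c : I → R) (a : Fin n → R) (U U' : Submodule K W), U' ≤ U → Rk k l U U' →
    (∀ w ∈ U', fval ι c e l a w = 0) → ∀ w ∈ U, fval ι c e l a w = 0

/-- Passing to the kernel of a form. -/
theorem Rk.ker {k : ℕ} {l : Fin n → W →ₗ[K] K} {U U' : Submodule K W} (h : Rk (k + 1) l U U')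
    {j0 : Fin n} {u : W} (hu : u ∈ U') (hj0 : l j0 u ≠ 0) :
    Rk k l (U ⊓ LinearMap.ker (l j0)) (U' ⊓ LinearMap.ker (l j0)) := by
  classical
  intro s hs μ hμ w hw
  set ν : K := (∑ j ∈ s, μ j * l j u) / l j0 u with hν
  have h1 : ∀ z : W, ∑ j ∈ insert j0 s, ((if j ∈ s then μ j else 0) - (if j = j0 then ν else 0))
      * l j z = ∑ j ∈ s, μ j * l j z - ν * l j0 z := by
    intro z
    have h2 : ∀ j, ((if j ∈ s then μ j else 0) - (if j = j0 then ν else 0)) * l j z
        = (if j ∈ s then μ j * l j z else 0) - (if j = j0 then ν * l j0 z else 0) := by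
      intro j
      rw [sub_mul]
      congr 1
      · split_ifs <;> simp
      · split_ifs with h3
        · rw [h3]
        · simp
    rw [Finset.sum_congr rfl fun j _ => h2 j, Finset.sum_sub_distrib]
    congr 1
    · rw [← Finset.sum_filter]
      apply Finset.sum_congr _ fun _ _ => rfl
      ext j
      rw [Finset.mem_filter, Finset.mem_insert]
      tauto
    · rw [Finset.sum_ite_eq' (insert j0 s) j0, if_pos (Finset.mem_insert_self _ _)]
  have h3 := h (insert j0 s) ((Finset.card_insert_le _ _).trans (by omega)) _ (fun z hz => by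
    rw [h1]
    have hz' : z - (l j0 z / l j0 u) • u ∈ U' ⊓ LinearMap.ker (l j0) := by
      refine ⟨U'.sub_mem hz (U'.smul_mem _ hu), LinearMap.mem_ker.2 ?_⟩
      rw [map_sub, map_smul, smul_eq_mul, div_mul_cancel₀ _ hj0, sub_self]
    have h4 := hμ _ hz'
    have h5 : ∑ j ∈ s, μ j * l j (z - (l j0 z / l j0 u) • u)
        = ∑ j ∈ s, μ j * l j z - (l j0 z / l j0 u) * ∑ j ∈ s, μ j * l j u := by
      rw [Finset.mul_sum, ← Finset.sum_sub_distrib]
      refine Finset.sum_congr rfl fun j _ => ?_
      rw [map_sub, map_smul, smul_eq_mul]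
      ring
    rw [h5] at h4
    rw [← h4, hν]
    ring) w hw.1
  rw [h1, LinearMap.mem_ker.1 hw.2, mul_zero, sub_zero] at h3
  exact h3

theorem aeval_pol {R : Type} [CommRing R] [Algebra K R] (ι : Finset I) (c : I → R)
    (e : I → Fin n → ℕ) (l : Fin n → W →ₗ[K] K) (a : Fin n → R) (z u : W) (f : R[X]) :
    aeval (AdjoinRoot.root f) (pol ι c e l a z u) = fval ι (fun i => AdjoinRoot.of f (c i)) e l
      (fun j => AdjoinRoot.of f (a j) + algebraMap K (AdjoinRoot f) (l j u) * AdjoinRoot.root f)
      z := by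
  have hal : ∀ x : K, AdjoinRoot.of f (algebraMap K R x) = algebraMap K (AdjoinRoot f) x := by
    intro x
    rw [IsScalarTower.algebraMap_apply K R (AdjoinRoot f)]
    rfl
  have hC : ∀ r : R, aeval (AdjoinRoot.root f) (C r) = AdjoinRoot.of f r := by
    intro r
    rw [aeval_C]
    rfl
  rw [pol, fval, map_sum]
  refine Finset.sum_congr rfl fun i _ => ?_
  rw [map_mul, map_prod, hC]
  refine congrArg _ (Finset.prod_congr rfl fun j _ => ?_)
  rw [map_pow, map_add, map_mul, hC, hC, aeval_X, map_add, hal, hal, add_assoc]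

/-- The root of a linear factor. -/
noncomputable def rho {R : Type} [CommRing R] [Algebra K R] (l : Fin n → W →ₗ[K] K)
    (a : Fin n → R) (u w : W) (j : Fin n) : R :=
  -(algebraMap K R ((l j u)⁻¹ * l j w) + algebraMap K R (l j u)⁻¹ * a j)

theorem block_dvd {k : ℕ} {e : I → Fin n → ℕ} {l : Fin n → W →ₗ[K] K} (IH : Stm k e l)
    [DecidableEq I] {ι : Finset I} (hι : ι.card = k + 1) {R : Type} [CommRing R] [Algebra K R]
    [Module.Finite K R] (c : I → R) (a : Fin n → R) {U U' : Submodule K W} (hU : U' ≤ U)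
    (hR : Rk (k + 1) l U U') (h0 : ∀ w ∈ U', fval ι c e l a w = 0) {i0 : I} (hi0 : i0 ∈ ι)
    {u : W} (hu : u ∈ U') {j0 : Fin n} (hj0 : l j0 u ≠ 0) (B : Finset (Fin n))
    (hB : ∀ j ∈ B, l j u ≠ 0 ∧ ∀ w ∈ U, (l j u)⁻¹ * l j w = (l j0 u)⁻¹ * l j0 w) {w : W}
    (hw : w ∈ U) :
    ∏ j ∈ B, (X - C (rho l a u w j)) ^ e i0 j ∣ pol ι c e l a w u := by
  classical
  set f : R[X] := ∏ j ∈ B, (X - C (rho l a u 0 j)) ^ e i0 j with hf
  have hfm : f.Monic := monic_prod_of_monic _ _ fun j _ => (monic_X_sub_C _).pow _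
  -- points of the kernel
  have hker : ∀ z ∈ U ⊓ LinearMap.ker (l j0), f ∣ pol ι c e l a z u := by
    intro z hz
    have : Module.Finite R (AdjoinRoot f) := hfm.finite_adjoinRoot
    have : Module.Finite K (AdjoinRoot f) := Module.Finite.trans R (AdjoinRoot f)
    have hterm : ∀ z ∈ U ⊓ LinearMap.ker (l j0),
        fval ι (fun i => AdjoinRoot.of f (c i)) e l
          (fun j => AdjoinRoot.of f (a j) + algebraMap K (AdjoinRoot f) (l j u) *
            AdjoinRoot.root f) z
        = fval (ι.erase i0) (fun i => AdjoinRoot.of f (c i)) e l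
          (fun j => AdjoinRoot.of f (a j) + algebraMap K (AdjoinRoot f) (l j u) *
            AdjoinRoot.root f) z := by
      intro z hz
      rw [fval, fval, ← Finset.add_sum_erase _ _ hi0]
      have h1 : ∏ j, (algebraMap K (AdjoinRoot f) (l j z) + (AdjoinRoot.of f (a j) +
          algebraMap K (AdjoinRoot f) (l j u) * AdjoinRoot.root f)) ^ e i0 j = 0 := by
        have h2 : ∏ j ∈ B, (algebraMap K (AdjoinRoot f) (l j z) + (AdjoinRoot.of f (a j) +
            algebraMap K (AdjoinRoot f) (l j u) * AdjoinRoot.root f)) ^ e i0 j = 0 := by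
          have h3 : ∀ j ∈ B, (algebraMap K (AdjoinRoot f) (l j z) + (AdjoinRoot.of f (a j) +
              algebraMap K (AdjoinRoot f) (l j u) * AdjoinRoot.root f)) ^ e i0 j
              = (algebraMap K (AdjoinRoot f) (l j u)) ^ e i0 j *
                AdjoinRoot.mk f ((X - C (rho l a u 0 j)) ^ e i0 j) := by
            intro j hj
            obtain ⟨hju, hjw⟩ := hB j hj
            have hjz : l j z = 0 := by
              have h4 := hjw z hz.1
              rw [LinearMap.mem_ker.1 hz.2, mul_zero] at h4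
              rcases mul_eq_zero.1 h4 with h5 | h5
              · exact absurd h5 (inv_ne_zero hju)
              · exact h5
            rw [hjz, map_zero, zero_add, map_pow, ← mul_pow, map_sub, AdjoinRoot.mk_X,
              AdjoinRoot.mk_C, rho, map_zero, mul_zero, map_zero, zero_add, map_neg, sub_neg_eq_add,
              map_mul]
            congr 1
            have h6 : AdjoinRoot.of f (algebraMap K R (l j u)⁻¹)
                = algebraMap K (AdjoinRoot f) (l j u)⁻¹ := by
              rw [IsScalarTower.algebraMap_apply K R (AdjoinRoot f)]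
              rfl
            have h7 : algebraMap K (AdjoinRoot f) (l j u) * algebraMap K (AdjoinRoot f) (l j u)⁻¹
                = 1 := by
              rw [← map_mul, mul_inv_cancel₀ hju, map_one]
            rw [h6, mul_add, ← mul_assoc, h7, one_mul, add_comm]
          rw [Finset.prod_congr rfl h3, Finset.prod_mul_distrib, ← map_prod, ← hf,
            AdjoinRoot.mk_self, mul_zero]
        rw [← Finset.prod_sdiff (Finset.subset_univ B), h2, mul_zero]
      rw [h1, mul_zero, zero_add]
    have h1 := IH (ι.erase i0) (by rw [Finset.card_erase_of_mem hi0, hι]; rfl) (AdjoinRoot f)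
      (fun i => AdjoinRoot.of f (c i))
      (fun j => AdjoinRoot.of f (a j) + algebraMap K (AdjoinRoot f) (l j u) * AdjoinRoot.root f)
      (U ⊓ LinearMap.ker (l j0)) (U' ⊓ LinearMap.ker (l j0)) (inf_le_inf_right _ hU)
      (hR.ker hu hj0) (fun z hz => by
        rw [← hterm z ⟨hU hz.1, hz.2⟩, ← aeval_pol, pol_eq_zero ι c e l a U' hz.1 hu h0, map_zero])
      z hz
    rw [← hterm z hz, ← aeval_pol, AdjoinRoot.aeval_eq, AdjoinRoot.mk_eq_zero] at h1
    exact h1
  -- other points
  set σ := l j0 w / l j0 u with hσ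
  have hz : w - σ • u ∈ U ⊓ LinearMap.ker (l j0) := by
    refine ⟨U.sub_mem hw (U.smul_mem _ (hU hu)), LinearMap.mem_ker.2 ?_⟩
    rw [map_sub, map_smul, smul_eq_mul, hσ, div_mul_cancel₀ _ hj0, sub_self]
  obtain ⟨g, hg⟩ := hker _ hz
  have h2 : (pol ι c e l a (w - σ • u) u).comp (X + C (algebraMap K R σ))
      = (f * g).comp (X + C (algebraMap K R σ)) := by rw [hg]
  rw [pol_comp, sub_add_cancel, mul_comp, hf, prod_comp] at h2
  rw [h2]
  refine Dvd.intro (g.comp (X + C (algebraMap K R σ))) ?_
  congr 1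
  refine Finset.prod_congr rfl fun j hj => ?_
  rw [pow_comp, sub_comp, X_comp, C_comp]
  congr 1
  have h3 := (hB j hj).2 w hw
  have h4 : rho l a u w j = rho l a u 0 j - algebraMap K R σ := by
    rw [rho, rho, h3, map_zero, mul_zero, map_zero, hσ, div_eq_inv_mul]
    ring
  rw [h4, C_sub]
  ring

theorem lin_prod {R : Type} [CommRing R] (J : Finset (Fin n)) (α β : Fin n → R)
    (e : Fin n → ℕ) :
    (∏ j ∈ J, (C (α j) + C (β j) * X) ^ e j).natDegree ≤ ∑ j ∈ J, e j ∧
      (∏ j ∈ J, (C (α j) + C (β j) * X) ^ e j).coeff (∑ j ∈ J, e j) = ∏ j ∈ J, β j ^ e j := by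
  classical
  have h1 : ∀ j, (C (α j) + C (β j) * X).natDegree ≤ 1 := by
    intro j
    rw [add_comm]
    exact natDegree_linear_le
  have h1' : ∀ j, ((C (α j) + C (β j) * X) ^ e j).natDegree ≤ e j := by
    intro j
    refine (natDegree_pow_le_of_le _ (h1 j)).trans ?_
    rw [mul_one]
  have h2 : ∀ j, ((C (α j) + C (β j) * X) ^ e j).coeff (e j) = β j ^ e j := by
    intro j
    have h3 := coeff_pow_of_natDegree_le (m := e j) (h1 j)
    rw [mul_one] at h3
    rw [h3]
    simp
  induction J using Finset.induction_on with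
  | empty => simp
  | insert b J hb ih =>
    rw [Finset.prod_insert hb, Finset.sum_insert hb, Finset.prod_insert hb]
    refine ⟨natDegree_mul_le.trans (Nat.add_le_add (h1' b) ih.1), ?_⟩
    rw [coeff_mul_add_eq_of_natDegree_le (h1' b) ih.1, h2, ih.2]

theorem step {k : ℕ} {e : I → Fin n → ℕ} {l : Fin n → W →ₗ[K] K} (IH : Stm k e l) :
    Stm (k + 1) e l := by
  classical
  intro ι hι R _ _ _ c a U U' hU hR h0 w hw
  set J : Finset (Fin n) := Finset.univ.filter (fun j => ∃ w ∈ U, l j w ≠ 0) with hJ
  have hJn : ∀ j, j ∉ J → ∀ z ∈ U, l j z = 0 := by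
    intro j hj z hz
    by_contra hne
    exact hj (by rw [hJ, Finset.mem_filter]; exact ⟨Finset.mem_univ _, z, hz, hne⟩)
  obtain ⟨u, hu, huJ⟩ := exists_common J l U' (by
    intro j hj
    by_contra hcon
    push Not at hcon
    rw [hJ, Finset.mem_filter] at hj
    obtain ⟨_, z, hz, hne⟩ := hj
    have h1 := hR {j} (by simp) (fun _ => 1) (fun z hz => by simp [hcon z hz]) z hz
    simp only [Finset.sum_singleton, one_mul] at h1
    exact hne h1)
  let d : I → ℕ := fun i => ∑ j ∈ J, e i j
  obtain ⟨i0, hi0, hmax⟩ := ι.exists_max_image d (Finset.card_pos.1 (by omega))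
  -- the leading coefficient
  have hterm : ∀ z ∈ U, ∀ i, C (c i) * ∏ j, (C (algebraMap K R (l j z) + a j) +
      C (algebraMap K R (l j u)) * X) ^ e i j
      = C (c i * ∏ j ∈ Jᶜ, a j ^ e i j) * ∏ j ∈ J, (C (algebraMap K R (l j z) + a j) +
      C (algebraMap K R (l j u)) * X) ^ e i j := by
    intro z hz i
    rw [← Finset.prod_mul_prod_compl J, C_mul, map_prod]
    have h1 : ∏ j ∈ Jᶜ, (C (algebraMap K R (l j z) + a j) +
        C (algebraMap K R (l j u)) * X) ^ e i j = ∏ j ∈ Jᶜ, C (a j ^ e i j) := by
      refine Finset.prod_congr rfl fun j hj => ?_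
      rw [Finset.mem_compl] at hj
      rw [hJn j hj z hz, hJn j hj u (hU hu)]
      simp
    rw [h1]
    ring
  have hdeg : ∀ z ∈ U, (pol ι c e l a z u).natDegree ≤ d i0 := by
    intro z hz
    rw [pol]
    apply natDegree_sum_le_of_forall_le
    intro i hi
    rw [hterm z hz i]
    refine (natDegree_C_mul_le _ _).trans ?_
    exact (lin_prod J _ _ _).1.trans (hmax i hi)
  have hlead : ∀ z ∈ U, (pol ι c e l a z u).coeff (d i0) = ∑ i ∈ ι, (c i * ∏ j ∈ Jᶜ, a j ^ e i j) *
      (if d i = d i0 then ∏ j ∈ J, (algebraMap K R (l j u)) ^ e i j else 0) := by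
    intro z hz
    rw [pol, finsetSum_coeff]
    refine Finset.sum_congr rfl fun i hi => ?_
    rw [hterm z hz i, coeff_C_mul]
    congr 1
    have h1 := lin_prod J (fun j => algebraMap K R (l j z) + a j)
      (fun j => algebraMap K R (l j u)) (e i)
    split_ifs with h2
    · rw [← h2]
      exact h1.2
    · apply coeff_eq_zero_of_natDegree_lt
      refine lt_of_le_of_lt h1.1 ?_
      exact lt_of_le_of_ne (hmax i hi) h2
  have hlead0 : ∀ z ∈ U, (pol ι c e l a z u).coeff (d i0) = 0 := by
    intro z hz
    rw [hlead z hz, ← hlead u (hU hu), pol_eq_zero ι c e l a U' hu hu h0, coeff_zero]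
  -- the classes
  let lab : Fin n → U → K := fun j z => (l j u)⁻¹ * l j z
  let Good : W → Prop := fun z => ∀ j ∈ J, ∀ j' ∈ J, lab j ≠ lab j' →
    IsUnit (rho l a u z j - rho l a u z j')
  have hgood : ∀ z ∈ U, Good z → fval ι c e l a z = 0 := by
    intro z hz hg
    have h1 : ∏ j ∈ J, (X - C (rho l a u z j)) ^ e i0 j ∣ pol ι c e l a z u := by
      rw [← Finset.prod_fiberwise_of_maps_to (t := J.image lab)
        (fun j hj => Finset.mem_image_of_mem lab hj)]
      apply Finset.prod_dvd_of_coprime
      · intro b hb b' hb' hne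
        apply IsCoprime.prod_left
        intro j hj
        apply IsCoprime.prod_right
        intro j' hj'
        apply IsCoprime.pow
        rw [Finset.mem_filter] at hj hj'
        apply isCoprime_X_sub_C_of_isUnit_sub
        apply hg j hj.1 j' hj'.1
        rw [hj.2, hj'.2]
        exact hne
      · intro b hb
        rw [Finset.mem_image] at hb
        obtain ⟨j0, hj0, rfl⟩ := hb
        apply block_dvd IH hι c a hU hR h0 hi0 hu (huJ j0 hj0) _ _ hz
        intro j hj
        rw [Finset.mem_filter] at hj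
        refine ⟨huJ j hj.1, fun z hz => ?_⟩
        exact congrFun hj.2 ⟨z, hz⟩
    obtain ⟨g, hg'⟩ := h1
    set T : R[X] := ∏ j ∈ J, (X - C (rho l a u z j)) ^ e i0 j with hT
    have hTm : T.Monic := monic_prod_of_monic _ _ fun j _ => (monic_X_sub_C _).pow _
    have hp0 : pol ι c e l a z u = 0 := by
      by_contra hne
      have hR1 : Nontrivial R := by
        by_contra hcon
        rw [not_nontrivial_iff_subsingleton] at hcon
        exact hne (Subsingleton.elim _ _)
      have hg0 : g ≠ 0 := by
        rintro rfl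
        rw [mul_zero] at hg'
        exact hne hg'
      have hTd : T.natDegree = d i0 := by
        rw [hT, natDegree_prod_of_monic _ _ fun j _ => (monic_X_sub_C _).pow _]
        refine Finset.sum_congr rfl fun j _ => ?_
        rw [(monic_X_sub_C _).natDegree_pow, natDegree_X_sub_C, mul_one]
      have h2 := hTm.natDegree_mul' hg0
      have h3 := hdeg z hz
      rw [hg', h2, hTd] at h3
      have h4 : g.natDegree = 0 := by omega
      have h5 := hlead0 z hz
      rw [hg', ← add_zero (d i0), ← hTd, ← h4] at h5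
      have h6 : (T * g).coeff (T.natDegree + g.natDegree) = T.leadingCoeff * g.leadingCoeff :=
        coeff_mul_degree_add_degree T g
      rw [h6, hTm.leadingCoeff, one_mul, leadingCoeff_eq_zero] at h5
      exact hg0 h5
    have h7 := pol_eval ι c e l a z u 0
    rw [hp0, eval_zero, zero_smul, add_zero] at h7
    exact h7.symm
  -- the general point
  obtain ⟨ω, hω, hωJ⟩ := exists_common ((J ×ˢ J).filter fun q => lab q.1 ≠ lab q.2)
    (fun q => (l q.1 u)⁻¹ • l q.1 - (l q.2 u)⁻¹ • l q.2) U (by
      intro q hq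
      rw [Finset.mem_filter] at hq
      obtain ⟨z, hz⟩ := Function.ne_iff.1 hq.2
      refine ⟨z, z.2, ?_⟩
      rw [LinearMap.sub_apply, LinearMap.smul_apply, LinearMap.smul_apply, smul_eq_mul,
        smul_eq_mul]
      exact sub_ne_zero.2 hz)
  have hfin : {x : K | ¬ Good (w + x • ω)}.Finite := by
    have h1 : {x : K | ¬ Good (w + x • ω)} ⊆ ⋃ q ∈ (J ×ˢ J).filter fun q => lab q.1 ≠ lab q.2,
        {x : K | ¬ IsUnit (rho l a u (w + x • ω) q.1 - rho l a u (w + x • ω) q.2)} := by
      intro x hx
      simp only [Set.mem_ofPred_eq, Good] at hx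
      push Not at hx
      obtain ⟨j, hj, j', hj', hne, hu⟩ := hx
      simp only [Set.mem_iUnion]
      refine ⟨(j, j'), ?_, hu⟩
      rw [Finset.mem_filter, Finset.mem_product]
      exact ⟨⟨hj, hj'⟩, hne⟩
    refine Set.Finite.subset (Set.Finite.biUnion (Finset.finite_toSet _) fun q hq => ?_) h1
    have h2 := hωJ q hq
    rw [LinearMap.sub_apply, LinearMap.smul_apply, LinearMap.smul_apply, smul_eq_mul,
      smul_eq_mul] at h2
    set m : K := (l q.1 u)⁻¹ * l q.1 ω - (l q.2 u)⁻¹ * l q.2 ω with hm
    set m0 : K := (l q.1 u)⁻¹ * l q.1 w - (l q.2 u)⁻¹ * l q.2 w with hm0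
    have h3 := finite_not_unit (K := K) (algebraMap K R (l q.1 u)⁻¹ * a q.1
      - algebraMap K R (l q.2 u)⁻¹ * a q.2)
    refine (h3.preimage (f := fun x : K => m0 + x * m) ?_).subset ?_
    · intro x _ y _ hxy
      simp only at hxy
      have h4 : (x - y) * m = 0 := by linear_combination hxy
      rcases mul_eq_zero.1 h4 with h5 | h5
      · exact sub_eq_zero.1 h5
      · exact absurd h5 h2
    · intro x hx hxu
      apply hx
      have h4 : rho l a u (w + x • ω) q.1 - rho l a u (w + x • ω) q.2
          = -(algebraMap K R (m0 + x * m) + (algebraMap K R (l q.1 u)⁻¹ * a q.1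
            - algebraMap K R (l q.2 u)⁻¹ * a q.2)) := by
        rw [rho, rho, hm, hm0]
        simp only [map_add, map_sub, map_mul, map_smul, smul_eq_mul]
        ring
      rw [h4]
      exact hxu.neg
  have hpol : pol ι c e l a w ω = 0 := by
    apply eq_zero_of_infinite (K := K) _ {x : K | Good (w + x • ω)}
    · have h1 := hfin.infinite_compl
      refine h1.mono fun x hx => ?_
      by_contra hcon
      exact hx hcon
    · intro x hx
      rw [pol_eval]
      exact hgood _ (U.add_mem hw (U.smul_mem _ hω)) hx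
  have h8 := pol_eval ι c e l a w ω 0
  rw [hpol, eval_zero, zero_smul, add_zero] at h8
  exact h8.symm

theorem stm (k : ℕ) (e : I → Fin n → ℕ) (l : Fin n → W →ₗ[K] K) : Stm k e l := by
  induction k with
  | zero =>
    intro ι hι R _ _ _ c a U U' _ _ _ w _
    rw [Finset.card_eq_zero] at hι
    rw [fval, hι, Finset.sum_empty]
  | succ k ih => exact step ih

end Main

end Pool.Agent.H531R3
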