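import Mathlib

/-!
# Polynomials of bounded top fan-in
-/

set_option autoImplicit false

namespace Pool.Agent.H531R3

open MvPolynomial

/-- `F` is a sum `∑ c_i ∏_j (a_j + ∑_{m ∈ S} L_jm x_m) ^ e_ij` of `k` products of powers of `n`
affine linear forms in at most `n` variables. The integers `a_j`, `L_jm` have absolute value at
most `2 ^ n`, the exponents `e_ij` are at most `2 ^ n`, and the `c_i` are arbitrary rational
numbers. -/
def TopFan (k n : ℕ) (F : MvPolynomial ℕ ℚ) : Prop :=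
  ∃ (S : Finset ℕ) (L : Fin n → ℕ → ℤ) (a : Fin n → ℤ) (e : Fin k → Fin n → ℕ) (c : Fin k → ℚ),
    S.card ≤ n ∧ (∀ j m, (L j m).natAbs ≤ 2 ^ n) ∧ (∀ j, (a j).natAbs ≤ 2 ^ n) ∧
    (∀ i j, e i j ≤ 2 ^ n) ∧
    F = ∑ i, C (c i) * ∏ j, (C (a j : ℚ) + ∑ m ∈ S, C (L j m : ℚ) * X m) ^ e i j

/-- `f` divides, over the rational numbers, a product of `n` nonzero polynomials with
`TopFan k n`, and no power `p ^ (n + 1)` of a prime number `p > n` divides all coefficients of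
`f`. -/
def TameFan (k n : ℕ) (f : MvPolynomial ℕ ℤ) : Prop :=
  (∀ p : ℕ, p.Prime → n < p → ¬ (C ((p : ℤ) ^ (n + 1)) ∣ f)) ∧
    ∃ F : Fin n → MvPolynomial ℕ ℚ, (∀ b, F b ≠ 0 ∧ TopFan k n (F b)) ∧
      map (Int.castRingHom ℚ) f ∣ ∏ b, F b

end Pool.Agent.H531R3
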