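import Mathlib
import Pool.Agent.H531R2.Hit
import Pool.Agent.H531R2.Fan

/-!
# Sums of few products of powers of affine forms under the substitution `Th`
-/

set_option autoImplicit false

namespace Pool.Agent.H531R3

open Pool.Agent.H531R2 MvPolynomial

/-- Points separating finitely many small spaces of polynomials. -/
theorem exists_sep (v : ℕ) : ∀ {T : Type} [Finite T] (E : T → Submodule ℚ (Polynomial ℚ)),
    (∀ i, Module.Finite ℚ (E i)) → (∀ i, Module.finrank ℚ (E i) ≤ v) →
    ∃ β : Fin v → ℚ, ∀ i, ∀ f ∈ E i, (∀ t, f.eval (β t) = 0) → f = 0 := by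
  induction v with
  | zero =>
    intro T _ E hfin hE
    refine ⟨Fin.elim0, fun i f hf _ => ?_⟩
    have h1 : Module.finrank ℚ (E i) = 0 := by have := hE i; omega
    have := hfin i
    rw [Submodule.finrank_eq_zero] at h1
    rw [h1] at hf
    exact (Submodule.mem_bot ℚ).1 hf
  | succ v ih =>
    intro T _ E hfin hE
    classical
    have := Fintype.ofFinite T
    -- a point at which some element of every nonzero space does not vanish
    have hex : ∀ i, ∃ f : Polynomial ℚ, f ≠ 0 ∧ (E i ≠ ⊥ → f ∈ E i) := by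
      intro i
      by_cases h : E i = ⊥
      · exact ⟨1, one_ne_zero, fun h1 => absurd h h1⟩
      · obtain ⟨f, hf, hf0⟩ := Submodule.exists_mem_ne_zero_of_ne_bot h
        exact ⟨f, hf0, fun _ => hf⟩
    choose g hg0 hg using hex
    have hprod : (∏ i, g i) ≠ 0 := Finset.prod_ne_zero_iff.2 fun i _ => hg0 i
    obtain ⟨z, hz⟩ : ∃ z : ℚ, (∏ i, g i).eval z ≠ 0 := by
      by_contra hcon
      push Not at hcon
      exact hprod (Polynomial.funext fun z => by rw [hcon z, Polynomial.eval_zero])
    rw [Polynomial.eval_prod, Finset.prod_ne_zero_iff] at hz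
    let E' : T → Submodule ℚ (Polynomial ℚ) := fun i =>
      E i ⊓ LinearMap.ker (Polynomial.leval z)
    have hE'le : ∀ i, E' i ≤ E i := fun i => inf_le_left
    obtain ⟨β, hβ⟩ := ih E' (fun i => by
        have := hfin i
        exact Submodule.finiteDimensional_of_le (hE'le i)) (by
      intro i
      have := hfin i
      by_cases h : E i = ⊥
      · have h1 : E' i = ⊥ := le_bot_iff.1 (h ▸ hE'le i)
        rw [h1, finrank_bot]
        omega
      · have hlt : E' i < E i := by
          refine lt_of_le_of_ne (hE'le i) fun heq => ?_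
          have h1 : g i ∈ E' i := by rw [heq]; exact hg i h
          have h2 : (g i).eval z = 0 := by
            have := h1.2
            exact this
          exact hz i (Finset.mem_univ i) h2
        have h3 := Submodule.finrank_lt_finrank_of_lt hlt
        have h4 := hE i
        omega)
    refine ⟨Fin.cons z β, fun i f hf h => ?_⟩
    refine hβ i f ⟨hf, ?_⟩ fun t => ?_
    · have := h 0
      rw [Fin.cons_zero] at this
      exact this
    · have := h t.succ
      rwa [Fin.cons_succ] at this

variable {n k v : ℕ}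

/-- The affine form with constant term `a` and linear part `L`. -/
noncomputable def af (S : Finset ℕ) (L : ℕ → ℤ) (a : ℤ) : MvPolynomial ℕ ℤ :=
  C a + ∑ j ∈ S, C (L j) * X j

/-- The linear part as a linear map on points. -/
noncomputable def lp (S : Finset ℕ) (L : ℕ → ℤ) : (ℕ → ℚ) →ₗ[ℚ] ℚ :=
  ∑ m ∈ S, (L m : ℚ) • LinearMap.proj m

theorem lp_apply (S : Finset ℕ) (L : ℕ → ℤ) (w : ℕ → ℚ) :
    lp S L w = ∑ m ∈ S, (L m : ℚ) * w m := by
  simp [lp]

/-- The points `x_j = ∑ t, A_t β_t ^ idx j`. -/
noncomputable def Pt (v : ℕ) (idx : ℕ → ℕ) (β : Fin v → ℚ) : (Fin v → ℚ) →ₗ[ℚ] (ℕ → ℚ) where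
  toFun A := fun j => ∑ t, A t * β t ^ idx j
  map_add' A B := by
    funext j
    simp [add_mul, Finset.sum_add_distrib]
  map_smul' r A := by
    funext j
    simp [mul_assoc, Finset.mul_sum]

theorem eval_af (S : Finset ℕ) (L : ℕ → ℤ) (a : ℤ) (w : ℕ → ℚ) :
    eval₂ (Int.castRingHom ℚ) w (af S L a) = lp S L w + a := by
  rw [af, lp_apply, eval₂_add, eval₂_C, eval₂_sum]
  rw [add_comm]
  congr 1
  refine Finset.sum_congr rfl fun m _ => ?_
  rw [eval₂_mul, eval₂_C, eval₂_X]
  rfl

theorem eval_Th_af (idx : ℕ → ℕ) (S : Finset ℕ) (L : ℕ → ℤ) (a : ℤ) (A β : Fin v → ℚ) :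
    eval₂ (Int.castRingHom ℚ) (Fin.addCases A β) (Th v idx (af S L a))
      = lp S L (Pt v idx β A) + a := by
  have h1 : Th v idx (af S L a) = C a + ∑ j ∈ S, C (L j) * ∑ t : Fin v,
      X (Fin.castAdd v t) * X (Fin.natAdd v t) ^ idx j := by
    rw [af, map_add, map_sum, algHom_C, algebraMap_eq]
    congr 1
    refine Finset.sum_congr rfl fun m _ => ?_
    rw [map_mul, algHom_C, algebraMap_eq, Th, aeval_X]
  rw [h1, lp_apply, eval₂_add, eval₂_C, eval₂_sum, add_comm]
  congr 1
  refine Finset.sum_congr rfl fun m _ => ?_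
  rw [eval₂_mul, eval₂_C, eval₂_sum]
  congr 1
  refine Finset.sum_congr rfl fun t _ => ?_
  rw [eval₂_mul, eval₂_pow, eval₂_X, eval₂_X, Fin.addCases_left, Fin.addCases_right]

/-- The substitution `Th` preserves the nonvanishing of sums of at most `v` products of powers
of affine forms. -/
theorem Th_sum_eq_zero (hkv : k ≤ v) (S : Finset ℕ) (L : Fin n → ℕ → ℤ) (a : Fin n → ℤ)
    (idx : ℕ → ℕ) (hidx : Set.InjOn idx S) (e : Fin k → Fin n → ℕ) (γ : Fin k → ℤ)
    (h : ∑ i, C (γ i) * ∏ j, Th v idx (af S (L j) (a j)) ^ e i j = 0) :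
    ∑ i, C (γ i) * ∏ j, af S (L j) (a j) ^ e i j = 0 := by
  classical
  -- the polynomials of the forms
  let q : Fin n → Polynomial ℚ := fun j =>
    ∑ m ∈ S, Polynomial.C (L j m : ℚ) * Polynomial.X ^ idx m
  let E : {s : Finset (Fin n) // s.card ≤ v} → Submodule ℚ (Polynomial ℚ) := fun s =>
    Submodule.span ℚ ((s.1.image q : Finset (Polynomial ℚ)) : Set (Polynomial ℚ))
  obtain ⟨β, hβ⟩ := exists_sep v E (fun s => by
      exact Module.Finite.span_of_finite ℚ (Finset.finite_toSet _)) (fun s =>
    (finrank_span_finset_le_card _).trans (Finset.card_image_le.trans s.2))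
  have hqe : ∀ j (t : Fin v), (q j).eval (β t) = lp S (L j) (Pt v idx β (Pi.single t 1)) := by
    intro j t
    simp only [q]
    rw [Polynomial.eval_finsetSum, lp_apply]
    refine Finset.sum_congr rfl fun m _ => ?_
    rw [Polynomial.eval_mul, Polynomial.eval_C, Polynomial.eval_pow, Polynomial.eval_X]
    congr 1
    simp [Pt, Pi.single_apply]
  have hR : Rk k (fun j => lp S (L j)) ⊤ (LinearMap.range (Pt v idx β)) := by
    intro s hs μ hμ w _
    have h1 : ∑ j ∈ s, μ j • q j = 0 := by
      apply hβ ⟨s, hs.trans hkv⟩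
      · apply Submodule.sum_mem
        intro j hj
        apply Submodule.smul_mem
        apply Submodule.subset_span
        rw [Finset.mem_coe]
        exact Finset.mem_image_of_mem q hj
      · intro t
        rw [Polynomial.eval_finsetSum, ← hμ _ ⟨Pi.single t 1, rfl⟩]
        refine Finset.sum_congr rfl fun j _ => ?_
        rw [Polynomial.eval_smul, hqe, smul_eq_mul]
    have h2 : ∀ m ∈ S, ∑ j ∈ s, μ j * (L j m : ℚ) = 0 := by
      intro m hm
      have h3 := congrArg (fun r => Polynomial.coeff r (idx m)) h1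
      simp only [Polynomial.finsetSum_coeff, Polynomial.coeff_smul, Polynomial.coeff_zero,
        smul_eq_mul] at h3
      rw [← h3]
      refine Finset.sum_congr rfl fun j _ => ?_
      congr 1
      simp only [q]
      rw [Polynomial.finsetSum_coeff, Finset.sum_eq_single m]
      · simp
      · intro m' hm' hne
        rw [Polynomial.coeff_C_mul, Polynomial.coeff_X_pow, if_neg, mul_zero]
        intro h4
        exact hne (hidx hm' hm h4.symm)
      · intro h4
        exact absurd hm h4
    simp only [lp_apply, Finset.mul_sum]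
    rw [Finset.sum_comm]
    refine Finset.sum_eq_zero fun m hm => ?_
    rw [← zero_mul (w m), ← h2 m hm, Finset.sum_mul]
    exact Finset.sum_congr rfl fun j _ => by ring
  have hval : ∀ w : ℕ → ℚ, eval₂ (Int.castRingHom ℚ) w
      (∑ i, C (γ i) * ∏ j, af S (L j) (a j) ^ e i j)
      = fval Finset.univ (fun i => (γ i : ℚ)) e (fun j => lp S (L j)) (fun j => (a j : ℚ)) w := by
    intro w
    rw [eval₂_sum, fval]
    refine Finset.sum_congr rfl fun i _ => ?_
    rw [eval₂_mul, eval₂_C, eval₂_prod]
    refine congrArg₂ _ rfl (Finset.prod_congr rfl fun j _ => ?_)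
    rw [eval₂_pow, eval_af]
    rfl
  have h0 : ∀ w ∈ LinearMap.range (Pt v idx β),
      fval Finset.univ (fun i => (γ i : ℚ)) e (fun j => lp S (L j)) (fun j => (a j : ℚ)) w = 0 := by
    rintro w ⟨A, rfl⟩
    have h1 := congrArg (eval₂ (Int.castRingHom ℚ) (Fin.addCases A β)) h
    rw [eval₂_zero, eval₂_sum] at h1
    rw [fval, ← h1]
    refine Finset.sum_congr rfl fun i _ => ?_
    rw [eval₂_mul, eval₂_C, eval₂_prod]
    refine congrArg₂ _ rfl (Finset.prod_congr rfl fun j _ => ?_)
    rw [eval₂_pow, eval_Th_af]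
    rfl
  have hall := stm k e (fun j => lp S (L j)) Finset.univ (by simp) ℚ (fun i => (γ i : ℚ))
    (fun j => (a j : ℚ)) ⊤ (LinearMap.range (Pt v idx β)) le_top hR h0
  apply map_injective (Int.castRingHom ℚ) Int.cast_injective
  rw [map_zero]
  apply MvPolynomial.funext
  intro w
  rw [map_zero, eval_map, hval]
  exact hall w Submodule.mem_top

end Pool.Agent.H531R3
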