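import Mathlib
import Pool.Agent.H531R2.Hit2
import Pool.Agent.H531R2.FanDefs
import Pool.Agent.H531R2.FanSub
import Pool.Agent.H531R2.Core2

/-!
# The hitting set theorem for bounded top fan-in
-/

set_option autoImplicit false

namespace Pool.Agent.H531R3

open Pool.Agent.H531R2 MvPolynomial

variable {n k v : ℕ}

theorem coeff_zero_af (S : Finset ℕ) (L : ℕ → ℤ) (a : ℤ) : coeff 0 (af S L a) = a := by
  rw [af, coeff_add, coeff_zero_C, coeff_sum]
  rw [Finset.sum_eq_zero, add_zero]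
  intro m _
  rw [coeff_C_mul]
  simp

theorem coeff_single_af (S : Finset ℕ) (L : ℕ → ℤ) (a : ℤ) {m : ℕ} (hm : m ∈ S) :
    coeff (Finsupp.single m 1) (af S L a) = L m := by
  classical
  rw [af, coeff_add, coeff_C, if_neg, zero_add, coeff_sum, Finset.sum_eq_single m]
  · rw [coeff_C_mul, coeff_X, if_pos rfl, mul_one]
  · intro m' _ hne
    rw [coeff_C_mul, coeff_X, if_neg, mul_zero]
    intro h
    exact hne (Finsupp.single_left_injective one_ne_zero h)
  · intro h
    exact absurd hm h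
  · intro h
    have := DFunLike.congr_fun h m
    simp at this

/-- Splitting off the content of an affine form. -/
theorem prim_af (S : Finset ℕ) (L : ℕ → ℤ) (a : ℤ) {B : ℕ} (hB : 1 ≤ B)
    (hL : ∀ m, (L m).natAbs ≤ B) (ha : a.natAbs ≤ B) :
    ∃ (κ : ℤ) (L' : ℕ → ℤ) (a' : ℤ), af S L a = C κ * af S L' a' ∧
      (∀ m, (L' m).natAbs ≤ B) ∧ a'.natAbs ≤ B ∧
      ∀ p : ℕ, p.Prime → ¬ ((p : ℤ) ∣ a' ∧ ∀ m ∈ S, (p : ℤ) ∣ L' m) := by
  classical
  by_cases h0 : af S L a = 0
  · refine ⟨0, fun _ => 0, 1, by rw [h0]; simp, by simp, by simpa using hB, fun p hp h => ?_⟩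
    have h1 := Int.natAbs_dvd_natAbs.2 h.1
    simp only [Int.natAbs_natCast, Int.natAbs_one, Nat.dvd_one] at h1
    exact hp.one_lt.ne' h1
  · obtain ⟨κ, D', hκ, hD, hD'⟩ := exists_prim_part h0
    set a' := coeff 0 D' with ha'
    set L' : ℕ → ℤ := fun m => if m ∈ S then coeff (Finsupp.single m 1) D' else 0 with hL'
    have e1 : a = κ * a' := by
      have := congrArg (coeff 0) hD
      rwa [coeff_zero_af, coeff_C_mul] at this
    have e2 : ∀ m ∈ S, L m = κ * L' m := by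
      intro m hm
      have := congrArg (coeff (Finsupp.single m 1)) hD
      rw [coeff_single_af S L a hm, coeff_C_mul] at this
      rw [this, hL']
      simp only [if_pos hm]
    have e3 : af S L a = C κ * af S L' a' := by
      rw [af, af, mul_add, Finset.mul_sum, ← C_mul, ← e1]
      congr 1
      refine Finset.sum_congr rfl fun m hm => ?_
      rw [e2 m hm, C_mul, mul_assoc]
    have e4 : D' = af S L' a' := by
      have hC : (C κ : MvPolynomial ℕ ℤ) ≠ 0 := by rw [Ne, C_eq_zero]; exact hκ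
      apply mul_left_cancel₀ hC
      rw [← hD, e3]
    refine ⟨κ, L', a', e3, ?_, ?_, ?_⟩
    · intro m
      by_cases hm : m ∈ S
      · refine le_trans ?_ (hL m)
        rw [e2 m hm, Int.natAbs_mul]
        exact Nat.le_mul_of_pos_left _ (Int.natAbs_pos.2 hκ)
      · simp [hL', hm]
    · refine le_trans ?_ ha
      rw [e1, Int.natAbs_mul]
      exact Nat.le_mul_of_pos_left _ (Int.natAbs_pos.2 hκ)
    · rintro p hp ⟨h1, h2⟩
      apply hD' p hp
      rw [e4, af]
      refine dvd_add (map_dvd C h1) (Finset.dvd_sum fun m hm => ?_)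
      exact Dvd.dvd.mul_right (map_dvd C (h2 m hm)) _

theorem Th_af (idx : ℕ → ℕ) (S : Finset ℕ) (L : ℕ → ℤ) (a : ℤ) :
    Th v idx (af S L a) = C a + ∑ j ∈ S, C (L j) * ∑ t : Fin v,
      X (Fin.castAdd v t) * X (Fin.natAdd v t) ^ idx j := by
  rw [af, map_add, map_sum, algHom_C, algebraMap_eq]
  congr 1
  refine Finset.sum_congr rfl fun m _ => ?_
  rw [map_mul, algHom_C, algebraMap_eq, Th, aeval_X]

/-- The substitution keeps primitive affine forms primitive. -/
theorem prim_Th_af (hv : 0 < v) (idx : ℕ → ℕ) (S : Finset ℕ) (hidx : Set.InjOn idx S)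
    (L : ℕ → ℤ) (a : ℤ)
    (h : ∀ p : ℕ, p.Prime → ¬ ((p : ℤ) ∣ a ∧ ∀ m ∈ S, (p : ℤ) ∣ L m)) :
    Prim (Th v idx (af S L a)) := by
  classical
  rintro p hp ⟨H, hH⟩
  apply h p hp
  have : Fact p.Prime := ⟨hp⟩
  let t0 : Fin v := ⟨0, hv⟩
  let χ : MvPolynomial (Fin (v + v)) ℤ →+* Polynomial (Polynomial (ZMod p)) :=
    eval₂Hom (Int.castRingHom _)
      (Fin.addCases (fun t => if t = t0 then Polynomial.X else 0)
        (fun t => Polynomial.C Polynomial.X))
  have hA : ∀ t : Fin v, χ (X (Fin.castAdd v t)) = if t = t0 then Polynomial.X else 0 := by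
    intro t
    simp only [χ, coe_eval₂Hom, eval₂_X, Fin.addCases_left]
  have hB : ∀ t : Fin v, χ (X (Fin.natAdd v t)) = Polynomial.C Polynomial.X := by
    intro t
    simp only [χ, coe_eval₂Hom, eval₂_X, Fin.addCases_right]
  have hC : ∀ z : ℤ, χ (C z) = Polynomial.C (Polynomial.C (z : ZMod p)) := by
    intro z
    simp [χ]
  have h1 : χ (Th v idx (af S L a)) = 0 := by
    rw [hH, map_mul, hC]
    simp
  have h2 : χ (Th v idx (af S L a)) = Polynomial.C (Polynomial.C (a : ZMod p)) +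
      Polynomial.C (∑ m ∈ S, Polynomial.C (L m : ZMod p) * Polynomial.X ^ idx m) *
        Polynomial.X := by
    rw [Th_af, map_add, hC, map_sum, map_sum, Finset.sum_mul]
    congr 1
    refine Finset.sum_congr rfl fun m _ => ?_
    rw [map_mul, hC, map_sum, Finset.sum_eq_single t0]
    · rw [map_mul, map_pow, hA, hB, if_pos rfl, map_mul, map_pow]
      ring
    · intro t _ ht
      rw [map_mul, hA, if_neg ht, zero_mul]
    · intro h
      exact absurd (Finset.mem_univ _) h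
  rw [h2] at h1
  have h3 := congrArg (fun r => Polynomial.coeff r 0) h1
  have h4 := congrArg (fun r => Polynomial.coeff r 1) h1
  simp only [Polynomial.coeff_add, Polynomial.coeff_C_zero, Polynomial.mul_coeff_zero,
    Polynomial.coeff_X_zero, mul_zero, add_zero, Polynomial.coeff_zero] at h3
  simp only [Polynomial.coeff_add, Polynomial.coeff_C_succ, Polynomial.coeff_C_mul,
    Polynomial.coeff_X_one, mul_one, zero_add, Polynomial.coeff_zero] at h4
  refine ⟨?_, fun m hm => ?_⟩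
  · rw [Polynomial.C_eq_zero] at h3
    exact (ZMod.intCast_zmod_eq_zero_iff_dvd _ _).1 h3
  · have h5 := congrArg (fun r => Polynomial.coeff r (idx m)) h4
    simp only [Polynomial.finsetSum_coeff, Polynomial.coeff_zero] at h5
    rw [Finset.sum_eq_single m] at h5
    · simp only [Polynomial.coeff_C_mul, Polynomial.coeff_X_pow, if_true, mul_one] at h5
      exact (ZMod.intCast_zmod_eq_zero_iff_dvd _ _).1 h5
    · intro m' hm' hne
      rw [Polynomial.coeff_C_mul, Polynomial.coeff_X_pow, if_neg, mul_zero]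
      intro h4
      exact hne (hidx hm' hm h4.symm)
    · intro h4
      exact absurd hm h4

theorem iQ_af (S : Finset ℕ) (L : ℕ → ℤ) (a : ℤ) :
    iQ (af S L a) = C (a : ℚ) + ∑ m ∈ S, C (L m : ℚ) * X m := by
  rw [af, map_add, iQ_C, map_sum]
  congr 1
  refine Finset.sum_congr rfl fun m _ => ?_
  rw [map_mul, iQ_C, iQ, map_X]

/-- Integer form of a nonzero polynomial with `TopFan`. -/
theorem TopFan.reduce {F : MvPolynomial ℕ ℚ} (hF0 : F ≠ 0) (hF : TopFan k n F) :
    ∃ (S : Finset ℕ) (L : Fin n → ℕ → ℤ) (a : Fin n → ℤ)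
      (e : Fin k → Fin n → ℕ) (c : Fin k → ℤ) (K κ : ℤ) (F' : MvPolynomial ℕ ℤ),
      S.card ≤ n ∧ (∀ j m, (L j m).natAbs ≤ 2 ^ n) ∧ (∀ j, (a j).natAbs ≤ 2 ^ n) ∧
      (∀ j, ∀ p : ℕ, p.Prime → ¬ ((p : ℤ) ∣ a j ∧ ∀ m ∈ S, (p : ℤ) ∣ L j m)) ∧
      (∀ i j, e i j ≤ 2 ^ n) ∧ K ≠ 0 ∧ κ ≠ 0 ∧ Prim F' ∧
      C κ * F' = ∑ i, C (c i) * ∏ j, af S (L j) (a j) ^ e i j ∧
      C (K : ℚ) * F = iQ (C κ * F') := by
  classical
  obtain ⟨S, L, a, e, c, hS, hL, ha, he, rfl⟩ := hF
  have hprim := fun j => prim_af S (L j) (a j) Nat.one_le_two_pow (hL j) (ha j)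
  choose μ L' a' hμ hL' ha' hp' using hprim
  have hex : ∀ i, ∃ z : ℤ, (z : ℚ) = ((∏ i, (c i).den : ℕ) : ℚ) * c i := by
    intro i
    refine ⟨((∏ i' ∈ Finset.univ.erase i, (c i').den : ℕ) : ℤ) * (c i).num, ?_⟩
    rw [← Finset.mul_prod_erase Finset.univ (fun i => (c i).den) (Finset.mem_univ i)]
    push_cast
    have h1 : ((c i).den : ℚ) * c i = (c i).num := by
      rw [mul_comm]; exact Rat.mul_den_eq_num (c i)
    rw [← h1]
    ring
  choose z hz using hex
  set K : ℕ := ∏ i, (c i).den with hK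
  have hK0 : (K : ℤ) ≠ 0 := by
    have : K ≠ 0 := Finset.prod_ne_zero_iff.2 fun i _ => (c i).den_nz
    exact_mod_cast this
  set F0 : MvPolynomial ℕ ℤ := ∑ i, C (z i * ∏ j, μ j ^ e i j) * ∏ j, af S (L' j) (a' j) ^ e i j
    with hF0def
  have hrel : C (((K : ℤ) : ℚ)) * (∑ i, C (c i) * ∏ j, (C (a j : ℚ) +
      ∑ m ∈ S, C (L j m : ℚ) * X m) ^ e i j) = iQ F0 := by
    rw [hF0def, map_sum, Finset.mul_sum]
    refine Finset.sum_congr rfl fun i _ => ?_
    have e1 : C (z i * ∏ j, μ j ^ e i j) * ∏ j, af S (L' j) (a' j) ^ e i j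
        = C (z i) * ∏ j, af S (L j) (a j) ^ e i j := by
      rw [C_mul, mul_assoc, map_prod, ← Finset.prod_mul_distrib]
      refine congrArg _ (Finset.prod_congr rfl fun j _ => ?_)
      rw [hμ, mul_pow, C_pow]
    rw [e1, map_mul, map_prod, iQ_C, ← mul_assoc, ← C_mul, hz i]
    congr 1
    refine Finset.prod_congr rfl fun j _ => ?_
    rw [map_pow, iQ_af]
  have hF00 : F0 ≠ 0 := by
    intro h0
    rw [h0, map_zero] at hrel
    rcases mul_eq_zero.1 hrel with h | h
    · rw [C_eq_zero] at h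
      exact hK0 (by exact_mod_cast h)
    · exact hF0 h
  obtain ⟨κ, F', hκ, hκF, hF'⟩ := exists_prim_part hF00
  refine ⟨S, L', a', e, fun i => z i * ∏ j, μ j ^ e i j, K, κ, F', hS, hL', ha', hp', he, hK0, hκ, hF', ?_, ?_⟩
  · rw [← hκF]
  · rw [hrel, hκF]

/-- Integer form of the assumption on `f`. -/
theorem TameFan.reduce {f : MvPolynomial ℕ ℤ} (hf : TameFan k n f) :
    ∃ (cf : ℤ) (f' : MvPolynomial ℕ ℤ) (S : Fin n → Finset ℕ) (L : Fin n → Fin n → ℕ → ℤ)
      (a : Fin n → Fin n → ℤ) (e : Fin n → Fin k → Fin n → ℕ)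
      (c : Fin n → Fin k → ℤ) (κ : Fin n → ℤ) (F' : Fin n → MvPolynomial ℕ ℤ),
      f = C cf * f' ∧ cf ≠ 0 ∧
      (∀ b, (S b).card ≤ n ∧ (∀ j m, (L b j m).natAbs ≤ 2 ^ n) ∧
        (∀ j, (a b j).natAbs ≤ 2 ^ n) ∧
        (∀ j, ∀ p : ℕ, p.Prime → ¬ ((p : ℤ) ∣ a b j ∧ ∀ m ∈ S b, (p : ℤ) ∣ L b j m)) ∧
        (∀ i j, e b i j ≤ 2 ^ n) ∧ κ b ≠ 0 ∧ Prim (F' b) ∧
        C (κ b) * F' b = ∑ i, C (c b i) * ∏ j, af (S b) (L b j) (a b j) ^ e b i j) ∧
      f' ∣ ∏ b, F' b := by
  classical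
  obtain ⟨hcont, F, hF, hfd⟩ := hf
  have hf0 : f ≠ 0 := by
    rintro rfl
    obtain ⟨p, hp1, hp2⟩ := Nat.exists_infinite_primes (n + 1)
    exact hcont p hp2 (by omega) (dvd_zero _)
  have hred := fun b => (hF b).2.reduce (hF b).1
  choose S L a e c K κ F' hS hL ha hpr he hK hκ hF' hrel hFe using hred
  obtain ⟨cf, f', hcf, hff, hf'⟩ := exists_prim_part hf0
  refine ⟨cf, f', S, L, a, e, c, κ, F', hff, hcf, fun b => ⟨hS b, hL b, ha b, hpr b, he b, hκ b,
    hF' b, hrel b⟩, ?_⟩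
  set P := ∏ b, F' b with hP
  have h1 : iQ f ∣ iQ (C (∏ b, κ b) * P) := by
    have h2 : iQ (C (∏ b, κ b) * P) = (∏ b, C (K b : ℚ)) * ∏ b, F b := by
      rw [← Finset.prod_mul_distrib, hP, map_prod, ← Finset.prod_mul_distrib, map_prod]
      exact Finset.prod_congr rfl fun b _ => (hFe b).symm
    rw [h2]
    exact Dvd.dvd.mul_left hfd _
  obtain ⟨q, hq⟩ := h1
  obtain ⟨J, q', hJ, hq'⟩ := clear_den q
  have h3 : f * q' = C (J * ∏ b, κ b) * P := by
    apply iQ_inj
    rw [map_mul, ← hq', C_mul, mul_assoc, map_mul, hq, iQ_C]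
    ring
  have hk0 : J * ∏ b, κ b ≠ 0 := mul_ne_zero hJ (Finset.prod_ne_zero_iff.2 fun b _ => hκ b)
  have h4 : (C (J * ∏ b, κ b) : MvPolynomial ℕ ℤ) ∣ C cf * q' := by
    apply hf'.C_dvd hk0
    refine ⟨P, ?_⟩
    rw [← h3, hff]
    ring
  obtain ⟨q'', hq''⟩ := h4
  refine ⟨q'', ?_⟩
  have hC : (C (J * ∏ b, κ b) : MvPolynomial ℕ ℤ) ≠ 0 := by
    rw [Ne, C_eq_zero]; exact hk0
  apply mul_left_cancel₀ hC
  rw [← h3, hff]
  linear_combination f' * hq''

theorem nrm_Th_af (idx : ℕ → ℕ) (S : Finset ℕ) (L : ℕ → ℤ) (a : ℤ) (B : ℕ)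
    (hL : ∀ m, (L m).natAbs ≤ B) (ha : a.natAbs ≤ B) :
    nrm (Th v idx (af S L a)) ≤ B + S.card * (B * v) := by
  rw [Th_af]
  refine (nrm_add _ _).trans (Nat.add_le_add ((nrm_C _).trans ha) ?_)
  refine (nrm_sum _ _).trans ?_
  refine (Finset.sum_le_card_nsmul S _ (B * v) fun j _ => ?_).trans (by simp)
  refine (nrm_mul _ _).trans (Nat.mul_le_mul ((nrm_C _).trans (hL j)) ?_)
  refine (nrm_sum _ _).trans ?_
  refine (Finset.sum_le_card_nsmul Finset.univ _ 1 fun t _ => ?_).trans (by simp)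
  refine (nrm_mul _ _).trans ?_
  have h1 := nrm_X_le (Fin.castAdd v t)
  have h2 := nrm_pow_le (X (Fin.natAdd v t) : MvPolynomial (Fin (v + v)) ℤ)
    (nrm_X_le (Fin.natAdd v t)) (idx j)
  rw [one_pow] at h2
  exact (Nat.mul_le_mul h1 h2).trans (by norm_num)

theorem totalDegree_Th_af (idx : ℕ → ℕ) (S : Finset ℕ) (L : ℕ → ℤ) (a : ℤ) (m : ℕ)
    (hlt : ∀ j ∈ S, idx j < m) :
    (Th v idx (af S L a)).totalDegree ≤ m := by
  rw [Th_af]
  refine (totalDegree_add _ _).trans (max_le (by rw [totalDegree_C]; exact Nat.zero_le _) ?_)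
  apply totalDegree_sum_le
  intro j hj
  refine (totalDegree_C_mul_le _ _).trans ?_
  apply totalDegree_sum_le
  intro t _
  refine (totalDegree_mul _ _).trans ?_
  have h1 : (X (Fin.natAdd v t) ^ idx j : MvPolynomial (Fin (v + v)) ℤ).totalDegree ≤ idx j := by
    refine (totalDegree_pow _ _).trans ?_
    rw [totalDegree_X, mul_one]
  have h2 := hlt j hj
  rw [totalDegree_X]
  omega

theorem af_bound (v n m s : ℕ) (hs : s ≤ n) (hn : 0 < n) :
    2 ^ n + s * (2 ^ n * v) ≤ 2 ^ HH v n m := by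
  have h1 : v ≤ 2 ^ v := Nat.lt_two_pow_self.le
  have h2 : s ≤ 2 ^ n := hs.trans Nat.lt_two_pow_self.le
  calc 2 ^ n + s * (2 ^ n * v) ≤ 2 ^ (2 * v + 2 * n) + 2 ^ n * (2 ^ n * 2 ^ v) := by
        refine Nat.add_le_add (Nat.pow_le_pow_right (by norm_num) (by omega)) ?_
        gcongr
    _ ≤ 2 ^ (2 * v + 2 * n) + 2 ^ (2 * v + 2 * n) := by
        refine Nat.add_le_add_left ?_ _
        rw [← pow_add, ← pow_add]
        exact Nat.pow_le_pow_right (by norm_num) (by omega)
    _ = 2 ^ (2 * v + 2 * n + 1) := by rw [pow_succ]; ring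
    _ ≤ 2 ^ HH v n m := by
        apply Nat.pow_le_pow_right (by norm_num)
        rw [HH]
        nlinarith [Nat.zero_le (mm v n m), Nat.le_mul_of_pos_left (mm v n m + 2 * v + 2 * n + 2) hn]

/-- The hitting set theorem. -/
theorem hit_fan (hkv : k ≤ v) (hv : 0 < v) {f : MvPolynomial ℕ ℤ} (hf : TameFan k n f)
    (V : Finset ℕ) (hV : f.vars ⊆ V)
    (idx : ℕ → ℕ) (hidx : Set.InjOn idx V) (m : ℕ) (hlt : ∀ j ∈ V, idx j < m) :
    ∀ p : ℕ, p.Prime → PP v n m ≤ p →
      ∃ a : Fin (v + v) → ℕ, (∀ t, a t < p ^ 2) ∧ ¬ ((p : ℤ) ^ (Ex v n m + 1) ∣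
        eval (fun j => ∑ t : Fin v, (a (Fin.castAdd v t) : ℤ) *
          (a (Fin.natAdd v t) : ℤ) ^ idx j) f) := by
  classical
  intro p hp hpP
  have hcont := hf.1
  obtain ⟨cf, f', S, L, a, e, c, κ, F', hff, hcf, hall, hfd⟩ := hf.reduce
  have hS := fun b => (hall b).1
  have hL := fun b => (hall b).2.1
  have ha := fun b => (hall b).2.2.1
  have hpr := fun b => (hall b).2.2.2.1
  have he := fun b => (hall b).2.2.2.2.1
  have hκ := fun b => (hall b).2.2.2.2.2.1
  have hF' := fun b => (hall b).2.2.2.2.2.2.1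
  have hrel := fun b => (hall b).2.2.2.2.2.2.2
  -- numbering
  let W : Finset ℕ := Finset.univ.biUnion S
  have hW : W.card ≤ n * (v + n) := by
    refine Finset.card_biUnion_le.trans ?_
    refine (Finset.sum_le_card_nsmul Finset.univ _ (v + n) fun b _ =>
      (hS b).trans (by omega)).trans ?_
    simp
  obtain ⟨idx', hidxV, hidx', hlt'⟩ := exists_numbering V W idx hidx m hlt
  have hSW : ∀ b, ∀ j ∈ S b, j ∈ V ∪ W := by
    intro b j hj
    rw [Finset.mem_union]
    right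
    rw [Finset.mem_biUnion]
    exact ⟨b, Finset.mem_univ _, hj⟩
  have hltm : ∀ b, ∀ j ∈ S b, idx' j < mm v n m := by
    intro b j hj
    have := hlt' _ (hSW b j hj)
    rw [mm]
    omega
  have hinj : ∀ b, Set.InjOn idx' (S b) := by
    intro b j hj j' hj' h
    exact hidx' (hSW b j hj) (hSW b j' hj') h
  have hP2 : Ex v n m < p := by rw [PP] at hpP; omega
  have hP3 : n * n * HH v n m < p := by rw [PP] at hpP; omega
  have hP4 : n < p := by rw [PP] at hpP; omega
  -- the bases after the substitution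
  let G' : Fin n → Fin n → MvPolynomial (Fin (v + v)) ℤ := fun b j =>
    Th v idx' (af (S b) (L b j) (a b j))
  have hG' : ∀ b j, Prim (G' b j) := fun b j =>
    prim_Th_af hv idx' (S b) (hinj b) (L b j) (a b j) (hpr b j)
  have hG'd : ∀ b j, (G' b j).totalDegree ≤ HH v n m := by
    intro b j
    refine (totalDegree_Th_af idx' (S b) (L b j) (a b j) (mm v n m) (hltm b)).trans ?_
    have hn : 0 < n := Nat.pos_of_ne_zero (by rintro rfl; exact b.elim0)
    rw [HH]
    nlinarith [Nat.zero_le (mm v n m), Nat.le_mul_of_pos_left (mm v n m + 2 * v + 2 * n + 2) hn]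
  have hG'n : ∀ b j, nrm (G' b j) ≤ 2 ^ HH v n m := by
    intro b j
    have hn : 0 < n := Nat.pos_of_ne_zero (by rintro rfl; exact b.elim0)
    exact (nrm_Th_af idx' (S b) (L b j) (a b j) (2 ^ n) (hL b j) (ha b j)).trans
      (af_bound v n m _ (hS b) hn)
  -- the first half of the point
  have hPr : Prim (∏ b, ∏ j, G' b j) := Prim.prod _ _ fun b _ => Prim.prod _ _ fun j _ => hG' b j
  have hPd : (∏ b, ∏ j, G' b j).totalDegree ≤ n * n * HH v n m := by
    have h1 := totalDegree_prod_le Finset.univ (fun b => ∏ j, G' b j) (n * HH v n m) (fun b _ => by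
      have h2 := totalDegree_prod_le Finset.univ (G' b) (HH v n m) (fun j _ => hG'd b j)
      rwa [Finset.card_univ, Fintype.card_fin] at h2)
    rw [Finset.card_univ, Fintype.card_fin] at h1
    rw [mul_assoc]
    exact h1
  obtain ⟨s, hs, hsP⟩ := exists_point hp (hPr p hp) (d := n * n * HH v n m) (fun m' hm' => by
    have h0 : coeff m' (∏ b, ∏ j, G' b j) = 0 := by
      by_contra hne
      exact absurd (degree_le_totalDegree hne) (not_le.2 (lt_of_le_of_lt hPd hm'))
    rw [h0]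
    exact dvd_zero _) hP3
  have hsg : ∀ b j, ¬ ((p : ℤ) ∣ eval (fun a => (s a : ℤ)) (G' b j)) := by
    intro b j h
    apply hsP
    rw [map_prod]
    refine h.trans ?_
    refine dvd_trans ?_ (Finset.dvd_prod_of_mem _ (Finset.mem_univ b))
    rw [map_prod]
    exact Finset.dvd_prod_of_mem _ (Finset.mem_univ j)
  set s' : Fin (v + v) → ℤ := fun a => (s a : ℤ) with hs'
  -- each factor
  have hFa : ∀ b, ¬ ((C (p : ℤ)) ^ (E1 (v + v) (HH v n m) + 1) ∣
      Sig p s' (Th v idx' (F' b))) := by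
    intro b
    have hn : 0 < n := Nat.pos_of_ne_zero (by rintro rfl; exact b.elim0)
    have hn1 : n ≤ HH v n m := by
      rw [HH]
      exact Nat.le_mul_of_pos_right n (by omega)
    have hk1 : k ≤ HH v n m := by
      rw [HH]
      nlinarith [Nat.zero_le (mm v n m), Nat.le_mul_of_pos_left (mm v n m + 2 * v + 2 * n + 2) hn]
    have hT : ∀ γ : Fin k → ℤ, Th v idx' (∑ i, C (γ i) * ∏ j, af (S b) (L b j) (a b j) ^ e b i j)
        = ∑ i, C (γ i) * ∏ j, G' b j ^ e b i j := by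
      intro γ
      rw [map_sum]
      refine Finset.sum_congr rfl fun i _ => ?_
      rw [map_mul, map_prod, algHom_C, algebraMap_eq]
      refine congrArg _ (Finset.prod_congr rfl fun j _ => ?_)
      rw [map_pow]
    have hTC : ∀ z : ℤ, Th v idx' (C z) = C z := by
      intro z
      rw [algHom_C, algebraMap_eq]
    have hrelT : C (κ b) * Th v idx' (F' b) = ∑ i, C (c b i) * ∏ j, G' b j ^ e b i j := by
      rw [← hT, ← hrel b, map_mul, hTC]
    have hCκ : (C (κ b) : MvPolynomial ℕ ℤ) ≠ 0 := by rw [Ne, C_eq_zero]; exact hκ b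
    refine core2 hp hk1 hn1 s' (G' b) (e b) (c b)
      (fun j => ⟨hG' b j, hG'd b j, hG'n b j⟩)
      (fun i j => (he b i j).trans (Nat.pow_le_pow_right (by norm_num) hn1)) _ ?_ ?_ (κ b) (hκ b)
      hrelT (hsg b)
    · intro h0
      rw [h0, mul_zero] at hrelT
      have h1 := Th_sum_eq_zero hkv (S b) (L b) (a b) idx' (hinj b) (e b) (c b) hrelT.symm
      rw [← hrel b] at h1
      rcases mul_eq_zero.1 h1 with h2 | h2
      · exact hCκ h2
      · exact (hF' b).ne_zero h2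
    · intro l γ β hγ hβ
      have h1 : ∑ i, C (l * c b i - κ b * γ i) * ∏ j, G' b j ^ e b i j = 0 := by
        have h2 : ∀ i, C (l * c b i - κ b * γ i) * ∏ j, G' b j ^ e b i j
            = C l * (C (c b i) * ∏ j, G' b j ^ e b i j)
              - C (κ b) * (C (γ i) * ∏ j, G' b j ^ e b i j) := by
          intro i
          rw [C_sub, C_mul, C_mul]
          ring
        rw [Finset.sum_congr rfl fun i _ => h2 i, Finset.sum_sub_distrib, ← Finset.mul_sum,
          ← Finset.mul_sum, ← hrelT, ← hγ]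
        ring
      have h3 := Th_sum_eq_zero hkv (S b) (L b) (a b) idx' (hinj b) (e b) _ h1
      have h4 : C (κ b) * (C l * F' b) = C (κ b) * ∑ i, C (γ i) *
          ∏ j, af (S b) (L b j) (a b j) ^ e b i j := by
        have h2 : ∀ i, C (l * c b i - κ b * γ i) * ∏ j, af (S b) (L b j) (a b j) ^ e b i j
            = C l * (C (c b i) * ∏ j, af (S b) (L b j) (a b j) ^ e b i j)
              - C (κ b) * (C (γ i) * ∏ j, af (S b) (L b j) (a b j) ^ e b i j) := by
          intro i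
          rw [C_sub, C_mul, C_mul]
          ring
        rw [Finset.sum_congr rfl fun i _ => h2 i, Finset.sum_sub_distrib, ← Finset.mul_sum,
          ← Finset.mul_sum, ← hrel b] at h3
        linear_combination h3
      have h5 := mul_left_cancel₀ hCκ h4
      have h6 : (C ((p : ℤ) ^ β) : MvPolynomial ℕ ℤ) ∣ F' b * C l := by
        rw [mul_comm, h5]
        exact Finset.dvd_sum fun i _ => Dvd.dvd.mul_right (map_dvd C (hβ i)) _
      have hp0 : (p : ℤ) ^ β ≠ 0 := pow_ne_zero _ (by exact_mod_cast hp.ne_zero)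
      have h7 := (hF' b).C_dvd hp0 h6
      rw [C_dvd_iff_dvd_coeff] at h7
      have h8 := h7 0
      rwa [coeff_zero_C] at h8
  have hprod := not_pow_dvd_prod hp Finset.univ
    (fun b => Sig p s' (Th v idx' (F' b))) (E1 (v + v) (HH v n m))
    (fun b _ => hFa b)
  rw [Finset.card_univ, Fintype.card_fin, ← map_prod, ← map_prod] at hprod
  have hSf' : ¬ ((C (p : ℤ)) ^ (n * E1 (v + v) (HH v n m) + 1) ∣ Sig p s' (Th v idx' f')) :=
    fun h => hprod (h.trans (map_dvd (Sig (p : ℤ) s') (map_dvd (Th v idx') hfd)))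
  have hcfp : ¬ ((C (p : ℤ) : MvPolynomial (Fin (v + v)) ℤ) ^ (n + 1) ∣ C cf) := by
    intro h
    rw [← C_pow] at h
    apply hcont p hp hP4
    rw [hff]
    exact Dvd.dvd.mul_right (map_dvd C (C_dvd_C h)) _
  have hSf : ¬ ((C (p : ℤ)) ^ (Ex v n m + 1) ∣ Sig p s' (Th v idx' f)) := by
    have h1 : Sig p s' (Th v idx' f) = C cf * Sig p s' (Th v idx' f') := by
      rw [hff, map_mul, map_mul, algHom_C, algebraMap_eq, algHom_C, algebraMap_eq]
    rw [h1]
    exact not_pow_dvd_mul hp hcfp hSf'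
  obtain ⟨b, hb, hbf⟩ := exists_second hp hP2 s' (Th v idx' f) hSf
  refine ⟨fun t => s t + p * b t, fun t => ?_, ?_⟩
  · have h1 := hs t
    have h2 := hb t
    have h3 : p * b t + p ≤ p * p := by
      calc p * b t + p = p * (b t + 1) := by ring
        _ ≤ p * p := Nat.mul_le_mul_left _ h2
    change s t + p * b t < p ^ 2
    rw [sq]
    omega
  · intro h
    apply hbf
    have h1 : eval (fun a => s' a + (p : ℤ) * (b a : ℤ)) (Th v idx' f)
        = eval (fun j => ∑ t : Fin v, ((s (Fin.castAdd v t) + p * b (Fin.castAdd v t) : ℕ) : ℤ) *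
          ((s (Fin.natAdd v t) + p * b (Fin.natAdd v t) : ℕ) : ℤ) ^ idx j) f := by
      have h2 : ((eval (fun a => s' a + (p : ℤ) * (b a : ℤ)) :
          MvPolynomial (Fin (v + v)) ℤ →+* ℤ).comp (Th v idx').toRingHom)
          = eval (fun j => ∑ t : Fin v, ((s (Fin.castAdd v t) + p * b (Fin.castAdd v t) : ℕ) : ℤ) *
          ((s (Fin.natAdd v t) + p * b (Fin.natAdd v t) : ℕ) : ℤ) ^ idx' j) := by
        apply MvPolynomial.ringHom_ext
        · intro z
          simp [Th]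
        · intro j
          simp [Th, hs']
      have h3 : eval (fun a => s' a + (p : ℤ) * (b a : ℤ)) (Th v idx' f)
          = eval (fun j => ∑ t : Fin v, ((s (Fin.castAdd v t) + p * b (Fin.castAdd v t) : ℕ) : ℤ) *
          ((s (Fin.natAdd v t) + p * b (Fin.natAdd v t) : ℕ) : ℤ) ^ idx' j) f := by
        rw [← h2]; rfl
      rw [h3]
      apply eval₂Hom_congr' rfl _ rfl
      intro j hj _
      rw [hidxV j (hV hj)]
    rw [h1]
    exact h

end Pool.Agent.H531R3
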