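import Pool.Agent.H531R2.Final
import Pool.Agent.H531R2.FanHit

/-!
# The decision procedure for bounded top fan-in
-/

set_option autoImplicit false

namespace Pool.Agent.H531R3

open Pool.Agent.H531R2 MvPolynomial Pool.Agent.NPC

theorem test_of_fan {k v n m : ℕ} (hkv : k ≤ v) (hv : 0 < v) (P R : List ℕ) (C : List Gate)
    (hm : C.length ≤ m)
    (hP : ∀ p ≤ XX v n m, p ∈ P) (hR : ∀ a < XX v n m ^ 2, a ∈ R)
    (hf : TameFan k n (cpoly C)) : test v P R (Ex v n m + 1) C = false := by
  have hΔp := hit_fan hkv hv hf (cvars C) (vars_cpoly C) (idx C) (idx_injOn C) m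
    (fun j hj => (idx_lt hj).trans_le hm)
  obtain ⟨p, hp, hpΔ, hpm, hpX⟩ := prime_choice (PP v n m) (DD v n) 1 one_ne_zero
    Nat.one_le_two_pow
  obtain ⟨a, ha, had⟩ := hΔp p hp hpm
  by_contra h
  rw [Bool.not_eq_false, test, Bool.and_eq_true, List.all_eq_true] at h
  have hpX' : p ≤ XX v n m := hpX
  have h1 := h.2 (p - 2) (hP _ (by omega))
  rw [List.all_eq_true] at h1
  have hpR : ∀ z < p ^ 2, z ∈ R := fun z hz =>
    hR z (lt_of_lt_of_le hz (Nat.pow_le_pow_left hpX' 2))
  have h2 := h1 (List.ofFn fun t : Fin v => (a (Fin.castAdd v t), a (Fin.natAdd v t))) (by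
    rw [mem_pts]
    refine ⟨by simp, ?_⟩
    intro z hz
    rw [List.mem_ofFn] at hz
    obtain ⟨t, rfl⟩ := hz
    rw [mem_prs]
    exact ⟨hpR _ (ha _), hpR _ (ha _)⟩)
  rw [decide_eq_true_eq, nlast_eq_zero_iff] at h2
  apply had
  have h3 : p - 2 + 2 = p := Nat.sub_add_cancel hp.two_le
  have h4 : p ^ (Ex v n m + 1) - 1 + 1 = p ^ (Ex v n m + 1) :=
    Nat.sub_add_cancel (Nat.one_le_pow _ _ hp.pos)
  rw [h3, h4] at h2
  have h5 : (fun j => ∑ t : Fin v, (a (Fin.castAdd v t) : ℤ) *
      (a (Fin.natAdd v t) : ℤ) ^ idx C j)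
      = pt C (List.ofFn fun t : Fin v => (a (Fin.castAdd v t), a (Fin.natAdd v t))) := by
    funext j
    rw [pt_ofFn]
  rw [h5]
  exact_mod_cast h2

/-- The main theorem for bounded top fan-in. -/
theorem main_fan (k d : ℕ) : ∃ A : List Bool → List Bool, PolyTime A ∧
    (∀ x, A x = [true] ∨ A x = [false]) ∧
    (∀ x ∈ ACIT, A x = [true]) ∧
    (∀ x, (∀ C : List Gate, WF C → bits C ≠ x) → A x = [false]) ∧
    ∀ C : List Gate, TameFan k ((bits C).length ^ d) (cpoly C) → A (bits C) = [false] := by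
  refine ⟨fun x => [alg (k + 1) d x], polyTime_of_poly (poly_alg (k + 1) d), ?_, ?_, ?_, ?_⟩
  · intro x
    cases h : alg (k + 1) d x
    · right; simp [h]
    · left; simp [h]
  · rintro x ⟨C, rfl, hC, h0⟩
    simp only [alg, unbits_bits, Option.elim]
    rw [test_of_zero (k + 1) _ _ _ C hC h0]
  · intro x hx
    simp only [alg]
    cases h : unbits (List Gate) x with
    | none => rfl
    | some C =>
      have h1 : ¬ WF C := fun hC => hx C hC (bits_of_unbits h)
      simp only [Option.elim]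
      rw [← wfB_iff, Bool.not_eq_true] at h1
      rw [test, h1, Bool.false_and]
  · intro C hC
    simp only [alg, unbits_bits, Option.elim]
    rw [test_of_fan (k := k) (Nat.le_succ k) (Nat.succ_pos k) _ _ C
      (m := (bits C).length) ?_ ?_ ?_ hC]
    · rw [bits_length]
      exact (length_lt_sz C).le
    · intro p hp
      rw [List.mem_range]
      exact Nat.lt_succ_of_le hp
    · intro a ha
      rw [List.mem_range]
      exact ha

end Pool.Agent.H531R3
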